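import Pool.Agent.H91.SZE.Defs
import Pool.Agent.H82.SZ.Defs

/-!
# WBV: the weights `exp (-(T - 2πr)² L/T²) (log r)^j` have bounded variation
-/

open Finset

namespace SZE

/-- `w_j(r)`, with the logarithm cut at `1/T` -/
noncomputable def wlog (T : ℝ) (j : ℕ) (r : ℝ) : ℂ := ((H82SZ.wt T r * Real.log (max r (1 / T)) ^ j : ℝ) : ℂ)

theorem wlog_eq {T : ℝ} {j : ℕ} {r : ℝ} (h : 1 / T ≤ r) :
    wlog T j r = ((H82SZ.wt T r * Real.log r ^ j : ℝ) : ℂ) := by
  unfold wlog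
  rw [max_eq_left h]

theorem wt_le_one (T : ℝ) (hT : 1 ≤ T) (r : ℝ) : H82SZ.wt T r ≤ 1 := by
  unfold H82SZ.wt
  rw [Real.exp_le_one_iff, neg_nonpos]
  have := Real.log_nonneg hT
  positivity

theorem wt_pos (T r : ℝ) : 0 < H82SZ.wt T r := Real.exp_pos _

/-- telescoping bound -/
theorem sum_tele {a : ℕ → ℝ} {G : ℕ → ℝ} {M : ℕ} (hM : 1 ≤ M) (h : ∀ n, 1 ≤ n → n < M → a n ≤ G (n + 1) - G n) :
    ∑ n ∈ Icc 1 (M - 1), a n ≤ G M - G 1 := by
  have key : ∀ m : ℕ, m + 1 ≤ M → ∑ n ∈ Icc 1 m, a n ≤ G (m + 1) - G 1 := by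
    intro m
    induction m with
    | zero => intro _; simp
    | succ m ih =>
      intro hm
      rw [Finset.sum_Icc_succ_top (by omega)]
      have h1 := ih (by omega)
      have h2 := h (m + 1) (by omega) (by omega)
      linarith
  have := key (M - 1) (by omega)
  rwa [Nat.sub_add_cancel hM] at this

/-- the variation of `wt` along an arithmetic progression -/
theorem var_wt {T : ℝ} (hT : 1 ≤ T) {k : ℕ} (hk : 1 ≤ k) {M : ℕ} (hM : 1 ≤ M) :
    ∑ n ∈ Icc 1 (M - 1), |H82SZ.wt T (((n + 1 : ℕ) : ℝ) / k) - H82SZ.wt T ((n : ℝ) / k)| ≤ 3 := by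
  have hk0 : (0 : ℝ) < k := by exact_mod_cast hk
  have hT0 : 0 < T := by linarith
  have hL : 0 ≤ Real.log T := Real.log_nonneg hT
  have hpi : 0 < 2 * Real.pi := by positivity
  set f : ℕ → ℝ := fun n => H82SZ.wt T ((n : ℝ) / k) with hf
  have hf0 : ∀ n, 0 < f n := fun n => wt_pos _ _
  have hf1 : ∀ n, f n ≤ 1 := fun n => wt_le_one T hT _
  set m : ℕ := ⌊T * k / (2 * Real.pi)⌋₊ with hm
  -- increasing up to `m`
  have hinc : ∀ n, n + 1 ≤ m → f n ≤ f (n + 1) := by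
    intro n hn
    have h1 : ((n + 1 : ℕ) : ℝ) ≤ T * k / (2 * Real.pi) := (Nat.le_floor_iff (by positivity)).1 hn
    have h2 : 2 * Real.pi * (((n + 1 : ℕ) : ℝ) / k) ≤ T := by
      rw [le_div_iff₀ hpi] at h1
      rw [← mul_div_assoc, div_le_iff₀ hk0]
      linarith
    have h3 : ((n : ℕ) : ℝ) / k ≤ ((n + 1 : ℕ) : ℝ) / k := by
      gcongr
      exact_mod_cast Nat.le_succ n
    simp only [hf]
    unfold H82SZ.wt
    rw [Real.exp_le_exp, neg_le_neg_iff]
    have h4 : 2 * Real.pi * ((n : ℝ) / k) ≤ 2 * Real.pi * (((n + 1 : ℕ) : ℝ) / k) := by gcongr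
    have h5 : 0 ≤ T - 2 * Real.pi * (((n + 1 : ℕ) : ℝ) / k) := by linarith
    gcongr
  -- decreasing from `m + 1` on
  have hdec : ∀ n, m + 1 ≤ n → f (n + 1) ≤ f n := by
    intro n hn
    have h1 : T * k / (2 * Real.pi) ≤ n := by
      have := Nat.lt_floor_add_one (T * k / (2 * Real.pi))
      have h2 : ((m + 1 : ℕ) : ℝ) ≤ n := by exact_mod_cast hn
      push_cast at h2
      rw [← hm] at this
      linarith
    have h2 : T ≤ 2 * Real.pi * ((n : ℝ) / k) := by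
      rw [div_le_iff₀ hpi] at h1
      rw [← mul_div_assoc, le_div_iff₀ hk0]
      linarith
    simp only [hf]
    unfold H82SZ.wt
    rw [Real.exp_le_exp, neg_le_neg_iff]
    have h4 : 2 * Real.pi * ((n : ℝ) / k) ≤ 2 * Real.pi * (((n + 1 : ℕ) : ℝ) / k) := by gcongr; simp
    have h5 : (T - 2 * Real.pi * ((n : ℝ) / k)) ^ 2 ≤ (T - 2 * Real.pi * (((n + 1 : ℕ) : ℝ) / k)) ^ 2 := by
      have h6 : 0 ≤ 2 * Real.pi * ((n : ℝ) / k) - T := by linarith
      have h7 : (T - 2 * Real.pi * ((n : ℝ) / k)) ^ 2 = (2 * Real.pi * ((n : ℝ) / k) - T) ^ 2 := by ring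
      have h8 : (T - 2 * Real.pi * (((n + 1 : ℕ) : ℝ) / k)) ^ 2 = (2 * Real.pi * (((n + 1 : ℕ) : ℝ) / k) - T) ^ 2 := by ring
      rw [h7, h8]
      gcongr
    gcongr
  have := sum_tele (a := fun n => |f (n + 1) - f n|) (G := fun n => if n ≤ m then f n else 3 - f n) hM (by
    intro n _ _
    rcases lt_trichotomy n m with h | h | h
    · rw [if_pos (by omega), if_pos h.le, abs_of_nonneg (sub_nonneg.2 (hinc n (by omega)))]
    · rw [if_neg (by omega), if_pos (le_of_eq h), abs_le]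
      constructor <;> linarith [hf0 n, hf0 (n + 1), hf1 n, hf1 (n + 1)]
    · rw [if_neg (by omega), if_neg (by omega), abs_of_nonpos (sub_nonpos.2 (hdec n (by omega)))]
      linarith)
  refine this.trans ?_
  have h1 : (if M ≤ m then f M else 3 - f M) ≤ 3 := by
    split_ifs
    · linarith [hf1 M]
    · linarith [hf0 M]
  have h2 : 0 ≤ (if 1 ≤ m then f 1 else 3 - f 1) := by
    split_ifs
    · exact (hf0 1).le
    · linarith [hf1 1]
  linarith

theorem wbv {T : ℝ} (hT : 3 ≤ T) {N0 : ℕ} (h1 : T ≤ N0) (h2 : (N0 : ℝ) ≤ 200 * T) {j : ℕ} (hj : j ≤ 1) :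
    BVw (40 * Real.log T ^ j) (wlog T j) N0 := by
  have hT0 : 0 < T := by linarith
  have hL1 : 1 ≤ Real.log T := by
    rw [Real.le_log_iff_exp_le hT0]
    have := Real.exp_one_lt_d9
    linarith
  have hN0 : 1 ≤ N0 := by
    have : (0 : ℝ) < N0 := by linarith
    exact_mod_cast this
  set L := Real.log T with hL
  intro k hk
  have hk0 : (0 : ℝ) < k := by exact_mod_cast hk
  have hM : 1 ≤ N0 * k := Nat.mul_pos hN0 hk
  have hv := var_wt (T := T) (by linarith) hk hM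
  have hw1 : ∀ r, H82SZ.wt T r ≤ 1 := wt_le_one T (by linarith)
  have hw0 : ∀ r, 0 < H82SZ.wt T r := wt_pos T
  interval_cases j
  · -- `j = 0`
    simp only [wlog, pow_zero, mul_one, ← Complex.ofReal_sub, Complex.norm_real, Real.norm_eq_abs]
    rw [abs_of_pos (hw0 _)]
    have := hw1 N0
    linarith
  · -- `j = 1`
    simp only [wlog, pow_one, ← Complex.ofReal_sub, Complex.norm_real, Real.norm_eq_abs]
    set g : ℝ → ℝ := fun r => Real.log (max r (1 / T)) with hg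
    have h1T : 0 < 1 / T := by positivity
    have hgmono : ∀ r s, r ≤ s → g r ≤ g s := fun r s hrs =>
      Real.log_le_log (lt_max_of_lt_right h1T) (max_le_max hrs le_rfl)
    have hglow : ∀ r, -L ≤ g r := fun r => by
      have : g r ≥ Real.log (1 / T) := Real.log_le_log h1T (le_max_right _ _)
      rw [one_div, Real.log_inv] at this
      exact this
    have hl200 : Real.log 200 ≤ 6 := by
      rw [Real.log_le_iff_le_exp (by norm_num)]
      have h3 : (2.7 : ℝ) ≤ Real.exp 1 := by have := Real.exp_one_gt_d9; linarith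
      calc (200 : ℝ) ≤ 2.7 ^ 6 := by norm_num
        _ ≤ Real.exp 1 ^ 6 := by gcongr
        _ = Real.exp 6 := by rw [← Real.exp_nat_mul]; norm_num
    have hgup : ∀ r : ℝ, r ≤ N0 → g r ≤ 7 * L := fun r hr => by
      have h3 : g r ≤ Real.log (200 * T) := by
        refine Real.log_le_log (lt_max_of_lt_right h1T) (max_le (hr.trans h2) ?_)
        rw [div_le_iff₀ hT0]
        nlinarith
      rw [Real.log_mul (by norm_num) hT0.ne'] at h3
      linarith
    have hgabs : ∀ r : ℝ, r ≤ N0 → |g r| ≤ 7 * L := fun r hr => by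
      rw [abs_le]
      exact ⟨by linarith [hglow r], hgup r hr⟩
    have hterm : ∀ n ∈ Icc 1 (N0 * k - 1),
        |H82SZ.wt T (((n + 1 : ℕ) : ℝ) / k) * g (((n + 1 : ℕ) : ℝ) / k) - H82SZ.wt T ((n : ℝ) / k) * g ((n : ℝ) / k)|
        ≤ 7 * L * |H82SZ.wt T (((n + 1 : ℕ) : ℝ) / k) - H82SZ.wt T ((n : ℝ) / k)| +
          (g (((n + 1 : ℕ) : ℝ) / k) - g ((n : ℝ) / k)) := by
      intro n hn
      rw [mem_Icc] at hn
      have hle : ((n + 1 : ℕ) : ℝ) / k ≤ N0 := by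
        rw [div_le_iff₀ hk0]
        have : n + 1 ≤ N0 * k := by omega
        exact_mod_cast this
      have hge : g ((n : ℝ) / k) ≤ g (((n + 1 : ℕ) : ℝ) / k) := by
        refine hgmono _ _ ?_
        gcongr
        exact_mod_cast Nat.le_succ n
      have e : H82SZ.wt T (((n + 1 : ℕ) : ℝ) / k) * g (((n + 1 : ℕ) : ℝ) / k) - H82SZ.wt T ((n : ℝ) / k) * g ((n : ℝ) / k)
          = (H82SZ.wt T (((n + 1 : ℕ) : ℝ) / k) - H82SZ.wt T ((n : ℝ) / k)) * g (((n + 1 : ℕ) : ℝ) / k) +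
            H82SZ.wt T ((n : ℝ) / k) * (g (((n + 1 : ℕ) : ℝ) / k) - g ((n : ℝ) / k)) := by ring
      rw [e]
      refine (abs_add_le _ _).trans (add_le_add ?_ ?_)
      · rw [abs_mul, mul_comm]
        exact mul_le_mul_of_nonneg_right (hgabs _ hle) (abs_nonneg _)
      · rw [abs_mul, abs_of_pos (hw0 _), abs_of_nonneg (sub_nonneg.2 hge)]
        calc H82SZ.wt T ((n : ℝ) / k) * (g (((n + 1 : ℕ) : ℝ) / k) - g ((n : ℝ) / k))
            ≤ 1 * (g (((n + 1 : ℕ) : ℝ) / k) - g ((n : ℝ) / k)) :=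
              mul_le_mul_of_nonneg_right (hw1 _) (sub_nonneg.2 hge)
          _ = _ := one_mul _
    have htel := sum_tele (a := fun n => g (((n + 1 : ℕ) : ℝ) / k) - g ((n : ℝ) / k)) (G := fun n => g ((n : ℝ) / k)) hM
      (fun n _ _ => le_rfl)
    have hNk : ((N0 * k : ℕ) : ℝ) / k = N0 := by push_cast; field_simp
    simp only [hNk] at htel
    have hend : |H82SZ.wt T N0 * g N0| ≤ 7 * L := by
      rw [abs_mul, abs_of_pos (hw0 _)]
      calc H82SZ.wt T N0 * |g N0| ≤ 1 * (7 * L) := mul_le_mul (hw1 _) (hgabs _ le_rfl) (abs_nonneg _) zero_le_one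
        _ = 7 * L := one_mul _
    calc |H82SZ.wt T N0 * g N0| + ∑ n ∈ Icc 1 (N0 * k - 1),
          |H82SZ.wt T (((n + 1 : ℕ) : ℝ) / k) * g (((n + 1 : ℕ) : ℝ) / k) - H82SZ.wt T ((n : ℝ) / k) * g ((n : ℝ) / k)|
        ≤ 7 * L + ∑ n ∈ Icc 1 (N0 * k - 1), (7 * L * |H82SZ.wt T (((n + 1 : ℕ) : ℝ) / k) - H82SZ.wt T ((n : ℝ) / k)| +
          (g (((n + 1 : ℕ) : ℝ) / k) - g ((n : ℝ) / k))) := add_le_add hend (sum_le_sum hterm)
      _ = 7 * L + (7 * L * (∑ n ∈ Icc 1 (N0 * k - 1), |H82SZ.wt T (((n + 1 : ℕ) : ℝ) / k) - H82SZ.wt T ((n : ℝ) / k)|) +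
          ∑ n ∈ Icc 1 (N0 * k - 1), (g (((n + 1 : ℕ) : ℝ) / k) - g ((n : ℝ) / k))) := by
          rw [sum_add_distrib, ← Finset.mul_sum]
      _ ≤ 7 * L + (7 * L * 3 + (g N0 - g (((1 : ℕ) : ℝ) / k))) := by
          gcongr
      _ ≤ 40 * L := by
          have h3 := hgup N0 le_rfl
          have h4 := hglow (((1 : ℕ) : ℝ) / k)
          linarith

end SZE
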