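import Pool.Agent.H91.SZE.Coe

/-!
# VGH: Vaughan's identity for convolutions, all factors of bounded support except smooth ones
-/

open Finset H69LB BVL

namespace SZE

theorem aL_mul_zeta : aL * smo 1 0 = smo 0 1 := by
  ext n
  rw [ArithmeticFunction.mul_apply, smo_apply]
  rcases Nat.eq_zero_or_pos n with hn | hn
  · rw [hn]; simp
  rw [if_neg hn.ne']
  have h1 : ∀ x ∈ n.divisorsAntidiagonal, aL x.1 * smo 1 0 x.2 = ((ArithmeticFunction.vonMangoldt x.1 : ℝ) : ℂ) := by
    intro x hx
    rw [Nat.mem_divisorsAntidiagonal] at hx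
    have h2 : x.2 ≠ 0 := by
      intro h
      rw [h, mul_zero] at hx
      omega
    rw [aL_apply, smo_apply, if_neg h2]
    simp
  rw [sum_congr rfl h1, Nat.sum_divisorsAntidiagonal (fun i _ => ((ArithmeticFunction.vonMangoldt i : ℝ) : ℂ)),
    ← Complex.ofReal_sum, ArithmeticFunction.vonMangoldt_sum]
  simp

theorem aM_eq : aM = ((ArithmeticFunction.moebius : ArithmeticFunction ℤ) : ArithmeticFunction ℂ) := by
  ext n
  simp [ArithmeticFunction.intCoe_apply]

theorem zeta_eq : smo 1 0 = ((ArithmeticFunction.zeta : ArithmeticFunction ℕ) : ArithmeticFunction ℂ) := by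
  ext n
  rw [smo_apply, ArithmeticFunction.natCoe_apply, ArithmeticFunction.zeta_apply]
  split_ifs <;> simp

theorem aM_mul_zeta : aM * smo 1 0 = 1 := by
  rw [aM_eq, zeta_eq, ArithmeticFunction.coe_moebius_mul_coe_zeta]

theorem cut_add_cutG (U : ℕ) (f : AF) : cut 0 U f + cutG U f = f := by
  ext n
  rw [ArithmeticFunction.add_apply, cut_apply, cutG_apply]
  rcases Nat.eq_zero_or_pos n with hn | hn
  · rw [hn]; simp
  by_cases h : U < n
  · rw [if_neg (by omega), if_pos h, zero_add]
  · rw [if_pos (by omega), if_neg h, add_zero]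

/-- Vaughan's identity -/
theorem vgh_identity (U V : ℕ) :
    aL = cut 0 U aL + -(cut 0 U aL) * (cut 0 V aM * smo 1 0) + cut 0 V aM * smo 0 1 +
      cutG U aL * (cutG V aM * smo 1 0) := by
  have h1 := cut_add_cutG U aL
  have h2 := cut_add_cutG V aM
  have h3 := aM_mul_zeta
  have h4 := aL_mul_zeta
  set a := cut 0 U aL
  set A := cutG U aL
  set b := cut 0 V aM
  set B := cutG V aM
  set z := smo 1 0
  have h5 : A = A * ((b + B) * z) := by rw [h2, h3, mul_one]
  have h6 : A * z = smo 0 1 - a * z := by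
    have h7 : aL * z = (a + A) * z := by rw [h1]
    rw [← h4, h7]
    ring
  calc aL = a + A := h1.symm
    _ = a + A * ((b + B) * z) := by rw [← h5]
    _ = a + ((A * z) * b + A * (B * z)) := by ring
    _ = a + ((smo 0 1 - a * z) * b + A * (B * z)) := by rw [h6]
    _ = _ := by ring

theorem beta_small {V n : ℕ} (h : n ≤ V) : (cutG V aM * smo 1 0) n = 0 := by
  rw [ArithmeticFunction.mul_apply]
  refine sum_eq_zero fun x hx => ?_
  rw [Nat.mem_divisorsAntidiagonal] at hx
  have h1 : x.1 ≤ n := Nat.le_of_dvd (by omega) ⟨x.2, hx.1.symm⟩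
  rw [cutG_apply, if_neg (by omega), zero_mul]

theorem beta_db (V : ℕ) : DB 1 0 1 (cutG V aM * smo 1 0) := by
  have h1 : DB 1 0 0 (smo 1 0) := by
    intro n hn
    rw [smo_apply, if_neg (by omega)]
    simp
  have h := (DB.aM.cutG V).mul h1
  simpa using h

/-- the bilinear part with bounded supports -/
theorem vgh_tail {U V X : ℕ} (hU : 1 ≤ U) (hV : 1 ≤ V) {n : ℕ} (hn : n ≤ X) :
    (cutG U aL * (cutG V aM * smo 1 0)) n =
      (cut U (X / V) aL * cut 0 (X / U) (cutG V aM * smo 1 0)) n := by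
  rw [ArithmeticFunction.mul_apply, ArithmeticFunction.mul_apply]
  refine sum_congr rfl fun x hx => ?_
  rw [Nat.mem_divisorsAntidiagonal] at hx
  have hx1 : 0 < x.1 := Nat.pos_of_ne_zero (by rintro h; rw [h] at hx; simp at hx; omega)
  have hx2 : 0 < x.2 := Nat.pos_of_ne_zero (by rintro h; rw [h] at hx; simp at hx; omega)
  rw [cutG_apply, cut_apply, cut_apply]
  by_cases h1 : U < x.1
  · by_cases h2 : V < x.2
    · have h3 : x.1 ≤ X / V := by
        rw [Nat.le_div_iff_mul_le hV]
        calc x.1 * V ≤ x.1 * x.2 := Nat.mul_le_mul_left _ h2.le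
          _ = n := hx.1
          _ ≤ X := hn
      have h4 : x.2 ≤ X / U := by
        rw [Nat.le_div_iff_mul_le hU]
        calc x.2 * U ≤ x.2 * x.1 := Nat.mul_le_mul_left _ h1.le
          _ = n := by rw [mul_comm]; exact hx.1
          _ ≤ X := hn
      rw [if_pos h1, if_pos ⟨h1, h3⟩, if_pos ⟨hx2, h4⟩]
    · rw [beta_small (by omega : x.2 ≤ V)]
      simp
  · rw [if_neg h1, if_neg (fun h => h1 h.1)]
    simp

end SZE
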