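import Pool.Agent.H91.SZE.Num
import Pool.Agent.H91.SZE.Vgh

/-!
# CORE: the middle range
-/

open Finset H69LB BVL

namespace SZE

theorem dil_listSum (d : ℕ) (S : List AF) : dil d S.sum = (S.map (dil d)).sum := by
  induction S with
  | nil => ext n; simp
  | cons a S ih => rw [List.sum_cons, List.map_cons, List.sum_cons, dil_add, ih]

theorem cop_listSum (e : ℕ) (S : List AF) : cop e S.sum = (S.map (cop e)).sum := by
  induction S with
  | nil => ext n; simp
  | cons a S ih => rw [List.sum_cons, List.map_cons, List.sum_cons, cop_add, ih]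

theorem list_sum_le_card {α : Type*} (l : List α) (F : α → ℝ) {B : ℝ} (h : ∀ a ∈ l, F a ≤ B) :
    (l.map F).sum ≤ l.length * B := by
  induction l with
  | nil => simp
  | cons a l ih =>
    rw [List.map_cons, List.sum_cons, List.length_cons]
    have h1 := h a List.mem_cons_self
    have h2 := ih fun b hb => h b (List.mem_cons_of_mem _ hb)
    push_cast
    linarith

/-- one list, with `d` and `r` -/
theorem core_dr (k : ℕ) : ∃ C : ℝ, 0 ≤ C ∧ ∃ K : ℕ, ∀ (N Q A0 A1 d r : ℕ) (fs : List AF),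
    3 ≤ N → Q ≤ N → 1 ≤ A0 → A0 ^ 2 ≤ A1 → 1 ≤ d → 1 ≤ r → fs.length ≤ k → ∀ G : ℝ, 1 ≤ G → (∀ f ∈ fs, Cl G A1 f) →
    Er Q N (cop r (dil d fs.prod)) ≤
      C * (G * (1 + Real.log d) * tau d * tau r) ^ K * tau d ^ k * Real.log N ^ K * BD N Q A0 A1 := by
  obtain ⟨C, hC, K, h⟩ := core_list k
  refine ⟨C, hC, K, ?_⟩
  intro N Q A0 A1 d r fs hN hQ hA0 hA1 hd hr hlen G hG1 hcl
  obtain ⟨S, hS1, hS2, hS3⟩ := dil_list fs d r hd hr
  rw [hS3]
  have hld := log_nn d
  have htd := one_le_tau hd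
  have htr := one_le_tau hr
  have hG : 1 ≤ G * (1 + Real.log d) * tau d * tau r := by
    have h0 : 1 ≤ G * (1 + Real.log d) := one_le_mul_of_one_le_of_one_le hG1 (by linarith)
    have h1 : 1 ≤ G * (1 + Real.log d) * tau d := one_le_mul_of_one_le_of_one_le h0 htd
    exact one_le_mul_of_one_le_of_one_le h1 htr
  refine (Er_listSum_le Q N _).trans ?_
  rw [List.map_map]
  have h1 : ∀ gs ∈ S, (Er Q N ∘ List.prod) gs ≤
      C * (G * (1 + Real.log d) * tau d * tau r) ^ K * Real.log N ^ K * BD N Q A0 A1 := by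
    intro gs hgs
    have h2 := hS2 gs hgs
    have h3 : gs.length ≤ k := by rw [← h2.length_eq]; exact hlen
    refine h N Q A0 A1 _ gs hN hQ hA0 hA1 hG h3 ?_
    intro g hg
    exact Cl.relList hd hr hcl h2 g hg
  refine (list_sum_le_card S _ h1).trans ?_
  have h5 : (S.length : ℝ) ≤ tau d ^ k := hS1.trans (pow_le_pow_right₀ htd hlen)
  have h6 := BD_nonneg N Q A0 A1
  have h7 := log_nn N
  calc (S.length : ℝ) * (C * (G * (1 + Real.log d) * tau d * tau r) ^ K * Real.log N ^ K * BD N Q A0 A1)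
      ≤ tau d ^ k * (C * (G * (1 + Real.log d) * tau d * tau r) ^ K * Real.log N ^ K * BD N Q A0 A1) := by gcongr
    _ = _ := by ring

theorem Cl.of_le {A : ℕ} {f : AF} {G : ℝ} (hG : 0 ≤ G) (h : ∀ n, ‖f n‖ ≤ G) (h0 : ∀ n, A < n → f n = 0) : Cl G A f := by
  left
  refine ⟨?_, h0⟩
  have : DB G 0 0 f := by
    intro n _
    simpa using h n
  exact this.mono le_rfl (by norm_num) (by norm_num)

theorem Cl.sm {A : ℕ} {G : ℝ} {s : AF} (hG : 1 ≤ G) (h : Sm G s) : Cl G A s :=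
  Or.inr ⟨1, s, le_rfl, by rw [tau_one]; exact hG, h, cop_one s⟩

theorem DB.neg {G : ℝ} {j m : ℕ} {f : AF} (h : DB G j m f) : DB G j m (-f) := by
  intro n hn
  have : (-f) n = -(f n) := rfl
  rw [this, norm_neg]
  exact h n hn

/-- the coefficient functions as sums of products of the classes -/
theorem Cc_lists {T ε G : ℝ} {c : AF} (hG : 1 ≤ G) (hc : Cc T ε G c) {A1 U X : ℕ} (hA1 : T ^ (1 - ε) ≤ A1) (hU : 1 ≤ U)
    (hUA : U ≤ A1) (hX : X / U ≤ A1) (hA : 1 ≤ A1) : ∃ S : List (List AF), S.length ≤ 4 ∧ (∀ fs ∈ S, fs.length ≤ 6) ∧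
    (∀ fs ∈ S, ∀ f ∈ fs, Cl (2 * G) A1 f) ∧ ∀ n ≤ X, c n = (S.map List.prod).sum n := by
  obtain ⟨l, s1, s2, t, hl, hs1, hs2, ht1, ht2, hc⟩ := hc
  have hG2 : G ≤ 2 * G := by linarith
  have h12 : 1 ≤ 2 * G := by linarith
  have k1 : Cl (2 * G) A1 s1 := (Cl.sm hG hs1).mono hG2
  have k2 : Cl (2 * G) A1 s2 := by
    rcases hs2 with h | h
    · rw [h]
      refine Cl.of_le (by linarith) (fun n => ?_) fun n hn => ArithmeticFunction.one_apply_ne (by omega)
      rw [ArithmeticFunction.one_apply]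
      split_ifs
      · simpa using h12
      · simp; linarith
    · exact (Cl.sm hG h).mono hG2
  have k3 : Cl (2 * G) A1 t :=
    (Cl.of_le (by linarith) ht1 fun n hn => ht2 n (hA1.trans_lt (by exact_mod_cast hn))).mono hG2
  rcases hl with h | h
  · refine ⟨[[s1, s2, t]], by simp, by simp, ?_, ?_⟩
    · simp only [forall_eq, List.mem_cons, List.not_mem_nil, or_false]
      rintro f (rfl | rfl | rfl) <;> assumption
    · intro n _
      rw [hc, h]
      simp only [List.map_cons, List.map_nil, List.sum_cons, List.sum_nil, List.prod_cons, List.prod_nil, add_zero]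
      congr 1
      ring
  · set b := cut 0 U aM with hb
    set a := cut 0 U aL with ha
    set A := cut U (X / U) aL with hAdef
    set B := cut 0 (X / U) (cutG U aM * smo 1 0) with hB
    have j1 : Cl (2 * G) A1 a := Or.inl ⟨(DB.aL.cut 0 U).mono h12 le_rfl (by norm_num), fun n hn => by
      rw [ha, cut_apply, if_neg (by omega)]⟩
    have j1' : Cl (2 * G) A1 (-a) := Or.inl ⟨((DB.aL.cut 0 U).neg).mono h12 le_rfl (by norm_num), fun n hn => by
      have : (-a) n = -(a n) := rfl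
      rw [this, ha, cut_apply, if_neg (by omega), neg_zero]⟩
    have j2 : Cl (2 * G) A1 b := Or.inl ⟨(DB.aM.cut 0 U).mono h12 (by norm_num) (by norm_num), fun n hn => by
      rw [hb, cut_apply, if_neg (by omega)]⟩
    have j3 : Cl (2 * G) A1 A := Or.inl ⟨(DB.aL.cut U (X / U)).mono h12 le_rfl (by norm_num), fun n hn => by
      rw [hAdef, cut_apply, if_neg (by omega)]⟩
    have j4 : Cl (2 * G) A1 B := Or.inl ⟨((beta_db U).cut 0 (X / U)).mono h12 (by norm_num) le_rfl, fun n hn => by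
      rw [hB, cut_apply, if_neg (by omega)]⟩
    have j5 : Cl (2 * G) A1 (smo 1 0) := Cl.sm h12 (Sm.smo' (by simpa using h12))
    have j6 : Cl (2 * G) A1 (smo 0 1) := Cl.sm h12 (Sm.smo' (by simp; linarith))
    refine ⟨[[a, s1, s2, t], [-a, b, smo 1 0, s1, s2, t], [b, smo 0 1, s1, s2, t], [A, B, s1, s2, t]],
      by simp, ?_, ?_, ?_⟩
    · intro fs hfs
      simp only [List.mem_cons, List.not_mem_nil, or_false] at hfs
      rcases hfs with rfl | rfl | rfl | rfl <;> simp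
    · intro fs hfs f hf
      simp only [List.mem_cons, List.not_mem_nil, or_false] at hfs
      rcases hfs with rfl | rfl | rfl | rfl <;>
        simp only [List.mem_cons, List.not_mem_nil, or_false] at hf
      · rcases hf with rfl | rfl | rfl | rfl <;> assumption
      · rcases hf with rfl | rfl | rfl | rfl | rfl | rfl <;> assumption
      · rcases hf with rfl | rfl | rfl | rfl | rfl <;> assumption
      · rcases hf with rfl | rfl | rfl | rfl | rfl <;> assumption
    · intro n hn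
      have e1 : c = a * (s1 * s2 * t) + -a * (b * smo 1 0) * (s1 * s2 * t) + b * smo 0 1 * (s1 * s2 * t) +
          (cutG U aL * (cutG U aM * smo 1 0)) * (s1 * s2 * t) := by
        rw [hc, h]
        nth_rewrite 1 [vgh_identity U U]
        ring
      have e2 : ((cutG U aL * (cutG U aM * smo 1 0)) * (s1 * s2 * t)) n = ((A * B) * (s1 * s2 * t)) n := by
        rw [ArithmeticFunction.mul_apply, ArithmeticFunction.mul_apply]
        refine sum_congr rfl fun x hx => ?_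
        rw [Nat.mem_divisorsAntidiagonal] at hx
        have h1 : x.1 ≤ X := (Nat.le_of_dvd (by omega) ⟨x.2, hx.1.symm⟩).trans hn
        rw [vgh_tail hU hU h1]
      rw [e1, ArithmeticFunction.add_apply, e2, ← ArithmeticFunction.add_apply]
      simp only [List.map_cons, List.map_nil, List.sum_cons, List.sum_nil, List.prod_cons, List.prod_nil, add_zero]
      congr 1
      ring

theorem CORE {ε : ℝ} (hε : 0 < ε) (hε' : ε ≤ 1 / 4) : ∃ C T0 : ℝ, 0 ≤ C ∧ ∃ κ : ℕ, ∀ T : ℝ, T0 ≤ T → ∀ N0 d r Q : ℕ,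
    T ≤ N0 → (N0 : ℝ) ≤ 200 * T → 1 ≤ d → 1 ≤ r → 1 ≤ Q →
    (d : ℝ) * r * Q ≤ 2 * T ^ (1 / 2 - ε) → ∀ G : ℝ, 1 ≤ G → ∀ c : AF, Cc T ε G c →
    Er Q (N0 * r * Q) (cop r (dil d c)) ≤
      C * (G * (tau d * tau r)) ^ κ * Real.log T ^ κ * ((N0 : ℝ) * r * Q * √Q) * (1 / √Q + T ^ (-(ε / 4))) := by
  obtain ⟨C, hC, K, h⟩ := core_dr 6
  -- the threshold
  have hev : ∃ T0 : ℝ, 10 ≤ T0 ∧ ∀ T : ℝ, T0 ≤ T → 400 ≤ T ^ (ε / 4) ∧ 400 ≤ T ^ (1 / 2 - ε / 2) := by
    have h1 : Filter.Tendsto (fun T : ℝ => T ^ (ε / 4)) Filter.atTop Filter.atTop := tendsto_rpow_atTop (by positivity)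
    have h2 : Filter.Tendsto (fun T : ℝ => T ^ (1 / 2 - ε / 2)) Filter.atTop Filter.atTop :=
      tendsto_rpow_atTop (by linarith)
    obtain ⟨T1, hT1⟩ := (Filter.eventually_atTop.1 (h1.eventually_ge_atTop 400))
    obtain ⟨T2, hT2⟩ := (Filter.eventually_atTop.1 (h2.eventually_ge_atTop 400))
    exact ⟨max 10 (max T1 T2), le_max_left _ _, fun T hT => ⟨hT1 T ((le_max_left _ _).trans ((le_max_right _ _).trans hT)),
      hT2 T ((le_max_right _ _).trans ((le_max_right _ _).trans hT))⟩⟩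
  obtain ⟨T0, hT0, hT0'⟩ := hev
  refine ⟨4 * C * 4 ^ K * 6 ^ K * 20, T0, by positivity, 2 * K + 6, ?_⟩
  intro T hT N0 d r Q hN0 hN0' hd hr hQ hdrQ G hG c hc
  obtain ⟨hu400, hs400⟩ := hT0' T hT
  have hTp : 0 < T := by linarith
  have hT1 : 1 ≤ T := by linarith
  set u : ℝ := T ^ (ε / 4) with hu
  set s : ℝ := T ^ (1 / 2 : ℝ) with hs
  have hu0 : 0 < u := by positivity
  have hs0 : 0 < s := by positivity
  have s2 : s ^ 2 = T := by
    rw [hs, ← Real.rpow_natCast, ← Real.rpow_mul hTp.le]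
    norm_num
  have u2 : s / u ^ 2 = T ^ (1 / 2 - ε / 2) := by
    rw [hs, hu, ← Real.rpow_natCast, ← Real.rpow_mul hTp.le, ← Real.rpow_sub hTp]
    congr 1
    push_cast
    ring
  have u4 : s / u ^ 4 = T ^ (1 / 2 - ε) := by
    rw [hs, hu, ← Real.rpow_natCast, ← Real.rpow_mul hTp.le, ← Real.rpow_sub hTp]
    congr 1
    push_cast
    ring
  have u22 : s ^ 2 / u ^ 2 = T ^ (1 - ε / 2) := by
    rw [s2, hu, ← Real.rpow_natCast, ← Real.rpow_mul hTp.le]
    nth_rewrite 1 [← Real.rpow_one T]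
    rw [← Real.rpow_sub hTp]
    congr 1
    push_cast
    ring
  have u24 : s ^ 2 / u ^ 4 = T ^ (1 - ε) := by
    rw [s2, hu, ← Real.rpow_natCast, ← Real.rpow_mul hTp.le]
    nth_rewrite 1 [← Real.rpow_one T]
    rw [← Real.rpow_sub hTp]
    congr 1
    push_cast
    ring
  have uinv : T ^ (-(ε / 4)) = 1 / u := by
    rw [Real.rpow_neg hTp.le, one_div]
  set A0 : ℕ := ⌊s / u ^ 2⌋₊ with hA0
  set A1 : ℕ := ⌈s ^ 2 / u ^ 2⌉₊ with hA1
  set U : ℕ := ⌈s⌉₊ with hU
  have hsu2 : 400 ≤ s / u ^ 2 := by rw [u2]; exact hs400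
  have a0 : (A0 : ℝ) ≤ s / u ^ 2 := Nat.floor_le (by positivity)
  have a0' : s / u ^ 2 ≤ 2 * A0 := by
    have := Nat.lt_floor_add_one (s / u ^ 2)
    rw [← hA0] at this
    linarith
  have a1 : s ^ 2 / u ^ 2 ≤ A1 := Nat.le_ceil _
  have hu1 : 1 ≤ u := by linarith
  have hs1 : 400 ≤ s := by
    have : s / u ^ 2 ≤ s := div_le_self hs0.le (one_le_pow₀ hu1)
    linarith
  have hbig : 400 ≤ s ^ 2 / u ^ 2 := by
    have h1 : s / u ^ 2 ≤ s ^ 2 / u ^ 2 := by
      gcongr
      rw [pow_two]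
      exact le_mul_of_one_le_right hs0.le (by linarith)
    linarith
  have a1' : (A1 : ℝ) ≤ 2 * (s ^ 2 / u ^ 2) := by
    have := Nat.ceil_lt_add_one (a := s ^ 2 / u ^ 2) (by positivity)
    rw [← hA1] at this
    linarith
  have hA0one : 1 ≤ A0 := by
    have : (0 : ℝ) < A0 := by linarith
    exact_mod_cast this
  have hA01 : A0 ^ 2 ≤ A1 := by
    have h1 : ((A0 ^ 2 : ℕ) : ℝ) ≤ A1 := by
      push_cast
      calc (A0 : ℝ) ^ 2 ≤ (s / u ^ 2) ^ 2 := pow_le_pow_left₀ (by positivity) a0 2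
        _ = s ^ 2 / u ^ 4 := by rw [div_pow]; ring
        _ ≤ s ^ 2 / u ^ 2 := by
            gcongr
            norm_num
        _ ≤ A1 := a1
    exact_mod_cast h1
  have hN0R : (0 : ℝ) < N0 := hTp.trans_le hN0
  have hN0one : 1 ≤ N0 := by exact_mod_cast hN0R
  set N : ℕ := N0 * r * Q with hN
  have hNN0 : N0 ≤ N := by
    rw [hN, mul_assoc]
    exact Nat.le_mul_of_pos_right _ (Nat.mul_pos hr hQ)
  have hQN : Q ≤ N := by
    rw [hN]
    exact Nat.le_mul_of_pos_left _ (Nat.mul_pos hN0one hr)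
  have hN3 : 3 ≤ N := by
    have h1 : (3 : ℝ) ≤ N0 := by linarith
    have h2 : 3 ≤ N0 := by exact_mod_cast h1
    omega
  have hdR : (1 : ℝ) ≤ d := by exact_mod_cast hd
  have hrR : (1 : ℝ) ≤ r := by exact_mod_cast hr
  have hQR : (1 : ℝ) ≤ Q := by exact_mod_cast hQ
  have hrQ : (r : ℝ) * Q ≤ 2 * s / u ^ 4 := by
    rw [mul_div_assoc, u4]
    refine le_trans ?_ hdrQ
    rw [mul_assoc]
    exact le_mul_of_one_le_left (by positivity) hdR
  have hdX : ((d * N : ℕ) : ℝ) ≤ 400 * (s ^ 3 / u ^ 4) := by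
    rw [hN]
    push_cast
    have h1 : (d : ℝ) * r * Q ≤ 2 * (s / u ^ 4) := by rw [u4]; exact hdrQ
    calc (d : ℝ) * (N0 * r * Q) = N0 * (d * r * Q) := by ring
      _ ≤ (200 * T) * (2 * (s / u ^ 4)) := by
          have : 0 ≤ s / u ^ 4 := by positivity
          gcongr
      _ = _ := by rw [← s2]; ring
  have hU1 : 1 ≤ U := by
    have : (0 : ℝ) < U := hs0.trans_le (Nat.le_ceil s)
    exact_mod_cast this
  have hUA : U ≤ A1 := by
    have h1 : (U : ℝ) ≤ s + 1 := (Nat.ceil_lt_add_one hs0.le).le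
    have h2 : s + 1 ≤ s ^ 2 / u ^ 2 := by
      have h3 : s * 400 ≤ s * (s / u ^ 2) := by gcongr
      have h4 : s * (s / u ^ 2) = s ^ 2 / u ^ 2 := by ring
      rw [← h4]
      linarith
    have h3 : (U : ℝ) ≤ A1 := h1.trans (h2.trans a1)
    exact_mod_cast h3
  have hXU : d * N / U ≤ A1 := by
    have h1 : ((d * N / U : ℕ) : ℝ) ≤ A1 := by
      have hUR : s ≤ U := Nat.le_ceil s
      calc ((d * N / U : ℕ) : ℝ) ≤ ((d * N : ℕ) : ℝ) / U := Nat.cast_div_le
        _ ≤ (400 * (s ^ 3 / u ^ 4)) / s := by gcongr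
        _ = 400 * (s ^ 2 / u ^ 4) := by field_simp
        _ ≤ u * (s ^ 2 / u ^ 4) := by gcongr
        _ = s ^ 2 / u ^ 3 := by field_simp
        _ ≤ s ^ 2 / u ^ 2 := by
            gcongr
            norm_num
        _ ≤ A1 := a1
    exact_mod_cast h1
  have hA1c : T ^ (1 - ε) ≤ A1 := by
    rw [← u24]
    refine le_trans ?_ a1
    gcongr
    norm_num
  obtain ⟨S, hS1, hS2, hS3, hS4⟩ := Cc_lists hG hc hA1c hU1 hUA hXU (hU1.trans hUA)
  have e1 : Er Q N (cop r (dil d c)) = Er Q N (cop r (dil d (S.map List.prod).sum)) := by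
    refine Er_congr (fun n _ hn => ?_) Q
    rw [cop_apply, cop_apply, dil_apply, dil_apply, hS4 (d * n) (Nat.mul_le_mul_left d hn)]
  rw [e1, dil_listSum, cop_listSum, List.map_map, List.map_map]
  refine (Er_listSum_le Q N _).trans ?_
  rw [List.map_map]
  have hld := log_nn d
  have hlN := log_nn N
  have htd := one_le_tau hd
  have htr := one_le_tau hr
  have hBD := bd_num hu1 hs0 hr hQ hrQ (by rw [s2]; exact hN0) a0 a0' a1 a1'
  rw [← hN] at hBD
  have hlT : 0 ≤ Real.log T := Real.log_nonneg hT1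
  have hlT1 : 1 ≤ Real.log T := by
    rw [Real.le_log_iff_exp_le hTp]
    linarith [Real.exp_one_lt_d9]
  -- log d ≤ log T
  have hdT : (d : ℝ) ≤ T := by
    have h1 : (d : ℝ) ≤ 2 * T ^ (1 / 2 - ε) := by
      refine le_trans ?_ hdrQ
      rw [mul_assoc]
      exact le_mul_of_one_le_right (by linarith) (one_le_mul_of_one_le_of_one_le hrR hQR)
    rw [← u4] at h1
    have h2 : s / u ^ 4 ≤ s := div_le_self hs0.le (one_le_pow₀ hu1)
    have h3 : 2 * s ≤ T := by
      rw [← s2, pow_two]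
      exact mul_le_mul_of_nonneg_right (by linarith) hs0.le
    linarith
  have b1 : 1 + Real.log d ≤ 2 * Real.log T := by
    have : Real.log d ≤ Real.log T := Real.log_le_log (by linarith) hdT
    linarith
  have b2 : Real.log N ≤ 6 * Real.log T := by
    have h1 : (N : ℝ) ≤ T ^ (6 : ℕ) := by
      have h2 : (N : ℝ) ≤ ((d * N : ℕ) : ℝ) := by
        exact_mod_cast Nat.le_mul_of_pos_left N hd
      refine h2.trans (hdX.trans ?_)
      calc 400 * (s ^ 3 / u ^ 4) ≤ s * s ^ 3 := by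
            have : s ^ 3 / u ^ 4 ≤ s ^ 3 := div_le_self (by positivity) (one_le_pow₀ hu1)
            gcongr
        _ = T ^ 2 := by rw [← s2]; ring
        _ ≤ T ^ 6 := pow_le_pow_right₀ hT1 (by norm_num)
    have h3 : Real.log N ≤ Real.log (T ^ (6 : ℕ)) := Real.log_le_log (by exact_mod_cast (by omega : 0 < N)) h1
    rw [Real.log_pow] at h3
    exact_mod_cast h3
  have h1 : ∀ fs ∈ S, (Er Q N ∘ (cop r ∘ dil d ∘ List.prod)) fs ≤
      C * 4 ^ K * 6 ^ K * (G * (tau d * tau r)) ^ (2 * K + 6) * Real.log T ^ (2 * K + 6) *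
        (20 * ((N0 : ℝ) * r * Q * √Q) * (1 / √Q + 1 / u)) := by
    intro fs hfs
    simp only [Function.comp_apply]
    refine (h N Q A0 A1 d r fs hN3 hQN hA0one hA01 hd hr (hS2 fs hfs) (2 * G) (by linarith) (hS3 fs hfs)).trans ?_
    have c1 : (2 * G * (1 + Real.log d) * tau d * tau r) ^ K ≤ (4 * Real.log T * (G * (tau d * tau r))) ^ K := by
      refine pow_le_pow_left₀ (by positivity) ?_ K
      calc 2 * G * (1 + Real.log d) * tau d * tau r = 2 * G * (tau d * tau r) * (1 + Real.log d) := by ring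
        _ ≤ 2 * G * (tau d * tau r) * (2 * Real.log T) := by gcongr
        _ = _ := by ring
    have hGt : 1 ≤ G * (tau d * tau r) :=
      one_le_mul_of_one_le_of_one_le hG (one_le_mul_of_one_le_of_one_le htd htr)
    have c2 : tau d ^ 6 ≤ (G * (tau d * tau r)) ^ 6 := by
      refine pow_le_pow_left₀ (by positivity) ?_ 6
      have a1 : tau d ≤ tau d * tau r := le_mul_of_one_le_right (by linarith) htr
      have a2 : tau d * tau r ≤ G * (tau d * tau r) := le_mul_of_one_le_left (by positivity) hG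
      exact a1.trans a2
    have c3 : Real.log N ^ K ≤ (6 * Real.log T) ^ K := pow_le_pow_left₀ hlN b2 K
    have c4 : (G * (tau d * tau r)) ^ (K + 6) ≤ (G * (tau d * tau r)) ^ (2 * K + 6) :=
      pow_le_pow_right₀ hGt (by omega)
    have c5 : Real.log T ^ (2 * K) ≤ Real.log T ^ (2 * K + 6) := pow_le_pow_right₀ hlT1 (by omega)
    have hBD0 := BD_nonneg N Q A0 A1
    have hRHS : 0 ≤ 20 * ((N0 : ℝ) * r * Q * √Q) * (1 / √Q + 1 / u) := by positivity
    calc C * (2 * G * (1 + Real.log d) * tau d * tau r) ^ K * tau d ^ 6 * Real.log N ^ K * BD N Q A0 A1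
        ≤ C * (4 * Real.log T * (G * (tau d * tau r))) ^ K * (G * (tau d * tau r)) ^ 6 * (6 * Real.log T) ^ K *
          (20 * ((N0 : ℝ) * r * Q * √Q) * (1 / √Q + 1 / u)) := by gcongr
      _ = C * 4 ^ K * 6 ^ K * ((G * (tau d * tau r)) ^ (K + 6)) * (Real.log T ^ (2 * K)) *
          (20 * ((N0 : ℝ) * r * Q * √Q) * (1 / √Q + 1 / u)) := by
          rw [mul_pow (4 * Real.log T), mul_pow 4, mul_pow 6, pow_add, two_mul, pow_add]
          ring
      _ ≤ _ := by gcongr
  refine (list_sum_le_card S _ h1).trans ?_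
  rw [uinv]
  have h5 : (S.length : ℝ) ≤ 4 := by exact_mod_cast hS1
  have hRHS : 0 ≤ C * 4 ^ K * 6 ^ K * (G * (tau d * tau r)) ^ (2 * K + 6) * Real.log T ^ (2 * K + 6) *
        (20 * ((N0 : ℝ) * r * Q * √Q) * (1 / √Q + 1 / u)) := by positivity
  calc (S.length : ℝ) * (C * 4 ^ K * 6 ^ K * (G * (tau d * tau r)) ^ (2 * K + 6) * Real.log T ^ (2 * K + 6) *
        (20 * ((N0 : ℝ) * r * Q * √Q) * (1 / √Q + 1 / u)))
      ≤ 4 * (C * 4 ^ K * 6 ^ K * (G * (tau d * tau r)) ^ (2 * K + 6) * Real.log T ^ (2 * K + 6) *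
        (20 * ((N0 : ℝ) * r * Q * √Q) * (1 / √Q + 1 / u))) := mul_le_mul_of_nonneg_right h5 hRHS
    _ = _ := by ring

end SZE
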