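import Pool.Agent.H91.SZE.Sml

/-!
# SML: small conductors (proved in `Sml.lean`)
-/
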