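import Pool.Agent.H91.SZE.Fin1
import Pool.Agent.H91.SZE.Core
import Pool.Agent.H91.SZE.SmlS

/-!
# FIN: the error terms (Theorem E), from CORE (large conductors) and SML (small conductors)
-/

open Finset H69LB BVL

namespace SZE

theorem card_pc_le {q : ℕ} (hq : 1 ≤ q) : (pc q).card ≤ q := by
  classical
  have : NeZero q := ⟨by omega⟩
  calc (pc q).card ≤ (univ : Finset (DirichletCharacter ℂ q)).card := Finset.card_le_card (Finset.subset_univ _)
    _ = Nat.totient q := by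
        rw [Finset.card_univ, ← Nat.card_eq_fintype_card]
        exact DirichletCharacter.card_eq_totient_of_hasEnoughRootsOfUnity ℂ q
    _ ≤ q := Nat.totient_le q

/-- the small moduli -/
theorem fin_small {d r N0 K : ℕ} {f : AF} {D l : ℝ} (hD : 0 ≤ D) (hl : 0 ≤ l)
    (hsml : ∀ q : ℕ, 2 ≤ q → d * r * q ≤ K → (q : ℝ) ≤ l → ∀ ψ ∈ pc q, MX f ψ (N0 * r * q) ≤ D * q) :
    ∑ q ∈ ((Icc 2 K).filter (fun q => d * r * q ≤ K)).filter (fun q : ℕ => ¬ l < q),
        (1 / (√(q : ℝ) * Nat.totient q)) * ∑ ψ ∈ pc q, MX f ψ (N0 * r * q) ≤ D * l ^ 3 := by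
  classical
  set S := ((Icc 2 K).filter (fun q => d * r * q ≤ K)).filter (fun q : ℕ => ¬ l < q) with hS
  have hmem : ∀ q ∈ S, 2 ≤ q ∧ d * r * q ≤ K ∧ (q : ℝ) ≤ l := by
    intro q hq
    simp only [hS, mem_filter, mem_Icc, not_lt] at hq
    exact ⟨hq.1.1.1, hq.1.2, hq.2⟩
  have hcard : (S.card : ℝ) ≤ l := by
    have h1 : S ⊆ Icc 1 ⌊l⌋₊ := by
      intro q hq
      obtain ⟨h1, _, h3⟩ := hmem q hq
      exact mem_Icc.2 ⟨by omega, Nat.le_floor h3⟩
    have h2 := Finset.card_le_card h1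
    rw [Nat.card_Icc, Nat.add_sub_cancel] at h2
    calc (S.card : ℝ) ≤ (⌊l⌋₊ : ℝ) := by exact_mod_cast h2
      _ ≤ l := Nat.floor_le hl
  calc ∑ q ∈ S, (1 / (√(q : ℝ) * Nat.totient q)) * ∑ ψ ∈ pc q, MX f ψ (N0 * r * q)
      ≤ ∑ _q ∈ S, D * l ^ 2 := by
        refine sum_le_sum fun q hq => ?_
        obtain ⟨h1, h2, h3⟩ := hmem q hq
        have hq1 : (1 : ℝ) ≤ q := by exact_mod_cast (by omega : 1 ≤ q)
        have hph : (1 : ℝ) ≤ Nat.totient q := by exact_mod_cast Nat.totient_pos.2 (by omega)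
        have hsq : 1 ≤ √(q : ℝ) := by
          rw [show (1 : ℝ) = √1 by simp]
          exact Real.sqrt_le_sqrt hq1
        have h4 : 1 / (√(q : ℝ) * Nat.totient q) ≤ 1 := by
          rw [div_le_one (by positivity)]
          nlinarith
        calc (1 / (√(q : ℝ) * Nat.totient q)) * ∑ ψ ∈ pc q, MX f ψ (N0 * r * q)
            ≤ 1 * ∑ ψ ∈ pc q, MX f ψ (N0 * r * q) :=
              mul_le_mul_of_nonneg_right h4 (sum_nonneg fun _ _ => MX_nonneg _ _ _)
          _ ≤ ∑ _ψ ∈ pc q, D * q := by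
              rw [one_mul]
              exact sum_le_sum fun ψ hψ => hsml q h1 h2 h3 ψ hψ
          _ = (pc q).card * (D * q) := by rw [Finset.sum_const, nsmul_eq_mul]
          _ ≤ q * (D * q) := by
              refine mul_le_mul_of_nonneg_right ?_ (by positivity)
              exact_mod_cast card_pc_le (by omega)
          _ = D * (q : ℝ) ^ 2 := by ring
          _ ≤ D * l ^ 2 := by gcongr
    _ = S.card * (D * l ^ 2) := by rw [Finset.sum_const, nsmul_eq_mul]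
    _ ≤ l * (D * l ^ 2) := mul_le_mul_of_nonneg_right hcard (by positivity)
    _ = _ := by ring

/-- `T^(-δ) ≤ (log T)^(-b)` for large `T` -/
theorem ev_rpow_log {δ : ℝ} (hδ : 0 < δ) (b : ℕ) : ∃ T0 : ℝ, ∀ T : ℝ, T0 ≤ T → T ^ (-δ) ≤ 1 / Real.log T ^ b := by
  have h := (isLittleO_log_rpow_rpow_atTop (b : ℝ) hδ).bound (zero_lt_one)
  obtain ⟨T0, hT0⟩ := Filter.eventually_atTop.1 h
  refine ⟨max T0 3, fun T hT => ?_⟩
  have h1 := hT0 T ((le_max_left _ _).trans hT)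
  have hT3 : 3 ≤ T := (le_max_right _ _).trans hT
  have hT : 0 < T := by linarith
  have hL : 0 < Real.log T := Real.log_pos (by linarith)
  rw [one_mul, Real.norm_of_nonneg (Real.rpow_nonneg hL.le _), Real.norm_of_nonneg (Real.rpow_nonneg hT.le _),
    Real.rpow_natCast] at h1
  rw [Real.rpow_neg hT.le, ← one_div]
  exact one_div_le_one_div_of_le (pow_pos hL b) h1

theorem clog_le {T : ℝ} {K : ℕ} (hK : 1 ≤ K) (hT : (K : ℝ) ≤ T) (hL : 1 ≤ Real.log T) :
    (Nat.clog 2 K : ℝ) + 1 ≤ 4 * Real.log T := by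
  have hl2 : (1 / 2 : ℝ) ≤ Real.log 2 := by have := Real.log_two_gt_d9; linarith
  have hK0 : (0 : ℝ) < K := by exact_mod_cast hK
  rcases Nat.lt_or_ge 1 K with h1 | h1
  · have h6 := Nat.pow_pred_clog_lt_self (b := 2) (by norm_num) (x := K) h1
    have h7 : 0 < Nat.clog 2 K := Nat.clog_pos (by norm_num) h1
    obtain ⟨m, hm⟩ : ∃ m, Nat.clog 2 K = m + 1 := ⟨Nat.clog 2 K - 1, by omega⟩
    rw [hm] at h6 ⊢
    rw [Nat.pred_succ] at h6
    have h8 : (2 : ℝ) ^ m ≤ T := by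
      have : (2 ^ m : ℝ) ≤ K := by exact_mod_cast h6.le
      exact this.trans hT
    have h9 : m * Real.log 2 ≤ Real.log T := by
      have := Real.log_le_log (by positivity) h8
      rwa [Real.log_pow] at this
    have h10 : (m : ℝ) ≤ 2 * Real.log T := by
      have hm0 : (0 : ℝ) ≤ m := Nat.cast_nonneg _
      nlinarith
    push_cast
    linarith
  · rw [Nat.clog_of_right_le_one h1]
    push_cast
    linarith

theorem thmE {ε : ℝ} (hε : 0 < ε) (hε' : ε ≤ 1 / 4) : ∃ κ : ℕ, ∀ A : ℕ, ∃ C T0 : ℝ, 0 ≤ C ∧ ∀ T : ℝ, T0 ≤ T →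
    ∀ N0 K : ℕ, T ≤ N0 → (N0 : ℝ) ≤ 200 * T → (K : ℝ) ≤ T ^ (1 / 2 - ε) →
    ∀ (x : ℕ → ℂ) (X : ℝ), (∀ k, ‖x k‖ ≤ X) → ∀ (w : ℝ → ℂ) (V : ℝ), BVw V w N0 → ∀ G : ℝ, 1 ≤ G → ∀ c : AF, Cc T ε G c →
    ‖∑ k ∈ (Icc 1 K).filter Squarefree, x k / k *
        ∑ n ∈ Icc 1 (N0 * k), c n * w ((n : ℝ) / k) * edif k n‖ ≤ C * G ^ κ * X * V * (T / Real.log T ^ A) := by
  classical
  obtain ⟨C1, T1, hC1, κ1, hcore⟩ := CORE hε hε'
  obtain ⟨κ2, hsml⟩ := SML hε hε'
  set κ := max κ1 κ2 with hκ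
  refine ⟨κ, fun A => ?_⟩
  set e := 2 ^ κ + 2 ^ κ + 1 with he
  set B' := A + κ + 2 + e with hB'
  obtain ⟨C2, T2, hC2, hsml⟩ := hsml (3 * (2 * B') + A + e) (2 * B')
  obtain ⟨T3, hT3⟩ := ev_rpow_log (δ := ε / 4) (by linarith) B'
  refine ⟨400 * 2 ^ e * (C2 + 200 * C1), max (max T1 T2) (max T3 3), by positivity, ?_⟩
  intro T hT N0 K hN1 hN2 hK x X hx w V hw G hG c hc
  have hT1 : T1 ≤ T := ((le_max_left _ _).trans (le_max_left _ _)).trans hT
  have hT2 : T2 ≤ T := ((le_max_right _ _).trans (le_max_left _ _)).trans hT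
  have hT3' : T3 ≤ T := ((le_max_left _ _).trans (le_max_right _ _)).trans hT
  have hT3'' : 3 ≤ T := ((le_max_right _ _).trans (le_max_right _ _)).trans hT
  have hT0 : 0 < T := by linarith
  set L := Real.log T with hL
  have hL1 : 1 ≤ L := by
    rw [hL, Real.le_log_iff_exp_le hT0]
    have := Real.exp_one_lt_d9
    linarith
  have hL0 : 0 < L := by linarith
  have hX : 0 ≤ X := (norm_nonneg _).trans (hx 0)
  have hV : 0 ≤ V := by
    have := hw 1 le_rfl
    exact (add_nonneg (norm_nonneg _) (sum_nonneg fun _ _ => norm_nonneg _)).trans this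
  have hN0 : 1 ≤ N0 := by
    have : (0 : ℝ) < N0 := by linarith
    exact_mod_cast this
  rcases Nat.eq_zero_or_pos K with hK0 | hK0
  · subst hK0
    simp only [Finset.Icc_eq_empty_of_lt (by norm_num : (0 : ℕ) < 1), Finset.filter_empty, Finset.sum_empty, norm_zero]
    positivity
  have hKT : (K : ℝ) ≤ T := by
    refine hK.trans ?_
    calc T ^ (1 / 2 - ε) ≤ T ^ (1 : ℝ) := Real.rpow_le_rpow_of_exponent_le (by linarith) (by linarith)
      _ = T := Real.rpow_one T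
  have hK1 : (1 : ℝ) ≤ K := by exact_mod_cast hK0
  have hlK : Real.log K ≤ L := Real.log_le_log (by linarith) hKT
  have hlK0 : 0 ≤ Real.log K := Real.log_nonneg hK1
  have hl2K : Real.log (2 * K) ≤ 2 * L := by
    rw [Real.log_mul (by norm_num) (by linarith)]
    have := Real.log_two_lt_d9
    linarith
  refine (co_bound hN0 hx hw c).trans ?_
  have hGk : 0 ≤ G ^ κ := by positivity
  set Y : ℝ := N0 * (G ^ κ * (C2 + 200 * C1)) / L ^ (A + e) with hY
  have hY0 : 0 ≤ Y := by positivity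
  have hmain := fin_outer κ K (I := fun d r => ∑ q ∈ (Icc 2 K).filter (fun q => d * r * q ≤ K),
    (1 / (√(q : ℝ) * Nat.totient q)) * ∑ ψ ∈ pc q, MX (cop r (dil d c)) ψ (N0 * r * q)) hY0 ?_
  · calc X * V * ∑ d ∈ (Icc 1 K).filter Squarefree, ∑ r ∈ Icc 1 K, ∑ q ∈ (Icc 2 K).filter (fun q => d * r * q ≤ K),
          1 / ((d : ℝ) * (r * Nat.totient r)) * (1 / (√q * Nat.totient q)) *
            ∑ ψ ∈ pc q, MX (cop r (dil d c)) ψ (N0 * r * q)
        = X * V * ∑ d ∈ (Icc 1 K).filter Squarefree, ∑ r ∈ Icc 1 K, 1 / ((d : ℝ) * (r * Nat.totient r)) *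
            ∑ q ∈ (Icc 2 K).filter (fun q => d * r * q ≤ K), (1 / (√(q : ℝ) * Nat.totient q)) *
              ∑ ψ ∈ pc q, MX (cop r (dil d c)) ψ (N0 * r * q) := by
          congr 1
          refine sum_congr rfl fun d _ => sum_congr rfl fun r _ => ?_
          rw [Finset.mul_sum]
          refine sum_congr rfl fun q _ => ?_
          ring
      _ ≤ X * V * (Y * (2 * (1 + Real.log K) ^ e)) := mul_le_mul_of_nonneg_left hmain (mul_nonneg hX hV)
      _ ≤ X * V * (Y * (2 * (2 * L) ^ e)) := by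
          gcongr
          linarith
      _ = X * V * ((N0 : ℝ) * (2 * 2 ^ e * (G ^ κ * (C2 + 200 * C1))) / L ^ A) := by
          rw [hY, mul_pow, pow_add]
          field_simp
      _ ≤ X * V * ((200 * T) * (2 * 2 ^ e * (G ^ κ * (C2 + 200 * C1))) / L ^ A) := by
          gcongr
      _ = _ := by ring
  · intro d r hd hr hdK hrK hsq
    have htd : 1 ≤ tau d := one_le_tau hd
    have htr : 1 ≤ tau r := one_le_tau hr
    have htt : 1 ≤ tau d * tau r := by nlinarith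
    have hGtt : 1 ≤ G * (tau d * tau r) := by nlinarith
    have htk : 0 ≤ (G * (tau d * tau r)) ^ κ := by positivity
    have hr0 : (0 : ℝ) < r := by exact_mod_cast hr
    -- small
    have hs := fin_small (d := d) (r := r) (N0 := N0) (K := K) (f := cop r (dil d c))
      (D := C2 * (G * (tau d * tau r)) ^ κ * ((N0 : ℝ) * r / L ^ (3 * (2 * B') + A + e))) (l := L ^ (2 * B'))
      (by positivity) (by positivity) (fun q hq hdq hql ψ hψ => by
        have h1 := hsml T hT2 N0 d r q hN1 hN2 hd hr (by omega) hsq (by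
          refine le_trans ?_ hK
          exact_mod_cast hdq) hql ψ hψ G hG c hc
        refine h1.trans ?_
        have h2 : (G * (tau d * tau r)) ^ κ2 ≤ (G * (tau d * tau r)) ^ κ := pow_le_pow_right₀ hGtt (le_max_right _ _)
        calc C2 * (G * (tau d * tau r)) ^ κ2 * (((N0 : ℝ) * r * q) / L ^ (3 * (2 * B') + A + e))
            ≤ C2 * (G * (tau d * tau r)) ^ κ * (((N0 : ℝ) * r * q) / L ^ (3 * (2 * B') + A + e)) := by gcongr
          _ = _ := by ring)
    -- large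
    have hl := fin_large (d := d) (r := r) (N0 := N0) (K := K) (f := cop r (dil d c))
      (D := C1 * (G * (tau d * tau r)) ^ κ * L ^ κ) (η := T ^ (-(ε / 4))) (lb := L ^ B') hK0 hr hd
      (by positivity) (Real.rpow_nonneg hT0.le _) (by positivity) (fun Q hQ hdQ => by
        have h1 := hcore T hT1 N0 d r Q hN1 hN2 hd hr hQ (hdQ.trans (by linarith)) G hG c hc
        refine h1.trans ?_
        have h2 : (G * (tau d * tau r)) ^ κ1 ≤ (G * (tau d * tau r)) ^ κ := pow_le_pow_right₀ hGtt (le_max_left _ _)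
        have h3 : L ^ κ1 ≤ L ^ κ := pow_le_pow_right₀ hL1 (le_max_left _ _)
        have h4 : 0 ≤ T ^ (-(ε / 4)) := Real.rpow_nonneg hT0.le _
        gcongr)
    have hpow : (L ^ B') ^ 2 = L ^ (2 * B') := by rw [← pow_mul, mul_comm]
    rw [hpow] at hl
    show ∑ q ∈ (Icc 2 K).filter (fun q => d * r * q ≤ K),
      (1 / (√(q : ℝ) * Nat.totient q)) * ∑ ψ ∈ pc q, MX (cop r (dil d c)) ψ (N0 * r * q) ≤ _
    rw [← Finset.sum_filter_add_sum_filter_not ((Icc 2 K).filter (fun q => d * r * q ≤ K)) (fun q : ℕ => L ^ (2 * B') < q)]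
    refine (add_le_add hl hs).trans ?_
    have hη : T ^ (-(ε / 4)) ≤ 1 / L ^ B' := hT3 T hT3'
    have hc1 := clog_le hK0 hKT hL1
    have e1 : (Nat.clog 2 K + 1) * (6 * (1 + Real.log (2 * K)) * (C1 * (G * (tau d * tau r)) ^ κ * L ^ κ) * (N0 * r) *
        (1 / L ^ B' + T ^ (-(ε / 4))))
        ≤ (4 * L) * (6 * (1 * L + 2 * L) * (C1 * (G * (tau d * tau r)) ^ κ * L ^ κ) * (N0 * r) * (1 / L ^ B' + 1 / L ^ B')) := by
      have hTe : 0 ≤ T ^ (-(ε / 4)) := Real.rpow_nonneg hT0.le _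
      have hl2K0 : 0 ≤ Real.log (2 * K) := Real.log_nonneg (by linarith)
      have hN00 : (0 : ℝ) ≤ N0 := Nat.cast_nonneg _
      have g1 : 6 * (1 + Real.log (2 * K)) * (C1 * (G * (tau d * tau r)) ^ κ * L ^ κ) * (N0 * r) * (1 / L ^ B' + T ^ (-(ε / 4)))
          ≤ 6 * (1 * L + 2 * L) * (C1 * (G * (tau d * tau r)) ^ κ * L ^ κ) * (N0 * r) * (1 / L ^ B' + 1 / L ^ B') := by
        have g2 : 1 + Real.log (2 * K) ≤ 1 * L + 2 * L := by linarith
        gcongr
      exact mul_le_mul hc1 g1 (by positivity) (by positivity)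
    have e2 : (4 * L) * (6 * (1 * L + 2 * L) * (C1 * (G * (tau d * tau r)) ^ κ * L ^ κ) * (N0 * r) * (1 / L ^ B' + 1 / L ^ B'))
        = (tau d * tau r) ^ κ * r * (N0 * (G ^ κ * (144 * C1)) / L ^ (A + e)) := by
      have : L ^ B' = L ^ (A + e) * (L ^ κ * L ^ 2) := by
        rw [hB']; ring
      rw [this, mul_pow G]
      field_simp
      ring
    have e3 : C2 * (G * (tau d * tau r)) ^ κ * ((N0 : ℝ) * r / L ^ (3 * (2 * B') + A + e)) * (L ^ (2 * B')) ^ 3
        = (tau d * tau r) ^ κ * r * (N0 * (G ^ κ * C2) / L ^ (A + e)) := by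
      have h5 : (L ^ (2 * B')) ^ 3 = L ^ (3 * (2 * B')) := by rw [← pow_mul, mul_comm]
      have h6 : L ^ (3 * (2 * B') + A + e) = L ^ (3 * (2 * B')) * L ^ (A + e) := by rw [← pow_add]; congr 1; ring
      rw [h5, h6, mul_pow G]
      field_simp
    have e4 : (tau d * tau r) ^ κ * r * (N0 * (G ^ κ * (144 * C1)) / L ^ (A + e)) +
        (tau d * tau r) ^ κ * r * (N0 * (G ^ κ * C2) / L ^ (A + e)) ≤ (tau d * tau r) ^ κ * r * Y := by
      rw [← mul_add, hY]
      refine mul_le_mul_of_nonneg_left ?_ (by positivity)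
      rw [← add_div]
      refine div_le_div_of_nonneg_right ?_ (by positivity)
      have h7 : (0 : ℝ) ≤ N0 := Nat.cast_nonneg _
      have h8 : 0 ≤ (N0 : ℝ) * (G ^ κ * C1) := by positivity
      linarith [h8, mul_add (N0 : ℝ) (G ^ κ * C2) (G ^ κ * C1)]
    calc _ ≤ (4 * L) * (6 * (1 * L + 2 * L) * (C1 * (G * (tau d * tau r)) ^ κ * L ^ κ) * (N0 * r) * (1 / L ^ B' + 1 / L ^ B')) +
          C2 * (G * (tau d * tau r)) ^ κ * ((N0 : ℝ) * r / L ^ (3 * (2 * B') + A + e)) * (L ^ (2 * B')) ^ 3 := add_le_add e1 le_rfl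
      _ ≤ _ := by rw [e2, e3]; exact e4

end SZE
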