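import Pool.Agent.H91.SZE.Coe
import Pool.Agent.H17.BV.T2b

/-!
# BIL: the bilinear large sieve with the maximum over the cut, general coefficients
-/

open Finset H69LB BVL MeasureTheory

namespace SZE

/-- the large sieve for a sum over `(M1, 2 M1]` -/
theorem bil_lsA (Q M1 : ℕ) (c : ℕ → ℂ) :
    ∑ p ∈ (Icc 1 Q).sigma (fun q => pc q), ‖∑ m ∈ Ioc M1 (2 * M1), c m * p.2 m‖ ^ 2 ≤
      ((Q : ℝ) ^ 2 + 26 * M1) * ∑ m ∈ Ioc M1 (2 * M1), ‖c m‖ ^ 2 := by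
  have hsub : Ioc M1 (2 * M1) ⊆ Icc 1 (2 * M1) := by
    intro m hm
    rw [mem_Ioc] at hm
    rw [mem_Icc]
    omega
  have h1 : ∀ (q : ℕ) (χ : DirichletCharacter ℂ q), ∑ m ∈ Ioc M1 (2 * M1), c m * χ m =
      ∑ m ∈ Icc 1 (2 * M1), (if m ∈ Ioc M1 (2 * M1) then c m else 0) * χ m := by
    intro q χ
    rw [← sum_subset hsub (f := fun m => (if m ∈ Ioc M1 (2 * M1) then c m else 0) * χ m)]
    · refine sum_congr rfl fun m hm => ?_
      rw [if_pos hm]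
    · intro m _ hm
      rw [if_neg hm, zero_mul]
  rw [sum_sigma]
  have h2 : ∑ q ∈ Icc 1 Q, ∑ χ ∈ pc q, ‖∑ m ∈ Ioc M1 (2 * M1), c m * χ m‖ ^ 2 =
      ∑ q ∈ Icc 1 Q, ∑ χ ∈ pc q, ‖∑ m ∈ Icc 1 (2 * M1),
        (if m ∈ Ioc M1 (2 * M1) then c m else 0) * χ m‖ ^ 2 :=
    sum_congr rfl fun q _ => sum_congr rfl fun χ _ => by rw [h1]
  refine (le_of_eq h2).trans ((LSM Q (2 * M1) _).trans ?_)
  have h3 : ∑ n ∈ Icc 1 (2 * M1), ‖(if n ∈ Ioc M1 (2 * M1) then c n else 0)‖ ^ 2 =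
      ∑ m ∈ Ioc M1 (2 * M1), ‖c m‖ ^ 2 := by
    rw [← sum_subset hsub (f := fun m => ‖(if m ∈ Ioc M1 (2 * M1) then c m else 0)‖ ^ 2)]
    · refine sum_congr rfl fun m hm => ?_
      rw [if_pos hm]
    · intro m _ hm
      rw [if_neg hm, norm_zero]
      norm_num
  rw [h3]
  refine le_of_eq ?_
  push_cast
  ring

/-- one dyadic block -/
theorem bil_block : ∃ C : ℝ, 0 ≤ C ∧ ∀ N Q M1 : ℕ, 2 ≤ N → 1 ≤ M1 → M1 ≤ N → ∀ (a b : ℕ → ℂ) (SA SB : ℝ),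
    ∑ m ∈ Ioc M1 (2 * M1), ‖a m‖ ^ 2 ≤ SA → ∑ k ∈ Icc 1 (N / M1), ‖b k‖ ^ 2 ≤ SB →
    ∑ q ∈ Icc 1 Q, ∑ χ ∈ pc q, mx N (fun y => ‖∑ m ∈ Ioc M1 (2 * M1), ∑ k ∈ Icc 1 (y / m), a m * b k * χ ((m * k : ℕ) : ZMod q)‖)
      ≤ C * Real.log N * (√(((Q : ℝ) ^ 2 + 26 * M1) * SA) * √(((Q : ℝ) ^ 2 + 13 * ((N / M1 : ℕ) : ℝ)) * SB)) := by
  obtain ⟨C0, hC0, hsepy⟩ := sepy
  refine ⟨2 * C0, by positivity, ?_⟩
  intro N Q M1 hN hM1 hM1N a b SA SB hSA hSB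
  obtain ⟨κ, hκ, hκi, hκC, hy⟩ := hsepy (2 * N) (by omega)
  have hMK : M1 * (N / M1) ≤ N := Nat.mul_div_le _ _
  have hNr : (2 : ℝ) ≤ N := by exact_mod_cast hN
  have hlam : Real.log 2 ≤ Real.log N := Real.log_le_log (by norm_num) hNr
  have hL : Real.log (2 * N) = Real.log 2 + Real.log N :=
    Real.log_mul (by norm_num) (by positivity)
  have hL2 : Real.log (2 * N) ≤ 2 * Real.log N := by rw [hL]; linarith
  set G : (Σ q : ℕ, DirichletCharacter ℂ q) → ℝ → ℂ := fun p ξ =>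
    ∑ m ∈ Ioc M1 (2 * M1), a m * ee (ξ * Real.log m) * p.2 m with hG
  set H : (Σ q : ℕ, DirichletCharacter ℂ q) → ℝ → ℂ := fun p ξ =>
    ∑ k ∈ Icc 1 (N / M1), b k * ee (ξ * Real.log k) * p.2 k with hH
  have hcont : ∀ t : ℝ, Continuous fun ξ : ℝ => ee (ξ * t) := fun t =>
    t2b_ee_cont.comp (continuous_id.mul continuous_const)
  have hSI : ∀ m ∈ Ioc M1 (2 * M1), 1 ≤ m := fun m hm => by rw [mem_Ioc] at hm; omega
  have hTI : ∀ k ∈ Icc 1 (N / M1), 1 ≤ k := fun k hk => (mem_Icc.mp hk).1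
  have hsig : ∑ q ∈ Icc 1 Q, ∑ χ ∈ pc q, mx N (fun y => ‖∑ m ∈ Ioc M1 (2 * M1),
        ∑ k ∈ Icc 1 (y / m), a m * b k * χ ((m * k : ℕ) : ZMod q)‖) =
      ∑ p ∈ (Icc 1 Q).sigma (fun q => pc q), mx N (fun y => ‖∑ m ∈ Ioc M1 (2 * M1),
        ∑ k ∈ Icc 1 (y / m), a m * b k * p.2 ((m * k : ℕ) : ZMod p.1)‖) := by
    rw [sum_sigma]
  rw [hsig]
  have key := t2b_unif hκ hκi ((Icc 1 Q).sigma (fun q => pc q)) G H
    (fun p => by
      rw [hG]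
      exact continuous_finsetSum _ fun m _ => (continuous_const.mul (hcont _)).mul continuous_const)
    (fun p => by
      rw [hH]
      exact continuous_finsetSum _ fun m _ => (continuous_const.mul (hcont _)).mul continuous_const)
    (fun p => ∑ m ∈ Ioc M1 (2 * M1), ‖a m‖ * ‖p.2 m‖)
    (fun p => ∑ k ∈ Icc 1 (N / M1), ‖b k‖ * ‖p.2 k‖)
    (fun p ξ => by
      refine (norm_sum_le _ _).trans (le_of_eq (sum_congr rfl fun m _ => ?_))
      rw [norm_mul, norm_mul, t2b_norm_ee, mul_one])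
    (fun p ξ => by
      refine (norm_sum_le _ _).trans (le_of_eq (sum_congr rfl fun m _ => ?_))
      rw [norm_mul, norm_mul, t2b_norm_ee, mul_one])
    (fun p => mx N (fun y => ‖∑ m ∈ Ioc M1 (2 * M1),
        ∑ k ∈ Icc 1 (y / m), a m * b k * p.2 ((m * k : ℕ) : ZMod p.1)‖))
    (fun p _ => by
      refine mx_le fun y hyN => ?_
      rw [t2b_cut hM1 hyN (fun m k => a m * b k * p.2 ((m * k : ℕ) : ZMod p.1))]
      refine (hy (Ioc M1 (2 * M1) ×ˢ Icc 1 (N / M1)) (fun p => p.1 * p.2)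
        (fun r => a r.1 * b r.2 * p.2 ((r.1 * r.2 : ℕ) : ZMod p.1)) ?_ y (by omega)).trans ?_
      · intro i hi
        rw [mem_product, mem_Ioc, mem_Icc] at hi
        refine ⟨Nat.mul_pos (by omega) hi.2.1, ?_⟩
        calc i.1 * i.2 ≤ (2 * M1) * (N / M1) := Nat.mul_le_mul hi.1.2 hi.2.2
          _ = 2 * (M1 * (N / M1)) := by ring
          _ ≤ 2 * N := Nat.mul_le_mul_left _ hMK
      · refine le_of_eq ?_
        congr 1
        funext ξ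
        rw [t2b_sep (Ioc M1 (2 * M1)) (Icc 1 (N / M1)) hSI hTI a b p.2 ξ, norm_mul])
    (B := √(((Q : ℝ) ^ 2 + 26 * M1) * SA) * √(((Q : ℝ) ^ 2 + 13 * ((N / M1 : ℕ) : ℝ)) * SB)) ?_
  · refine key.trans ?_
    have h1 : (∫ ξ, κ ξ) ≤ 2 * C0 * Real.log N := by
      refine hκC.trans ?_
      push_cast
      calc C0 * Real.log (2 * N) ≤ C0 * (2 * Real.log N) := mul_le_mul_of_nonneg_left hL2 hC0
        _ = _ := by ring
    exact mul_le_mul_of_nonneg_right h1 (by positivity)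
  · intro ξ
    refine (Real.sum_mul_le_sqrt_mul_sqrt _ _ _).trans ?_
    refine mul_le_mul (Real.sqrt_le_sqrt ?_) (Real.sqrt_le_sqrt ?_) (Real.sqrt_nonneg _)
      (Real.sqrt_nonneg _)
    · refine (bil_lsA Q M1 (fun m => a m * ee (ξ * Real.log m))).trans ?_
      refine mul_le_mul_of_nonneg_left ?_ (by positivity)
      refine le_trans (le_of_eq (sum_congr rfl fun m _ => ?_)) hSA
      rw [norm_mul, t2b_norm_ee, mul_one]
    · rw [sum_sigma]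
      refine (LSM Q (N / M1) (fun k => b k * ee (ξ * Real.log k))).trans ?_
      refine mul_le_mul_of_nonneg_left ?_ (by positivity)
      refine le_trans (le_of_eq (sum_congr rfl fun k _ => ?_)) hSB
      rw [norm_mul, t2b_norm_ee, mul_one]

/-- rearrangement of the Dirichlet product -/
theorem SS_mul (f g : AF) {q : ℕ} (χ : DirichletCharacter ℂ q) (y : ℕ) :
    SS (f * g) χ y = ∑ a ∈ Icc 1 y, ∑ b ∈ Icc 1 (y / a), f a * g b * χ ((a * b : ℕ) : ZMod q) := by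
  unfold SS
  have h1 : ∀ n ∈ Icc 1 y, (f * g) n * χ (n : ZMod q) =
      ∑ x ∈ n.divisorsAntidiagonal, f x.1 * g x.2 * χ ((x.1 * x.2 : ℕ) : ZMod q) := by
    intro n _
    rw [ArithmeticFunction.mul_apply, sum_mul]
    refine sum_congr rfl fun x hx => ?_
    rw [(Nat.mem_divisorsAntidiagonal.1 hx).1]
  rw [sum_congr rfl h1, Finset.sum_sigma', Finset.sum_sigma']
  refine Finset.sum_bij' (fun x _ => ⟨x.2.1, x.2.2⟩) (fun z _ => ⟨z.1 * z.2, (z.1, z.2)⟩)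
    ?_ ?_ ?_ ?_ ?_
  · rintro ⟨k, a, b⟩ h
    simp only [Finset.mem_sigma, Finset.mem_Icc, Nat.mem_divisorsAntidiagonal] at h ⊢
    obtain ⟨⟨hk1, hk2⟩, rfl, hk3⟩ := h
    have ha : 0 < a := Nat.pos_of_ne_zero (by rintro rfl; simp at hk3)
    have hb : 0 < b := Nat.pos_of_ne_zero (by rintro rfl; simp at hk3)
    refine ⟨⟨ha, ?_⟩, hb, ?_⟩
    · exact (Nat.le_mul_of_pos_right a hb).trans hk2
    · rw [Nat.le_div_iff_mul_le ha, mul_comm]; exact hk2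
  · rintro ⟨a, b⟩ h
    simp only [Finset.mem_sigma, Finset.mem_Icc, Nat.mem_divisorsAntidiagonal] at h ⊢
    obtain ⟨⟨ha1, ha2⟩, hb1, hb2⟩ := h
    rw [Nat.le_div_iff_mul_le ha1, mul_comm] at hb2
    have : 0 < a * b := Nat.mul_pos ha1 hb1
    exact ⟨⟨this, hb2⟩, trivial, this.ne'⟩
  · rintro ⟨k, a, b⟩ h
    simp only [Finset.mem_sigma, Finset.mem_Icc, Nat.mem_divisorsAntidiagonal] at h ⊢
    obtain ⟨⟨hk1, hk2⟩, rfl, hk3⟩ := h
    rfl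
  · rintro ⟨a, b⟩ h
    rfl
  · rintro ⟨k, a, b⟩ h
    rfl

/-- the elementary inequality -/
theorem bil_num {N M K q F G l l1 l2 U V : ℝ} {E : ℕ} (hN : 2 ≤ N) (hM : 1 ≤ M) (hK0 : 0 ≤ K)
    (hMK : M * K ≤ N) (hq : 0 ≤ q) (hF : 0 ≤ F) (hG : 0 ≤ G) (h1 : 0 ≤ l1) (h1l : l1 ≤ l) (h2 : 0 ≤ l2)
    (h2l : l2 ≤ l) (hU : 0 < U) (hUM : U ≤ 2 * M) (hMV : M ≤ V) :
    √((q ^ 2 + 26 * M) * (F ^ 2 * (2 * M) * l1 ^ E)) * √((q ^ 2 + 13 * K) * (G ^ 2 * K * l2 ^ E)) ≤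
      52 * (F * G * l ^ E) * (q ^ 2 * √N + q * √(N * V) + q * √N * √(N / U) + N) := by
  have hN0 : 0 < N := by linarith
  have hM0 : 0 < M := by linarith
  have hl0 : 0 ≤ l := h1.trans h1l
  have hKN : K ≤ N / M := by
    rw [le_div_iff₀ hM0]
    linarith
  have hNU : N / M ≤ 4 * (N / U) := by
    rw [div_le_iff₀ hM0]
    have h3 : 4 * (N / U) * M = N * (2 * (2 * M / U)) := by ring
    rw [h3]
    have h4 : 1 ≤ 2 * M / U := by rw [le_div_iff₀ hU]; linarith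
    nlinarith
  rw [← Real.sqrt_mul (by positivity)]
  refine Real.sqrt_le_iff.mpr ⟨by positivity, ?_⟩
  have e1 : l1 ^ E ≤ l ^ E := pow_le_pow_left₀ h1 h1l E
  have e2 : l2 ^ E ≤ l ^ E := pow_le_pow_left₀ h2 h2l E
  have hA : (q ^ 2 + 26 * M) * (F ^ 2 * (2 * M) * l1 ^ E) * ((q ^ 2 + 13 * K) * (G ^ 2 * K * l2 ^ E)) ≤
      (q ^ 2 + 26 * M) * (F ^ 2 * (2 * M) * l ^ E) * ((q ^ 2 + 13 * (N / M)) * (G ^ 2 * K * l ^ E)) := by
    gcongr
  refine hA.trans ?_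
  have hB : (q ^ 2 + 26 * M) * (F ^ 2 * (2 * M) * l ^ E) * ((q ^ 2 + 13 * (N / M)) * (G ^ 2 * K * l ^ E)) =
      (F * G * l ^ E) ^ 2 * (2 * ((q ^ 2 + 26 * M) * (q ^ 2 + 13 * (N / M))) * (M * K)) := by ring
  rw [hB]
  have hNM : (q ^ 2 + 26 * M) * (q ^ 2 + 13 * (N / M)) =
      q ^ 4 + 26 * q ^ 2 * M + 13 * q ^ 2 * (N / M) + 338 * N := by
    field_simp
    ring
  have hC : 2 * ((q ^ 2 + 26 * M) * (q ^ 2 + 13 * (N / M))) * (M * K) ≤
      2 * (q ^ 4 + 26 * q ^ 2 * V + 13 * q ^ 2 * (4 * (N / U)) + 338 * N) * N := by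
    rw [hNM]
    have h5 : q ^ 4 + 26 * q ^ 2 * M + 13 * q ^ 2 * (N / M) + 338 * N ≤
        q ^ 4 + 26 * q ^ 2 * V + 13 * q ^ 2 * (4 * (N / U)) + 338 * N := by
      have h6 : 26 * q ^ 2 * M ≤ 26 * q ^ 2 * V := mul_le_mul_of_nonneg_left hMV (by positivity)
      have h7 : 13 * q ^ 2 * (N / M) ≤ 13 * q ^ 2 * (4 * (N / U)) :=
        mul_le_mul_of_nonneg_left hNU (by positivity)
      linarith
    have hV0 : 0 ≤ V := hM0.le.trans hMV
    exact mul_le_mul (by linarith) hMK (by positivity) (by positivity)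
  obtain ⟨s, hs⟩ : ∃ s, s = √N := ⟨_, rfl⟩
  obtain ⟨v, hv⟩ : ∃ v, v = √V := ⟨_, rfl⟩
  obtain ⟨u, hu⟩ : ∃ u, u = √(N / U) := ⟨_, rfl⟩
  have hV0 : 0 ≤ V := hM0.le.trans hMV
  have hs2 : s ^ 2 = N := by rw [hs]; exact Real.sq_sqrt hN0.le
  have hv2 : v ^ 2 = V := by rw [hv]; exact Real.sq_sqrt hV0
  have hu2 : u ^ 2 = N / U := by rw [hu]; exact Real.sq_sqrt (by positivity)
  have hs0 : 0 ≤ s := by rw [hs]; positivity
  have hu0 : 0 ≤ u := by rw [hu]; positivity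
  have hv0 : 0 ≤ v := by rw [hv]; positivity
  have hNV : √(N * V) = s * v := by rw [hs, hv, Real.sqrt_mul hN0.le]
  rw [hNV, ← hs, ← hu]
  have hC' : 2 * ((q ^ 2 + 26 * M) * (q ^ 2 + 13 * (N / M))) * (M * K) ≤
      2 * (q ^ 4 + 26 * q ^ 2 * v ^ 2 + 13 * q ^ 2 * (4 * u ^ 2) + 338 * s ^ 2) * s ^ 2 := by
    rw [hs2, hu2, hv2]
    exact hC
  have hF2 : 2 * (q ^ 4 + 26 * q ^ 2 * v ^ 2 + 13 * q ^ 2 * (4 * u ^ 2) + 338 * s ^ 2) * s ^ 2 ≤
      52 ^ 2 * (q ^ 2 * s + q * (s * v) + q * s * u + s ^ 2) ^ 2 := by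
    have e : (q ^ 2 * s + q * (s * v) + q * s * u + s ^ 2) ^ 2 =
      q ^ 4 * s ^ 2 + q ^ 2 * s ^ 2 * v ^ 2 + q ^ 2 * s ^ 2 * u ^ 2 + s ^ 4 +
        2 * (q ^ 3 * s ^ 2 * v + q ^ 3 * s ^ 2 * u + q ^ 2 * s ^ 3 + q ^ 2 * s ^ 2 * v * u + q * s ^ 3 * v +
          q * s ^ 3 * u) := by ring
    have e3 : 0 ≤ q ^ 3 * s ^ 2 * v + q ^ 3 * s ^ 2 * u + q ^ 2 * s ^ 3 + q ^ 2 * s ^ 2 * v * u + q * s ^ 3 * v +
          q * s ^ 3 * u := by positivity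
    have e4 : 0 ≤ q ^ 4 * s ^ 2 := by positivity
    have e5 : 0 ≤ q ^ 2 * s ^ 2 * v ^ 2 := by positivity
    have e6 : 0 ≤ q ^ 2 * s ^ 2 * u ^ 2 := by positivity
    have e7 : 0 ≤ s ^ 4 := by positivity
    have e8 : 2 * (q ^ 4 + 26 * q ^ 2 * v ^ 2 + 13 * q ^ 2 * (4 * u ^ 2) + 338 * s ^ 2) * s ^ 2 =
      2 * (q ^ 4 * s ^ 2) + 52 * (q ^ 2 * s ^ 2 * v ^ 2) + 104 * (q ^ 2 * s ^ 2 * u ^ 2) + 676 * s ^ 4 := by ring
    rw [e8, e]
    linarith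
  have hD := mul_le_mul_of_nonneg_left (hC'.trans hF2) (by positivity : 0 ≤ (F * G * l ^ E) ^ 2)
  refine hD.trans (le_of_eq ?_)
  rw [← hs2]
  ring

/-- decomposition into dyadic blocks -/
theorem bil_dyadic {U V N y : ℕ} (hU : 1 ≤ U) (hy : y ≤ N) (h : ℕ → ℂ) (h0 : ∀ a ≤ U, h a = 0)
    (h1 : ∀ a, V < a → h a = 0) (h2 : ∀ a, y < a → h a = 0) :
    ∑ a ∈ Icc 1 y, h a = ∑ i ∈ (range (Nat.log 2 N + 1)).filter (fun i => U < 2 ^ (i + 1) ∧ 2 ^ i < V),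
      ∑ a ∈ Ioc (2 ^ i) (2 * 2 ^ i), h a := by
  have hN : N < 2 ^ (Nat.log 2 N + 1) := Nat.lt_pow_succ_log_self (by norm_num) N
  have e1 : ∀ I : ℕ, ∑ a ∈ Ioc 1 (2 ^ I), h a = ∑ i ∈ range I, ∑ a ∈ Ioc (2 ^ i) (2 * 2 ^ i), h a := by
    intro I
    induction I with
    | zero => simp
    | succ n ih =>
      rw [sum_range_succ, ← ih]
      have h3 : Ioc 1 (2 ^ (n + 1)) = Ioc 1 (2 ^ n) ∪ Ioc (2 ^ n) (2 * 2 ^ n) := by
        have h4 : 1 ≤ 2 ^ n := Nat.one_le_two_pow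
        ext a
        simp only [mem_union, mem_Ioc, pow_succ]
        omega
      rw [h3, sum_union]
      rw [Finset.disjoint_left]
      intro a ha hb
      rw [mem_Ioc] at ha hb
      omega
  have e2 : ∑ a ∈ Icc 1 y, h a = ∑ a ∈ Ioc 1 (2 ^ (Nat.log 2 N + 1)), h a := by
    have h3 : ∑ a ∈ Icc 1 y, h a = ∑ a ∈ Icc 1 (2 ^ (Nat.log 2 N + 1)), h a := by
      refine sum_subset (Icc_subset_Icc_right (by omega)) fun a _ ha => h2 a ?_
      rw [mem_Icc] at ha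
      rename_i h4
      rw [mem_Icc] at h4
      omega
    rw [h3]
    symm
    refine sum_subset ?_ fun a ha hb => h0 a ?_
    · intro a ha
      rw [mem_Ioc] at ha
      rw [mem_Icc]
      omega
    · rw [mem_Icc] at ha
      rw [mem_Ioc] at hb
      omega
  rw [e2, e1, sum_filter]
  refine sum_congr rfl fun i _ => ?_
  split_ifs with h3
  · rfl
  · refine sum_eq_zero fun a ha => ?_
    rw [mem_Ioc] at ha
    rw [not_and_or, not_lt, not_lt, pow_succ] at h3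
    rcases h3 with h3 | h3
    · exact h0 a (by omega)
    · exact h1 a (by omega)

theorem bil (j m : ℕ) : ∃ C : ℝ, 0 ≤ C ∧ ∃ K : ℕ, ∀ (N Q U V : ℕ) (F G : ℝ) (f g : AF), 2 ≤ N → 1 ≤ U →
    DB F j m f → DB G j m g → (∀ n ≤ U, f n = 0) → (∀ n, V < n → f n = 0) →
    Er Q N (f * g) ≤ C * F * G * Real.log N ^ K *
      ((Q : ℝ) ^ 2 * √N + Q * √((N : ℝ) * V) + Q * √N * √((N : ℝ) / U) + N) := by
  obtain ⟨C0, hC0, hblock⟩ := bil_block
  set E : ℕ := 2 * j + 2 ^ (2 * m) with hE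
  refine ⟨3 * (C0 * (52 * 4 ^ E)), by positivity, E + 2, ?_⟩
  intro N Q U V F G f g hN hU hf hg hfU hfV
  have hF := hf.nonneg
  have hG := hg.nonneg
  have hNr : (2 : ℝ) ≤ N := by exact_mod_cast hN
  have hlog2 : (0.69 : ℝ) ≤ Real.log 2 := by
    have := Real.log_two_gt_d9; linarith
  have hlog2' : Real.log 2 ≤ 0.7 := by
    have := Real.log_two_lt_d9; linarith
  have hlN : Real.log 2 ≤ Real.log N := Real.log_le_log (by norm_num) hNr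
  set R : ℝ := (Q : ℝ) ^ 2 * √N + Q * √((N : ℝ) * V) + Q * √N * √((N : ℝ) / U) + N with hR
  have hR0 : 0 ≤ R := by positivity
  set J := (range (Nat.log 2 N + 1)).filter (fun i => U < 2 ^ (i + 1) ∧ 2 ^ i < V) with hJ
  -- pointwise decomposition
  have hpt : ∀ (q : ℕ) (χ : DirichletCharacter ℂ q), MX (f * g) χ N ≤
      ∑ i ∈ J, mx N (fun y => ‖∑ a ∈ Ioc (2 ^ i) (2 * 2 ^ i), ∑ b ∈ Icc 1 (y / a),
        f a * g b * χ ((a * b : ℕ) : ZMod q)‖) := by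
    intro q χ
    refine MX_le fun y hy => ?_
    rw [SS_mul, bil_dyadic (U := U) (V := V) hU hy (fun a => ∑ b ∈ Icc 1 (y / a),
        f a * g b * χ ((a * b : ℕ) : ZMod q))]
    · refine (norm_sum_le _ _).trans (sum_le_sum fun i _ => ?_)
      exact le_mx (fun y => ‖∑ a ∈ Ioc (2 ^ i) (2 * 2 ^ i), ∑ b ∈ Icc 1 (y / a),
        f a * g b * χ ((a * b : ℕ) : ZMod q)‖) hy
    · intro a ha
      refine sum_eq_zero fun b _ => ?_
      rw [hfU a ha, zero_mul, zero_mul]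
    · intro a ha
      refine sum_eq_zero fun b _ => ?_
      rw [hfV a ha, zero_mul, zero_mul]
    · intro a ha
      rw [Nat.div_eq_of_lt ha]
      simp
  -- sum over the characters
  have hsum : Er Q N (f * g) ≤ ∑ i ∈ J, ∑ q ∈ Icc 1 Q, ∑ χ ∈ pc q,
      mx N (fun y => ‖∑ a ∈ Ioc (2 ^ i) (2 * 2 ^ i), ∑ b ∈ Icc 1 (y / a),
        f a * g b * χ ((a * b : ℕ) : ZMod q)‖) := by
    unfold Er
    rw [sum_comm]
    refine sum_le_sum fun q _ => ?_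
    rw [sum_comm]
    exact sum_le_sum fun χ _ => hpt q χ
  refine hsum.trans ?_
  have hone : ∀ i ∈ J, ∑ q ∈ Icc 1 Q, ∑ χ ∈ pc q,
      mx N (fun y => ‖∑ a ∈ Ioc (2 ^ i) (2 * 2 ^ i), ∑ b ∈ Icc 1 (y / a),
        f a * g b * χ ((a * b : ℕ) : ZMod q)‖) ≤
      C0 * Real.log N * (52 * (F * G * (4 * Real.log N) ^ E) * R) := by
    intro i hi
    rw [hJ, mem_filter, mem_range] at hi
    obtain ⟨hi1, hi2, hi3⟩ := hi
    have hM1 : 1 ≤ 2 ^ i := Nat.one_le_two_pow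
    have hMN : 2 ^ i ≤ N := (Nat.pow_le_pow_right (by norm_num) (by omega)).trans
      (Nat.pow_log_le_self 2 (by omega))
    have hK1 : 1 ≤ N / 2 ^ i := (Nat.one_le_div_iff (by positivity)).2 hMN
    have hlogM : 1 + Real.log ((2 * 2 ^ i : ℕ) : ℝ) ≤ 4 * Real.log N := by
      have h3 : ((2 * 2 ^ i : ℕ) : ℝ) ≤ 2 * N := by exact_mod_cast Nat.mul_le_mul_left 2 hMN
      have h4 : Real.log ((2 * 2 ^ i : ℕ) : ℝ) ≤ Real.log (2 * N) :=
        Real.log_le_log (by positivity) h3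
      rw [Real.log_mul (by norm_num) (by positivity)] at h4
      linarith
    have hlogK : 1 + Real.log ((N / 2 ^ i : ℕ) : ℝ) ≤ 4 * Real.log N := by
      have h3 : ((N / 2 ^ i : ℕ) : ℝ) ≤ N := by exact_mod_cast Nat.div_le_self N _
      have h4 : Real.log ((N / 2 ^ i : ℕ) : ℝ) ≤ Real.log N :=
        Real.log_le_log (by exact_mod_cast hK1) h3
      linarith
    have hA : ∑ a ∈ Ioc (2 ^ i) (2 * 2 ^ i), ‖f a‖ ^ 2 ≤
        F ^ 2 * (2 * (2 ^ i : ℕ)) * (1 + Real.log ((2 * 2 ^ i : ℕ) : ℝ)) ^ E := by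
      refine le_trans (sum_le_sum_of_subset_of_nonneg (t := Icc 1 (2 * 2 ^ i)) ?_
        fun _ _ _ => by positivity) ?_
      · intro a ha
        rw [mem_Ioc] at ha
        rw [mem_Icc]
        omega
      · have := hf.sum_sq_le (2 * 2 ^ i)
        push_cast at this ⊢
        exact this
    have hB := hg.sum_sq_le (N / 2 ^ i)
    refine (hblock N Q (2 ^ i) hN hM1 hMN (fun a => f a) (fun b => g b) _ _ hA hB).trans ?_
    refine mul_le_mul_of_nonneg_left ?_ (mul_nonneg hC0 (by linarith))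
    refine bil_num (N := (N : ℝ)) (M := ((2 ^ i : ℕ) : ℝ)) (K := ((N / 2 ^ i : ℕ) : ℝ)) (q := (Q : ℝ)) (U := (U : ℝ))
      (V := (V : ℝ)) hNr (by exact_mod_cast hM1) (Nat.cast_nonneg _) ?_ (Nat.cast_nonneg _) hF hG ?_ hlogM ?_ hlogK
      (by exact_mod_cast hU) ?_ ?_
    · exact_mod_cast Nat.mul_div_le N (2 ^ i)
    · have := Real.log_natCast_nonneg (2 * 2 ^ i)
      linarith
    · have := Real.log_natCast_nonneg (N / 2 ^ i)
      linarith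
    · rw [pow_succ] at hi2
      have : U ≤ 2 * 2 ^ i := by omega
      exact_mod_cast this
    · exact_mod_cast hi3.le
  refine (sum_le_sum hone).trans ?_
  rw [sum_const, nsmul_eq_mul]
  have hcard : (J.card : ℝ) ≤ 3 * Real.log N := by
    have h3 : J.card ≤ Nat.log 2 N + 1 := by
      rw [hJ]
      exact (card_filter_le _ _).trans (by rw [card_range])
    have h4 : (Nat.log 2 N : ℝ) * Real.log 2 ≤ Real.log N := by
      have h5 : ((2 ^ Nat.log 2 N : ℕ) : ℝ) ≤ N := by exact_mod_cast Nat.pow_log_le_self 2 (by omega)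
      have h6 := Real.log_le_log (by positivity) h5
      push_cast at h6
      rwa [Real.log_pow] at h6
    have h5 : (J.card : ℝ) ≤ (Nat.log 2 N : ℝ) + 1 := by exact_mod_cast h3
    nlinarith
  have hX : 0 ≤ C0 * Real.log N * (52 * (F * G * (4 * Real.log N) ^ E) * R) := by
    have : 0 ≤ Real.log N := by linarith
    positivity
  refine (mul_le_mul_of_nonneg_right hcard hX).trans (le_of_eq ?_)
  rw [mul_pow]
  ring

end SZE
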