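import Pool.Agent.H91.SZE.Coe
import Pool.Agent.H91.SZE.Bil
import Pool.Agent.H17.SZ.PV

/-!
# PV: Polya-Vinogradov, and the smooth factors (bounded variation)
-/

open Finset H69LB BVL

namespace SZE

theorem mem_pc {q : ℕ} {χ : DirichletCharacter ℂ q} (hχ : χ ∈ pc q) : χ.IsPrimitive ∧ χ ≠ 1 := by
  classical
  unfold pc at hχ
  exact (mem_filter.1 hχ).2

theorem pv0 {q : ℕ} (hq : 1 ≤ q) {χ : DirichletCharacter ℂ q} (hχ : χ ∈ pc q) (N : ℕ) :
    ‖∑ n ∈ Icc 1 N, χ (n : ZMod q)‖ ≤ √q * (1 + Real.log q) := by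
  have : NeZero q := ⟨by omega⟩
  exact SZ17.pv (mem_pc hχ).1 (mem_pc hχ).2 N

theorem sum_Ioc_eq_sub (a : ℕ → ℂ) {M N : ℕ} (h : M ≤ N) :
    ∑ n ∈ Ioc M N, a n = ∑ n ∈ Icc 1 N, a n - ∑ n ∈ Icc 1 M, a n := by
  have h1 : Icc 1 N = Icc 1 M ∪ Ioc M N := by
    ext n
    simp only [mem_union, mem_Icc, mem_Ioc]
    omega
  rw [h1, sum_union]
  · ring
  · rw [Finset.disjoint_left]
    intro n hn hm
    rw [mem_Icc] at hn
    rw [mem_Ioc] at hm
    omega

theorem norm_sum_Ioc_le {a : ℕ → ℂ} {B : ℝ} (h : ∀ N : ℕ, ‖∑ n ∈ Icc 1 N, a n‖ ≤ B) (M N : ℕ) :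
    ‖∑ n ∈ Ioc M N, a n‖ ≤ 2 * B := by
  have hB : 0 ≤ B := (norm_nonneg _).trans (h 0)
  rcases le_total M N with hMN | hMN
  · rw [sum_Ioc_eq_sub a hMN]
    refine (norm_sub_le _ _).trans ?_
    linarith [h N, h M]
  · rw [Ioc_eq_empty_of_le hMN, sum_empty, norm_zero]
    positivity

theorem pv {q : ℕ} (hq : 1 ≤ q) {χ : DirichletCharacter ℂ q} (hχ : χ ∈ pc q) (M N : ℕ) :
    ‖∑ n ∈ Ioc M N, χ (n : ZMod q)‖ ≤ 4 * √q * (1 + Real.log q) := by
  have h := norm_sum_Ioc_le (pv0 hq hχ) M N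
  have h0 : 0 ≤ √(q : ℝ) * (1 + Real.log q) := mul_nonneg (Real.sqrt_nonneg _) (by
    have := Real.log_natCast_nonneg q
    linarith)
  nlinarith

/-- Abel summation with a weight of bounded variation -/
theorem bv_abel {a : ℕ → ℂ} {B : ℝ} (h : ∀ N : ℕ, ‖∑ n ∈ Icc 1 N, a n‖ ≤ B) {s : ℕ → ℂ} {G : ℝ} {N : ℕ}
    (hs : BVs G N s) {y : ℕ} (hy : y ≤ N) : ‖∑ n ∈ Icc 1 y, a n * s n‖ ≤ 2 * B * G := by
  have hB : 0 ≤ B := (norm_nonneg _).trans (h 0)
  rcases Nat.eq_zero_or_pos y with rfl | hy1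
  · have hG : 0 ≤ G := (sum_nonneg fun _ _ => norm_nonneg _).trans hs.2
    simp only [zero_lt_one, Finset.Icc_eq_empty_of_lt, Finset.sum_empty, norm_zero]
    positivity
  have key : ∀ y : ℕ, 1 ≤ y → ∑ n ∈ Icc 1 y, a n * s n =
      (∑ n ∈ Icc 1 y, a n) * s y - ∑ m ∈ Ico 1 y, (∑ n ∈ Icc 1 m, a n) * (s (m + 1) - s m) := by
    intro y hy
    induction y, hy using Nat.le_induction with
    | base => simp
    | succ n hn ih =>
      rw [Finset.sum_Icc_succ_top (by omega), ih, Finset.sum_Icc_succ_top (by omega),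
        Finset.sum_Ico_succ_top (by omega)]
      ring
  rw [key y hy1]
  have h1 : ‖(∑ n ∈ Icc 1 y, a n) * s y‖ ≤ B * G := by
    rw [norm_mul]
    exact mul_le_mul (h y) (hs.1 y hy1 hy) (norm_nonneg _) hB
  have h2 : ‖∑ m ∈ Ico 1 y, (∑ n ∈ Icc 1 m, a n) * (s (m + 1) - s m)‖ ≤ B * G := by
    calc _ ≤ ∑ m ∈ Ico 1 y, ‖(∑ n ∈ Icc 1 m, a n) * (s (m + 1) - s m)‖ := norm_sum_le _ _
      _ ≤ ∑ m ∈ Ico 1 y, B * ‖s (m + 1) - s m‖ := by
          refine sum_le_sum fun m _ => ?_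
          rw [norm_mul]
          exact mul_le_mul_of_nonneg_right (h m) (norm_nonneg _)
      _ = B * ∑ m ∈ Ico 1 y, ‖s (m + 1) - s m‖ := by rw [mul_sum]
      _ ≤ B * G := by
          refine mul_le_mul_of_nonneg_left (le_trans ?_ hs.2) hB
          exact sum_le_sum_of_subset_of_nonneg (Ico_subset_Ico_right hy) fun _ _ _ => norm_nonneg _
  calc _ ≤ ‖(∑ n ∈ Icc 1 y, a n) * s y‖ + ‖∑ m ∈ Ico 1 y, (∑ n ∈ Icc 1 m, a n) * (s (m + 1) - s m)‖ :=
        norm_sub_le _ _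
    _ ≤ B * G + B * G := add_le_add h1 h2
    _ = 2 * B * G := by ring

/-- a smooth factor with a coprimality condition -/
theorem pv_bv {q : ℕ} (hq : 1 ≤ q) {χ : DirichletCharacter ℂ q} (hχ : χ ∈ pc q) {e : ℕ} (he : 1 ≤ e)
    {s : ℕ → ℂ} {G : ℝ} {N : ℕ} (hs : BVs G N s) {M y : ℕ} (hy : y ≤ N) :
    ‖∑ n ∈ Ioc M y, (if n.Coprime e then s n else 0) * χ (n : ZMod q)‖ ≤
      4 * (tau e * (√q * (1 + Real.log q))) * G := by
  have : NeZero q := ⟨by omega⟩
  have h1 := SZ17.pv_cop (χ := χ) (pv0 hq hχ) he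
  have h2 : ∀ y, y ≤ N → ‖∑ n ∈ Icc 1 y, (if n.Coprime e then s n else 0) * χ (n : ZMod q)‖ ≤
      2 * (tau e * (√q * (1 + Real.log q))) * G := by
    intro y hy
    have h3 := bv_abel (a := fun n => if n.Coprime e then χ (n : ZMod q) else 0) h1 hs hy
    refine le_trans (le_of_eq ?_) h3
    congr 1
    refine sum_congr rfl fun n _ => ?_
    split_ifs <;> ring
  rcases le_total M y with hMy | hMy
  · rw [sum_Ioc_eq_sub _ hMy]
    refine (norm_sub_le _ _).trans ?_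
    linarith [h2 y hy, h2 M (hMy.trans hy)]
  · rw [Ioc_eq_empty_of_le hMy, sum_empty, norm_zero]
    have h3 := (norm_nonneg _).trans (h2 0 (Nat.zero_le _))
    linarith

theorem BVs.nonneg {G : ℝ} {N : ℕ} {s : ℕ → ℂ} (hs : BVs G N s) : 0 ≤ G :=
  (sum_nonneg fun _ _ => norm_nonneg _).trans hs.2

theorem BVs.mono {G G' : ℝ} {N : ℕ} {s : ℕ → ℂ} (hs : BVs G N s) (h : G ≤ G') : BVs G' N s :=
  ⟨fun n h1 h2 => (hs.1 n h1 h2).trans h, hs.2.trans h⟩

theorem BVs.congr {G : ℝ} {N : ℕ} {s s' : ℕ → ℂ} (hs : BVs G N s) (h : ∀ n, 1 ≤ n → n ≤ N → s n = s' n) :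
    BVs G N s' := by
  refine ⟨fun n h1 h2 => by rw [← h n h1 h2]; exact hs.1 n h1 h2, ?_⟩
  refine le_trans (le_of_eq (sum_congr rfl fun n hn => ?_)) hs.2
  rw [mem_Ico] at hn
  rw [h n hn.1 (by omega), h (n + 1) (by omega) (by omega)]

theorem BVs.mono_left {G : ℝ} {N N' : ℕ} {s : ℕ → ℂ} (hs : BVs G N s) (h : N' ≤ N) : BVs G N' s :=
  ⟨fun n h1 h2 => hs.1 n h1 (h2.trans h),
    (sum_le_sum_of_subset_of_nonneg (Ico_subset_Ico_right h) fun _ _ _ => norm_nonneg _).trans hs.2⟩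

/-- dilations of smooth factors -/
theorem BVs.dil {G : ℝ} {N d : ℕ} {s : ℕ → ℂ} (hd : 1 ≤ d) (hs : BVs G (d * N) s) :
    BVs G N (fun n => s (d * n)) := by
  refine ⟨fun n h1 h2 => hs.1 _ (Nat.mul_pos hd h1) (Nat.mul_le_mul_left d h2), ?_⟩
  have h1 : ∀ N : ℕ, 1 ≤ N → ∑ n ∈ Ico 1 N, ‖s (d * (n + 1)) - s (d * n)‖ ≤
      ∑ n ∈ Ico d (d * N), ‖s (n + 1) - s n‖ := by
    intro N hN
    induction N, hN using Nat.le_induction with
    | base => simp
    | succ n hn ih =>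
      rw [Finset.sum_Ico_succ_top (by omega)]
      have h2 : Ico d (d * (n + 1)) = Ico d (d * n) ∪ Ico (d * n) (d * (n + 1)) := by
        rw [Finset.Ico_union_Ico_eq_Ico]
        · exact Nat.le_mul_of_pos_right d (by omega)
        · exact Nat.mul_le_mul_left d (by omega)
      rw [h2, sum_union (Finset.Ico_disjoint_Ico_consecutive _ _ _)]
      refine add_le_add ih ?_
      have h3 : s (d * (n + 1)) - s (d * n) = ∑ m ∈ Ico (d * n) (d * (n + 1)), (s (m + 1) - s m) := by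
        rw [Finset.sum_Ico_sub s (Nat.mul_le_mul_left d (by omega))]
      rw [h3]
      exact norm_sum_le _ _
  rcases Nat.eq_zero_or_pos N with rfl | hN
  · simp only [zero_le, Ico_eq_empty_of_le, sum_empty]
    exact hs.nonneg
  · refine (h1 N hN).trans (le_trans ?_ hs.2)
    exact sum_le_sum_of_subset_of_nonneg (Ico_subset_Ico_left hd) fun _ _ _ => norm_nonneg _

/-- `α + β log n` -/
theorem BVs.smo (α β : ℂ) {N : ℕ} : BVs (‖α‖ + 2 * ‖β‖ * (1 + Real.log N)) N (smo α β) := by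
  have hl : ∀ n : ℕ, n ≤ N → 1 ≤ n → Real.log n ≤ Real.log N := fun n h1 h2 =>
    Real.log_le_log (by exact_mod_cast h2) (by exact_mod_cast h1)
  have hN0 : 0 ≤ Real.log N := Real.log_natCast_nonneg N
  have hb := norm_nonneg β
  have ha := norm_nonneg α
  constructor
  · intro n h1 h2
    rw [smo_apply, if_neg (by omega)]
    refine (norm_add_le _ _).trans ?_
    rw [norm_mul, Complex.norm_real, Real.norm_eq_abs, abs_of_nonneg (Real.log_natCast_nonneg n)]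
    have h3 := mul_le_mul_of_nonneg_left (hl n h2 h1) hb
    nlinarith
  · have h1 : ∀ n ∈ Ico 1 N, ‖SZE.smo α β (n + 1) - SZE.smo α β n‖ =
        ‖β‖ * (Real.log ((n + 1 : ℕ) : ℝ) - Real.log n) := by
      intro n hn
      rw [mem_Ico] at hn
      rw [smo_apply, smo_apply, if_neg (by omega), if_neg (by omega)]
      have h2 : α + β * ((Real.log ((n + 1 : ℕ) : ℝ) : ℝ) : ℂ) - (α + β * ((Real.log (n : ℝ) : ℝ) : ℂ)) =
          β * ((Real.log ((n + 1 : ℕ) : ℝ) - Real.log n : ℝ) : ℂ) := by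
        push_cast
        ring
      rw [h2, norm_mul, Complex.norm_real, Real.norm_eq_abs, abs_of_nonneg]
      have h3 : Real.log n ≤ Real.log ((n + 1 : ℕ) : ℝ) :=
        Real.log_le_log (by exact_mod_cast hn.1) (by push_cast; linarith)
      linarith
    rw [sum_congr rfl h1, ← mul_sum]
    rcases Nat.eq_zero_or_pos N with rfl | hN
    · simp only [zero_le, Ico_eq_empty_of_le, sum_empty, mul_zero]
      positivity
    · rw [Finset.sum_Ico_sub (fun n : ℕ => Real.log (n : ℝ)) hN, Nat.cast_one, Real.log_one, sub_zero]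
      nlinarith

/-- smooth factors, with the bound of Polya and Vinogradov -/
theorem pv_smo {q : ℕ} (hq : 1 ≤ q) {χ : DirichletCharacter ℂ q} (hχ : χ ∈ pc q) {e : ℕ} (he : 1 ≤ e) (α β : ℂ) (M N : ℕ) :
    ‖∑ n ∈ Ioc M N, cop e (smo α β) n * χ n‖ ≤
      tau e * (4 * √q * (1 + Real.log q)) * (‖α‖ + 2 * ‖β‖ * (1 + Real.log N)) := by
  have h := pv_bv hq hχ he (BVs.smo α β (N := N)) (M := M) (y := N) le_rfl
  refine le_trans (le_of_eq ?_) (h.trans (le_of_eq ?_))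
  · rfl
  · ring

/-- one long smooth variable, one character -/
theorem MX_ty1 {j m N A e q : ℕ} {F G : ℝ} {f s : AF} (hq : 1 ≤ q) (hqN : q ≤ N) (hA : 1 ≤ A) (he : 1 ≤ e)
    {χ : DirichletCharacter ℂ q} (hχ : χ ∈ pc q) (hf : DB F j m f) (hs : BVs G N s) :
    MX (f * cutG A (cop e s)) χ N ≤
      F * ((N : ℝ) / A) * (1 + Real.log N) ^ (j + 2 ^ m) * (4 * (tau e * (√q * (1 + Real.log N))) * G) := by
  have hF := hf.nonneg
  have hG := hs.nonneg
  have hte : 0 ≤ tau e := tau_nonneg e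
  have hlN := Real.log_natCast_nonneg N
  refine MX_le fun y hy => ?_
  rw [SS_mul]
  have h2 : ∀ a ∈ Icc 1 y, ‖∑ b ∈ Icc 1 (y / a), f a * cutG A (cop e s) b * χ ((a * b : ℕ) : ZMod q)‖ ≤
      (if a ≤ N / A then ‖f a‖ else 0) * (4 * (tau e * (√q * (1 + Real.log N))) * G) := by
    intro a ha
    rw [mem_Icc] at ha
    have ha0 : 0 < a := by omega
    split_ifs with haA
    · have e1 : ∑ b ∈ Icc 1 (y / a), f a * cutG A (cop e s) b * χ ((a * b : ℕ) : ZMod q) =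
          f a * χ (a : ZMod q) * ∑ b ∈ Ioc A (y / a), (if b.Coprime e then s b else 0) * χ (b : ZMod q) := by
        rw [mul_sum]
        symm
        have e2 : Ioc A (y / a) ⊆ Icc 1 (y / a) := by
          intro b hb
          rw [mem_Ioc] at hb
          rw [mem_Icc]
          omega
        rw [← sum_subset e2 (f := fun b => f a * cutG A (cop e s) b * χ ((a * b : ℕ) : ZMod q))]
        · refine sum_congr rfl fun b hb => ?_
          rw [mem_Ioc] at hb
          rw [cutG_apply, if_pos hb.1, cop_apply]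
          push_cast
          rw [map_mul]
          ring
        · intro b hb hb'
          rw [mem_Icc] at hb
          rw [mem_Ioc] at hb'
          rw [cutG_apply, if_neg (by omega), mul_zero, zero_mul]
      rw [e1, norm_mul, norm_mul]
      have e3 := norm_chi_le χ a
      have e4 := pv_bv hq hχ he hs (M := A) (y := y / a) ((Nat.div_le_self y a).trans hy)
      have e5 : 4 * (tau e * (√q * (1 + Real.log q))) * G ≤ 4 * (tau e * (√q * (1 + Real.log N))) * G := by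
        have e7 : Real.log q ≤ Real.log N :=
          Real.log_le_log (by exact_mod_cast hq) (by exact_mod_cast hqN)
        have e8 := Real.log_natCast_nonneg q
        gcongr
      refine mul_le_mul ?_ (e4.trans e5) (norm_nonneg _) (norm_nonneg _)
      calc ‖f a‖ * ‖χ (a : ZMod q)‖ ≤ ‖f a‖ * 1 := mul_le_mul_of_nonneg_left e3 (norm_nonneg _)
        _ = ‖f a‖ := mul_one _
    · rw [zero_mul]
      refine le_of_eq ?_
      rw [norm_eq_zero]
      refine sum_eq_zero fun b hb => ?_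
      rw [mem_Icc] at hb
      have hbA : b ≤ A := by
        by_contra hbA
        apply haA
        rw [Nat.le_div_iff_mul_le (by omega)]
        have h3 : b * a ≤ y := (Nat.le_div_iff_mul_le ha0).1 hb.2
        have h4 : A * a ≤ b * a := Nat.mul_le_mul_right a (by omega)
        rw [mul_comm]
        omega
      rw [cutG_apply, if_neg (by omega), mul_zero, zero_mul]
  refine (norm_sum_le _ _).trans ((sum_le_sum h2).trans ?_)
  rw [← sum_mul]
  refine mul_le_mul_of_nonneg_right ?_ (by positivity)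
  rw [← sum_filter]
  have h3 : ∑ a ∈ (Icc 1 y).filter (fun a => a ≤ N / A), ‖f a‖ ≤ ∑ a ∈ Icc 1 (N / A), ‖f a‖ := by
    refine sum_le_sum_of_subset_of_nonneg ?_ fun _ _ _ => norm_nonneg _
    intro a ha
    rw [mem_filter, mem_Icc] at ha
    rw [mem_Icc]
    exact ⟨ha.1.1, ha.2⟩
  refine h3.trans ((hf.sum_le (N / A)).trans ?_)
  have h4 : ((N / A : ℕ) : ℝ) ≤ (N : ℝ) / A := Nat.cast_div_le
  have h5 : Real.log ((N / A : ℕ) : ℝ) ≤ Real.log N := by
    rcases Nat.eq_zero_or_pos (N / A) with h6 | h6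
    · rw [h6, Nat.cast_zero, Real.log_zero]
      exact hlN
    · exact Real.log_le_log (by exact_mod_cast h6) (by exact_mod_cast Nat.div_le_self N A)
  have h6 := Real.log_natCast_nonneg (N / A)
  gcongr

/-- one long smooth variable, bounded variation -/
theorem ty1_bv (j m : ℕ) : ∃ C : ℝ, 0 ≤ C ∧ ∃ K : ℕ, ∀ (N Q A e : ℕ) (F G : ℝ) (f s : AF), 2 ≤ N → Q ≤ N → 1 ≤ A → 1 ≤ e →
    DB F j m f → BVs G N s →
    Er Q N (f * cutG A (cop e s)) ≤ C * F * (tau e * G) * Real.log N ^ K * ((Q : ℝ) ^ 2 * √Q * (N / A)) := by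
  refine ⟨4 * 3 ^ (j + 2 ^ m + 1), by positivity, j + 2 ^ m + 1, ?_⟩
  intro N Q A e F G f s hN hQN hA he hf hs
  have hF := hf.nonneg
  have hG := hs.nonneg
  have hte : 0 ≤ tau e := tau_nonneg e
  have hlN := Real.log_natCast_nonneg N
  have hN3 := one_add_log_le hN
  -- one character
  have h1 : ∀ q ∈ Icc 1 Q, ∀ χ ∈ pc q, MX (f * cutG A (cop e s)) χ N ≤
      F * ((N : ℝ) / A) * (1 + Real.log N) ^ (j + 2 ^ m) * (4 * (tau e * (√Q * (1 + Real.log N))) * G) := by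
    intro q hq χ hχ
    rw [mem_Icc] at hq
    refine (MX_ty1 hq.1 (hq.2.trans hQN) hA he hχ hf hs).trans ?_
    have e6 : √(q : ℝ) ≤ √Q := Real.sqrt_le_sqrt (by exact_mod_cast hq.2)
    gcongr
  -- summation
  have hQ0 : (0 : ℝ) ≤ Q := Nat.cast_nonneg Q
  set X : ℝ := F * ((N : ℝ) / A) * (1 + Real.log N) ^ (j + 2 ^ m) * (4 * (tau e * (√Q * (1 + Real.log N))) * G) with hX
  have hX0 : 0 ≤ X := by positivity
  have h2 : Er Q N (f * cutG A (cop e s)) ≤ (Q : ℝ) ^ 2 * X := by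
    unfold Er
    calc ∑ q ∈ Icc 1 Q, ∑ χ ∈ pc q, MX (f * cutG A (cop e s)) χ N ≤ ∑ q ∈ Icc 1 Q, (Q : ℝ) * X := by
          refine sum_le_sum fun q hq => ?_
          refine (sum_le_sum (h1 q hq)).trans ?_
          rw [sum_const, nsmul_eq_mul]
          rw [mem_Icc] at hq
          have h3 := card_pc hq.1
          have h4 : (q : ℝ) ≤ Q := by exact_mod_cast hq.2
          exact mul_le_mul_of_nonneg_right (h3.trans h4) hX0
      _ = (Q : ℝ) ^ 2 * X := by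
          rw [sum_const, Nat.card_Icc, nsmul_eq_mul, Nat.add_sub_cancel]
          ring
  refine h2.trans ?_
  have h3 : (1 + Real.log (N : ℝ)) ^ (j + 2 ^ m + 1) ≤ (3 * Real.log N) ^ (j + 2 ^ m + 1) :=
    pow_le_pow_left₀ (by linarith) hN3 _
  rw [mul_pow] at h3
  have e1 : (Q : ℝ) ^ 2 * X = 4 * F * (tau e * G) * ((Q : ℝ) ^ 2 * √Q * (N / A)) *
      (1 + Real.log (N : ℝ)) ^ (j + 2 ^ m + 1) := by
    rw [hX, pow_succ (1 + Real.log (N : ℝ)) (j + 2 ^ m)]
    ring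
  have e2 : 4 * 3 ^ (j + 2 ^ m + 1) * F * (tau e * G) * Real.log N ^ (j + 2 ^ m + 1) * ((Q : ℝ) ^ 2 * √Q * (N / A)) =
      4 * F * (tau e * G) * ((Q : ℝ) ^ 2 * √Q * (N / A)) *
      (3 ^ (j + 2 ^ m + 1) * Real.log N ^ (j + 2 ^ m + 1)) := by ring
  rw [e1, e2]
  exact mul_le_mul_of_nonneg_left h3 (by positivity)

/-- one long smooth variable -/
theorem ty1 (j m : ℕ) : ∃ C : ℝ, 0 ≤ C ∧ ∃ K : ℕ, ∀ (N Q A e : ℕ) (F G : ℝ) (f : AF) (α β : ℂ), 2 ≤ N → Q ≤ N → 1 ≤ A → 1 ≤ e →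
    DB F j m f → tau e ≤ G → ‖α‖ ≤ G → ‖β‖ ≤ G →
    Er Q N (f * cutG A (cop e (smo α β))) ≤ C * F * G ^ 2 * Real.log N ^ K * ((Q : ℝ) ^ 2 * √Q * (N / A)) := by
  obtain ⟨C, hC, K, h⟩ := ty1_bv j m
  refine ⟨C * 9, by positivity, K + 1, ?_⟩
  intro N Q A e F G f α β hN hQN hA he hf hte hα hβ
  have hG : 0 ≤ G := (norm_nonneg _).trans hα
  have hF := hf.nonneg
  have hlN := Real.log_natCast_nonneg N
  have hN3 := one_add_log_le hN
  refine (h N Q A e F _ f (smo α β) hN hQN hA he hf (BVs.smo α β)).trans ?_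
  have h1 : ‖α‖ + 2 * ‖β‖ * (1 + Real.log N) ≤ G * (9 * Real.log N) := by
    have h2 : 2 * ‖β‖ * (1 + Real.log N) ≤ 2 * G * (3 * Real.log N) := by
      have h3 : ‖β‖ * (1 + Real.log N) ≤ G * (3 * Real.log N) :=
        mul_le_mul hβ hN3 (by linarith) hG
      linarith
    have h4 : ‖α‖ ≤ G * (3 * Real.log N) := by
      have h5 : 1 ≤ 3 * Real.log N := by linarith
      nlinarith
    linarith
  have h2 : tau e * (‖α‖ + 2 * ‖β‖ * (1 + Real.log N)) ≤ G * (G * (9 * Real.log N)) :=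
    mul_le_mul hte h1 (by positivity) hG
  have hP : 0 ≤ Real.log N ^ K * ((Q : ℝ) ^ 2 * √Q * (N / A)) := by positivity
  calc C * F * (tau e * (‖α‖ + 2 * ‖β‖ * (1 + Real.log N))) * Real.log N ^ K * ((Q : ℝ) ^ 2 * √Q * (N / A))
      = (C * F) * ((tau e * (‖α‖ + 2 * ‖β‖ * (1 + Real.log N))) * (Real.log N ^ K * ((Q : ℝ) ^ 2 * √Q * (N / A)))) := by ring
    _ ≤ (C * F) * ((G * (G * (9 * Real.log N))) * (Real.log N ^ K * ((Q : ℝ) ^ 2 * √Q * (N / A)))) := by
        refine mul_le_mul_of_nonneg_left (mul_le_mul_of_nonneg_right h2 hP) (by positivity)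
    _ = _ := by rw [pow_succ (Real.log (N : ℝ)) K]; ring

end SZE
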