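import Pool.Agent.H91.SZE.Br1
import Pool.Agent.H91.SZE.Fin
import Pool.Agent.H91.SZE.PV

/-!
# BR: the error terms of `ζ * f`, `log * f`, `Λ * log * f` are small
-/

open Finset
open scoped ArithmeticFunction.vonMangoldt ArithmeticFunction.Moebius ArithmeticFunction.zeta

namespace SZE

theorem Cc.mono {T ε G G' : ℝ} {c : AF} (h : Cc T ε G c) (hG : G ≤ G') : Cc T ε G' c := by
  obtain ⟨l, s1, s2, t, h1, h2, h3, h4, h5, h6⟩ := h
  have hs : ∀ s : AF, Sm G s → Sm G' s := by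
    intro s hs N hN
    have h7 : 0 ≤ Real.log N := Real.log_nonneg (by exact_mod_cast hN)
    have h8 : G * (1 + Real.log N) ≤ G' * (1 + Real.log N) := mul_le_mul_of_nonneg_right hG (by linarith)
    exact ⟨fun n a b => ((hs N hN).1 n a b).trans h8, (hs N hN).2.trans h8⟩
  exact ⟨l, s1, s2, t, h1, hs _ h2, h3.imp id (hs _), fun n => (h4 n).trans hG, h5, h6⟩

/-- from Theorem E to `Esmall`, for coefficient functions of the class `Cc` -/
theorem esmall_Cc {ε : ℝ} (hε : 0 < ε) (hε' : ε ≤ 1 / 4) {P : ℝ → ℝ} (hP : H82SZ.Adm (1 / 2 - ε) P)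
    {c : ℝ → ArithmeticFunction ℝ} {G T1 : ℝ} (hc : ∀ T, T1 ≤ T → Cc T ε G (cx (c T))) : H82SZ.Esmall P c := by
  intro A j hj
  obtain ⟨X, hX1, hX⟩ := Adm.bdd hP
  obtain ⟨κ, hE⟩ := thmE hε hε'
  obtain ⟨C, T0, hC, hE⟩ := hE (A + 1)
  refine ⟨C * (max G 1) ^ κ * X * 40, max (max T0 T1) 3, fun T hT => ?_⟩
  have hT0 : T0 ≤ T := (le_max_left _ _).trans ((le_max_left _ _).trans hT)
  have hT1 : T1 ≤ T := (le_max_right _ _).trans ((le_max_left _ _).trans hT)
  have hT3 : 3 ≤ T := (le_max_right _ _).trans hT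
  have hTp : 0 < T := by linarith
  have hL : 1 ≤ Real.log T := by
    rw [Real.le_log_iff_exp_le hTp]
    have := Real.exp_one_lt_d9
    linarith
  have hN1 : T ≤ (H82SZ.N0 T : ℝ) := by
    have : 10 * T ≤ (H82SZ.N0 T : ℝ) := Nat.le_ceil _
    linarith
  have hN2 : (H82SZ.N0 T : ℝ) ≤ 200 * T := by
    have : (H82SZ.N0 T : ℝ) < 10 * T + 1 := Nat.ceil_lt_add_one (by linarith)
    linarith
  have hK : ((⌊T ^ (1 / 2 - ε)⌋₊ : ℕ) : ℝ) ≤ T ^ (1 / 2 - ε) := Nat.floor_le (Real.rpow_nonneg hTp.le _)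
  rw [dj_sub (by linarith) hP hT3]
  refine (hE T hT0 (H82SZ.N0 T) _ hN1 hN2 hK (fun k => ((H82SZ.xk P T k : ℝ) : ℂ)) X (fun k => norm_xk_le hX k)
    (wlog T j) _ (wbv hT3 hN1 hN2 hj) (max G 1) (le_max_right _ _) _ ((hc T hT1).mono (le_max_left _ _))).trans ?_
  have h1 : Real.log T ^ j ≤ Real.log T := by
    calc Real.log T ^ j ≤ Real.log T ^ 1 := pow_le_pow_right₀ hL hj
      _ = Real.log T := pow_one _
  have hL0 : 0 < Real.log T := by linarith
  calc C * max G 1 ^ κ * X * (40 * Real.log T ^ j) * (T / Real.log T ^ (A + 1))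
      ≤ C * max G 1 ^ κ * X * (40 * Real.log T) * (T / Real.log T ^ (A + 1)) := by gcongr
    _ = _ := by
        rw [pow_succ]
        field_simp

theorem sm_smo {α β : ℂ} : Sm (‖α‖ + 2 * ‖β‖) (smo α β) := by
  intro N hN
  refine (BVs.smo α β (N := N)).mono ?_
  have h7 : 0 ≤ Real.log N := Real.log_nonneg (by exact_mod_cast hN)
  have := norm_nonneg α
  nlinarith

/-- the class is closed under the passage to real arithmetic functions -/
theorem cc_real {T ε G : ℝ} (hG : 3 ≤ G) {l s1 s2 t : ArithmeticFunction ℝ} (hl : l = 1 ∨ l = Λ)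
    (h1 : s1 = (ζ : ArithmeticFunction ℝ) ∨ s1 = ArithmeticFunction.log)
    (h2 : s2 = 1 ∨ s2 = (ζ : ArithmeticFunction ℝ) ∨ s2 = ArithmeticFunction.log)
    (ht : ∀ n, |t n| ≤ G) (ht' : ∀ n : ℕ, T ^ (1 - ε) < n → t n = 0) : Cc T ε G (cx (l * s1 * s2 * t)) := by
  have hz : Sm G (cx (ζ : ArithmeticFunction ℝ)) := by
    rw [cx_zeta]
    intro N hN
    refine (sm_smo N hN).mono ?_
    have h7 : 0 ≤ Real.log N := Real.log_nonneg (by exact_mod_cast hN)
    simp only [norm_one, norm_zero]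
    nlinarith
  have hlg : Sm G (cx ArithmeticFunction.log) := by
    rw [cx_log]
    intro N hN
    refine (sm_smo N hN).mono ?_
    have h7 : 0 ≤ Real.log N := Real.log_nonneg (by exact_mod_cast hN)
    simp only [norm_one, norm_zero]
    nlinarith
  refine ⟨cx l, cx s1, cx s2, cx t, ?_, ?_, ?_, ?_, ?_, ?_⟩
  · rcases hl with h | h
    · left; rw [h, cx_one]
    · right; rw [h, cx_vonMangoldt]
  · rcases h1 with h | h <;> rw [h] <;> assumption
  · rcases h2 with h | h | h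
    · left; rw [h, cx_one]
    · right; rw [h]; exact hz
    · right; rw [h]; exact hlg
  · intro n
    rw [cx_apply, Complex.norm_real]
    exact ht n
  · intro n hn
    rw [cx_apply, ht' n hn]
    simp
  · rw [cx_mul, cx_mul, cx_mul]

theorem yk_bound {α : ℝ → ℝ} {θ T X : ℝ} (hT : 1 < T) (hθ : θ ≤ 1) (ha : H82SZ.Adm θ α) (hX : ∀ v, |α v| ≤ X) (n : ℕ) :
    |H82SZ.yk α T n| ≤ X := by
  have hT0 : 0 < T := by linarith
  have hL : 0 < Real.log T := Real.log_pos hT
  have hX0 : 0 ≤ X := (abs_nonneg _).trans (hX 0)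
  show |ArithmeticFunction.vonMangoldt n * α (Real.log n / Real.log T) / Real.log T| ≤ X
  rcases Nat.eq_zero_or_pos n with hn | hn
  · subst hn; simpa using hX0
  have hn1 : (1 : ℝ) ≤ n := by exact_mod_cast hn
  by_cases h : θ ≤ Real.log n / Real.log T
  · rw [ha.zero _ h]; simpa using hX0
  · push Not at h
    have h1 : Real.log n ≤ Real.log T := by
      rw [div_lt_iff₀ hL] at h
      nlinarith
    have h2 : ArithmeticFunction.vonMangoldt n ≤ Real.log T := ArithmeticFunction.vonMangoldt_le_log.trans h1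
    rw [abs_div, abs_mul, abs_of_nonneg ArithmeticFunction.vonMangoldt_nonneg, abs_of_pos hL, div_le_iff₀ hL]
    calc ArithmeticFunction.vonMangoldt n * |α (Real.log n / Real.log T)| ≤ Real.log T * X :=
          mul_le_mul h2 (hX _) (abs_nonneg _) hL.le
      _ = _ := mul_comm _ _

theorem adm_zero {α : ℝ → ℝ} {θ T : ℝ} (hT : 1 < T) (ha : H82SZ.Adm θ α) {n : ℕ} (hn : T ^ θ < n) :
    α (Real.log n / Real.log T) = 0 := by
  have hT0 : 0 < T := by linarith
  have hL : 0 < Real.log T := Real.log_pos hT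
  refine ha.zero _ ?_
  rw [le_div_iff₀ hL, ← Real.log_rpow hT0]
  exact Real.log_le_log (Real.rpow_pos_of_pos hT0 _) hn.le

/-- the error terms of `l * s₁ * f` are small -/
theorem esm_gen {c0 ε : ℝ} {α P : ℝ → ℝ} (hε : 0 < ε) (hε' : ε < 1 / 2) (ha : H82SZ.Adm (1 - ε) α)
    (hP : H82SZ.Adm (1 / 2 - ε) P) {l s1 : ArithmeticFunction ℝ} (hl : l = 1 ∨ l = Λ)
    (h1 : s1 = (ζ : ArithmeticFunction ℝ) ∨ s1 = ArithmeticFunction.log) :
    H82SZ.Esmall P (fun T => l * s1 * H82SZ.fk c0 α P T) := by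
  obtain ⟨X, hX1, hX⟩ := Adm.bdd hP
  obtain ⟨Y, hY1, hY⟩ := Adm.bdd ha
  set δ := min ε (1 / 4) with hδ
  have hδ0 : 0 < δ := lt_min hε (by norm_num)
  have hδ1 : δ ≤ 1 / 4 := min_le_right _ _
  have hδ2 : δ ≤ ε := min_le_left _ _
  have hP' : H82SZ.Adm (1 / 2 - δ) P := ⟨hP.smooth, hP.cpt, fun v hv => hP.zero v (by linarith)⟩
  have ha' : H82SZ.Adm (1 - δ) α := ⟨ha.smooth, ha.cpt, fun v hv => ha.zero v (by linarith)⟩
  -- the three parts
  have e1 : H82SZ.Esmall P (fun _ => l * s1 * 1 * (c0 • (1 : ArithmeticFunction ℝ))) := by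
    refine esmall_Cc hδ0 hδ1 hP' (G := 3 + |c0|) (T1 := 1) fun T hT => ?_
    refine cc_real (by linarith [abs_nonneg c0]) hl h1 (Or.inl rfl) (fun n => ?_) (fun n hn => ?_)
    · rw [smul_af, abs_mul]
      have h2 : |(1 : ArithmeticFunction ℝ) n| ≤ 1 := by
        by_cases h : n = 1
        · subst h; simp
        · rw [ArithmeticFunction.one_apply_ne h]; simp
      nlinarith [abs_nonneg c0]
    · have h2 : (1 : ℝ) ≤ T ^ (1 - δ) := Real.one_le_rpow hT (by linarith)
      have h3 : n ≠ 1 := by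
        rintro rfl
        push_cast at hn
        linarith
      rw [smul_af, ArithmeticFunction.one_apply_ne h3, mul_zero]
  have e2 : H82SZ.Esmall P (fun T => l * s1 * 1 * H82SZ.yk α T) := by
    refine esmall_Cc hδ0 hδ1 hP' (G := 3 + Y) (T1 := 2) fun T hT => ?_
    refine cc_real (by linarith) hl h1 (Or.inl rfl) (fun n => ?_) (fun n hn => ?_)
    · have := yk_bound (T := T) (by linarith) (by linarith) ha' hY n
      linarith
    · show ArithmeticFunction.vonMangoldt n * α (Real.log n / Real.log T) / Real.log T = 0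
      rw [adm_zero (by linarith) ha' hn]
      simp
  have e3 : H82SZ.Esmall P (fun T => l * s1 * ArithmeticFunction.log * H82SZ.xk P T) := by
    refine esmall_Cc hδ0 hδ1 hP' (G := 3 + X) (T1 := 2) fun T hT => ?_
    refine cc_real (by linarith) hl h1 (Or.inr (Or.inr rfl)) (fun n => ?_) (fun n hn => ?_)
    · have := norm_xk_le (P := P) (T := T) hX n
      rw [Complex.norm_real, Real.norm_eq_abs] at this
      linarith
    · refine xk_eq_zero hP' (by linarith) (le_trans ?_ hn.le)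
      exact Real.rpow_le_rpow_of_exponent_le (by linarith) (by linarith)
  have e4 : H82SZ.Esmall P (fun T => (Real.log T)⁻¹ • (l * s1 * ArithmeticFunction.log * H82SZ.xk P T)) := by
    refine Esmall_smul e3 (M := 1) (T1 := 3) fun T hT => ?_
    have hL : 1 ≤ Real.log T := by
      rw [Real.le_log_iff_exp_le (by linarith)]
      have := Real.exp_one_lt_d9
      linarith
    rw [abs_of_nonneg (by positivity)]
    exact inv_le_one_of_one_le₀ hL
  have e5 := Esmall_add (Esmall_add e1 e2) e4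
  refine cast (congrArg _ ?_) e5
  funext T
  unfold H82SZ.fk H82SZ.y0
  ext n
  simp only [mul_add, mul_one, mul_smul_comm, ArithmeticFunction.add_apply, smul_af]
  rw [mul_assoc (l * s1) ArithmeticFunction.log]

theorem esm_zeta {c0 ε : ℝ} {α P : ℝ → ℝ} (hε : 0 < ε) (hε' : ε < 1 / 2) (ha : H82SZ.Adm (1 - ε) α)
    (hP : H82SZ.Adm (1 / 2 - ε) P) : H82SZ.Esmall P (fun T => (ζ : ArithmeticFunction ℝ) * H82SZ.fk c0 α P T) := by
  have := esm_gen (c0 := c0) hε hε' ha hP (Or.inl rfl) (Or.inl rfl)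
  simpa only [one_mul] using this

theorem esm_log {c0 ε : ℝ} {α P : ℝ → ℝ} (hε : 0 < ε) (hε' : ε < 1 / 2) (ha : H82SZ.Adm (1 - ε) α)
    (hP : H82SZ.Adm (1 / 2 - ε) P) : H82SZ.Esmall P (fun T => ArithmeticFunction.log * H82SZ.fk c0 α P T) := by
  have := esm_gen (c0 := c0) hε hε' ha hP (Or.inl rfl) (Or.inr rfl)
  simpa only [one_mul] using this

theorem esm_Llog {c0 ε : ℝ} {α P : ℝ → ℝ} (hε : 0 < ε) (hε' : ε < 1 / 2) (ha : H82SZ.Adm (1 - ε) α)
    (hP : H82SZ.Adm (1 / 2 - ε) P) : H82SZ.Esmall P (fun T => Λ * ArithmeticFunction.log * H82SZ.fk c0 α P T) :=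
  esm_gen hε hε' ha hP (Or.inr rfl) (Or.inr rfl)

end SZE
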