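import Pool.Agent.H91.SZE.Wbv

/-!
# BR1: `D_j - Prj` as the sum bounded by Theorem E; closure of `Esmall`
-/

open Finset
open scoped ArithmeticFunction.vonMangoldt ArithmeticFunction.Moebius ArithmeticFunction.zeta

namespace SZE

/-- the complex version of a real arithmetic function -/
noncomputable def cx (f : ArithmeticFunction ℝ) : AF := ⟨fun n => (f n : ℂ), by simp⟩

@[simp] theorem cx_apply (f : ArithmeticFunction ℝ) (n : ℕ) : cx f n = (f n : ℂ) := rfl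

theorem cx_mul (f g : ArithmeticFunction ℝ) : cx (f * g) = cx f * cx g := by
  ext n
  simp [ArithmeticFunction.mul_apply]

theorem cx_one : cx (1 : ArithmeticFunction ℝ) = 1 := by
  ext n
  by_cases h : n = 1
  · subst h; simp
  · simp [ArithmeticFunction.one_apply_ne h]

theorem cx_vonMangoldt : cx Λ = aL := by
  ext n
  simp

theorem cx_zeta : cx (ζ : ArithmeticFunction ℝ) = smo 1 0 := by
  ext n
  by_cases h : n = 0 <;> simp [h]

theorem cx_log : cx (ArithmeticFunction.log) = smo 0 1 := by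
  ext n
  by_cases h : n = 0 <;> simp [h]

theorem xk_eq_zero {θ : ℝ} {P : ℝ → ℝ} (hP : H82SZ.Adm θ P) {T : ℝ} (hT : 1 < T) {k : ℕ} (hk : T ^ θ ≤ k) :
    H82SZ.xk P T k = 0 := by
  have hT0 : 0 < T := by linarith
  have hL : 0 < Real.log T := Real.log_pos hT
  have h1 : θ ≤ Real.log k / Real.log T := by
    rw [le_div_iff₀ hL, ← Real.log_rpow hT0]
    exact Real.log_le_log (Real.rpow_pos_of_pos hT0 _) hk
  show (ArithmeticFunction.moebius k : ℝ) * P (Real.log k / Real.log T) = 0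
  rw [hP.zero _ h1, mul_zero]

theorem xk_eq_zero_of_not_sq {P : ℝ → ℝ} {T : ℝ} {k : ℕ} (hk : ¬ Squarefree k) :
    H82SZ.xk P T k = 0 := by
  show (ArithmeticFunction.moebius k : ℝ) * P (Real.log k / Real.log T) = 0
  rw [ArithmeticFunction.moebius_eq_zero_of_not_squarefree hk]
  simp

theorem norm_xk_le {P : ℝ → ℝ} {T X : ℝ} (hX : ∀ v, |P v| ≤ X) (k : ℕ) : ‖((H82SZ.xk P T k : ℝ) : ℂ)‖ ≤ X := by
  show ‖(((ArithmeticFunction.moebius k : ℝ) * P (Real.log k / Real.log T) : ℝ) : ℂ)‖ ≤ X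
  rw [Complex.norm_real, norm_mul]
  have h1 : ‖(ArithmeticFunction.moebius k : ℝ)‖ ≤ 1 := by
    rw [Real.norm_eq_abs, ← Int.cast_abs]
    exact_mod_cast ArithmeticFunction.abs_moebius_le_one
  calc _ ≤ 1 * X := mul_le_mul h1 (hX _) (abs_nonneg _) zero_le_one
    _ = X := one_mul X

theorem Adm.bdd {θ : ℝ} {P : ℝ → ℝ} (hP : H82SZ.Adm θ P) : ∃ X : ℝ, 1 ≤ X ∧ ∀ v, |P v| ≤ X := by
  obtain ⟨X, hX⟩ := hP.cpt.exists_bound_of_continuous hP.smooth.continuous
  exact ⟨max X 1, le_max_right _ _, fun v => (hX v).trans (le_max_left _ _)⟩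

/-- `D_j - Prj` -/
theorem dj_sub {θ : ℝ} (hθ1 : θ ≤ 1) {P : ℝ → ℝ} (hP : H82SZ.Adm θ P) {T : ℝ} (hT : 3 ≤ T) (j : ℕ)
    (c : ArithmeticFunction ℝ) :
    H82SZ.Dj P T j c - (H82SZ.Prj P T j c : ℝ) = ∑ k ∈ (Icc 1 ⌊T ^ θ⌋₊).filter Squarefree,
      ((H82SZ.xk P T k : ℝ) : ℂ) / k * ∑ n ∈ Icc 1 (H82SZ.N0 T * k), cx c n * wlog T j ((n : ℝ) / k) * edif k n := by
  classical
  have hT0 : 0 < T := by linarith
  have h1 : H82SZ.Dj P T j c - (H82SZ.Prj P T j c : ℝ) = ∑ k ∈ Icc 1 (H82SZ.NT T),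
      ((H82SZ.xk P T k : ℝ) : ℂ) / k * ∑ n ∈ Icc 1 (H82SZ.N0 T * k), cx c n * wlog T j ((n : ℝ) / k) * edif k n := by
    unfold H82SZ.Dj H82SZ.Prj
    push_cast
    rw [← Finset.sum_sub_distrib]
    refine sum_congr rfl fun k hk => ?_
    rw [mem_Icc] at hk
    rw [← mul_sub, ← Finset.sum_sub_distrib]
    congr 1
    refine sum_congr rfl fun n hn => ?_
    rw [mem_Icc] at hn
    have hk0 : (0 : ℝ) < k := by exact_mod_cast hk.1
    have hkT : (k : ℝ) ≤ T := (Nat.le_floor_iff hT0.le).1 hk.2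
    have hn1 : (1 : ℝ) ≤ n := by exact_mod_cast hn.1
    have hr : 1 / T ≤ (n : ℝ) / k := by
      rw [div_le_div_iff₀ hT0 hk0]
      nlinarith
    rw [wlog_eq hr, cx_apply, edif, Nat.gcd_comm k n]
    push_cast
    ring
  rw [h1]
  symm
  apply Finset.sum_subset_zero_on_sdiff
  · intro k hk
    rw [mem_filter, mem_Icc] at hk
    rw [mem_Icc]
    refine ⟨hk.1.1, hk.1.2.trans (Nat.floor_le_floor ?_)⟩
    calc T ^ θ ≤ T ^ (1 : ℝ) := Real.rpow_le_rpow_of_exponent_le (by linarith) hθ1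
      _ = T := Real.rpow_one T
  · intro k hk
    rw [mem_sdiff, mem_filter, mem_Icc, mem_Icc] at hk
    have h2 : H82SZ.xk P T k = 0 := by
      by_cases hs : Squarefree k
      · have h3 : ⌊T ^ θ⌋₊ < k := by
          by_contra h
          exact hk.2 ⟨⟨hk.1.1, not_lt.1 h⟩, hs⟩
        exact xk_eq_zero hP (by linarith) ((Nat.floor_lt (Real.rpow_nonneg hT0.le _)).1 h3).le
      · exact xk_eq_zero_of_not_sq hs
    rw [h2]
    simp
  · intro k _
    rfl

theorem Dj_add (P : ℝ → ℝ) (T : ℝ) (j : ℕ) (c d : ArithmeticFunction ℝ) :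
    H82SZ.Dj P T j (c + d) = H82SZ.Dj P T j c + H82SZ.Dj P T j d := by
  unfold H82SZ.Dj
  rw [← Finset.sum_add_distrib]
  refine sum_congr rfl fun k _ => ?_
  rw [← mul_add, ← Finset.sum_add_distrib]
  congr 1
  refine sum_congr rfl fun n _ => ?_
  rw [ArithmeticFunction.add_apply]
  push_cast
  ring

theorem Prj_add (P : ℝ → ℝ) (T : ℝ) (j : ℕ) (c d : ArithmeticFunction ℝ) :
    H82SZ.Prj P T j (c + d) = H82SZ.Prj P T j c + H82SZ.Prj P T j d := by
  unfold H82SZ.Prj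
  rw [← Finset.sum_add_distrib]
  refine sum_congr rfl fun k _ => ?_
  rw [← mul_add, ← Finset.sum_add_distrib]
  congr 1
  refine sum_congr rfl fun n _ => ?_
  rw [ArithmeticFunction.add_apply]
  ring

theorem smul_af (a : ℝ) (c : ArithmeticFunction ℝ) (n : ℕ) : (a • c) n = a * c n := rfl

theorem Dj_smul (P : ℝ → ℝ) (T : ℝ) (j : ℕ) (a : ℝ) (c : ArithmeticFunction ℝ) :
    H82SZ.Dj P T j (a • c) = a * H82SZ.Dj P T j c := by
  unfold H82SZ.Dj
  rw [Finset.mul_sum]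
  refine sum_congr rfl fun k _ => ?_
  rw [Finset.mul_sum, Finset.mul_sum, Finset.mul_sum]
  refine sum_congr rfl fun n _ => ?_
  rw [smul_af]
  push_cast
  ring

theorem Prj_smul (P : ℝ → ℝ) (T : ℝ) (j : ℕ) (a : ℝ) (c : ArithmeticFunction ℝ) :
    H82SZ.Prj P T j (a • c) = a * H82SZ.Prj P T j c := by
  unfold H82SZ.Prj
  rw [Finset.mul_sum]
  refine sum_congr rfl fun k _ => ?_
  rw [Finset.mul_sum, Finset.mul_sum, Finset.mul_sum]
  refine sum_congr rfl fun n _ => ?_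
  rw [smul_af]
  ring

/-- `Esmall` is closed under sums -/
theorem Esmall_add {P : ℝ → ℝ} {c d : ℝ → ArithmeticFunction ℝ} (hc : H82SZ.Esmall P c) (hd : H82SZ.Esmall P d) :
    H82SZ.Esmall P (fun T => c T + d T) := by
  intro A j hj
  obtain ⟨C1, T1, h1⟩ := hc A j hj
  obtain ⟨C2, T2, h2⟩ := hd A j hj
  refine ⟨C1 + C2, max T1 T2, fun T hT => ?_⟩
  have h3 := h1 T ((le_max_left _ _).trans hT)
  have h4 := h2 T ((le_max_right _ _).trans hT)
  rw [Dj_add, Prj_add]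
  calc ‖H82SZ.Dj P T j (c T) + H82SZ.Dj P T j (d T) - ((H82SZ.Prj P T j (c T) + H82SZ.Prj P T j (d T) : ℝ) : ℂ)‖
      = ‖(H82SZ.Dj P T j (c T) - (H82SZ.Prj P T j (c T) : ℝ)) + (H82SZ.Dj P T j (d T) - (H82SZ.Prj P T j (d T) : ℝ))‖ := by
        congr 1
        push_cast
        ring
    _ ≤ C1 * T / Real.log T ^ A + C2 * T / Real.log T ^ A := (norm_add_le _ _).trans (add_le_add h3 h4)
    _ = _ := by ring

/-- `Esmall` is closed under bounded scalars -/
theorem Esmall_smul {P : ℝ → ℝ} {c : ℝ → ArithmeticFunction ℝ} (hc : H82SZ.Esmall P c) {a : ℝ → ℝ} {M T1 : ℝ}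
    (ha : ∀ T, T1 ≤ T → |a T| ≤ M) : H82SZ.Esmall P (fun T => a T • c T) := by
  intro A j hj
  obtain ⟨C1, T2, h1⟩ := hc A j hj
  refine ⟨|M| * |C1|, max (max T1 T2) 3, fun T hT => ?_⟩
  have hT1 : T1 ≤ T := (le_max_left _ _).trans ((le_max_left _ _).trans hT)
  have hT2 : T2 ≤ T := (le_max_right _ _).trans ((le_max_left _ _).trans hT)
  have hT3 : 3 ≤ T := (le_max_right _ _).trans hT
  have hT0 : 0 < T := by linarith
  have hL : 0 < Real.log T := Real.log_pos (by linarith)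
  rw [Dj_smul, Prj_smul]
  calc ‖(a T : ℂ) * H82SZ.Dj P T j (c T) - ((a T * H82SZ.Prj P T j (c T) : ℝ) : ℂ)‖
      = |a T| * ‖H82SZ.Dj P T j (c T) - (H82SZ.Prj P T j (c T) : ℝ)‖ := by
        rw [← Real.norm_eq_abs, ← Complex.norm_real, ← norm_mul]
        congr 1
        push_cast
        ring
    _ ≤ |M| * (|C1| * T / Real.log T ^ A) := by
        refine mul_le_mul ((ha T hT1).trans (le_abs_self M)) ((h1 T hT2).trans ?_) (norm_nonneg _) (abs_nonneg _)
        gcongr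
        exact le_abs_self C1
    _ = _ := by ring

end SZE
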