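import Pool.Agent.H91.SZE.Lst
import Pool.Agent.H91.SZE.PV

/-!
# CLS: the classes of factors
-/

open Finset H69LB BVL

namespace SZE

theorem BVs.le_of {G G' : ℝ} {N : ℕ} {s : ℕ → ℂ} (h : BVs G N s) (hG : G ≤ G') : BVs G' N s :=
  ⟨fun n h1 h2 => (h.1 n h1 h2).trans hG, h.2.trans hG⟩

theorem Sm.of_le {G G' : ℝ} {s : AF} (h : Sm G s) (hG : G ≤ G') : Sm G' s := fun N hN =>
  (h N hN).le_of (mul_le_mul_of_nonneg_right hG (by linarith [log_nn N]))

theorem Sm.db {G : ℝ} {s : AF} (h : Sm G s) : DB G 1 0 s := by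
  intro n hn
  have := (h n hn).1 n hn le_rfl
  simpa using this

theorem Sm.nonneg' {G : ℝ} {s : AF} (h : Sm G s) : 0 ≤ G := h.db.nonneg

theorem Sm.dil' {G : ℝ} {s : AF} (h : Sm G s) {d : ℕ} (hd : 1 ≤ d) : Sm (G * (1 + Real.log d)) (dil d s) := by
  intro N hN
  have h1 := BVs.dil hd (h (d * N) (Nat.mul_pos hd hN))
  have h2 := one_add_log_mul_le hd hN
  refine BVs.le_of h1 ?_
  rw [mul_assoc]
  exact mul_le_mul_of_nonneg_left h2 h.nonneg'

theorem Sm.zero : Sm 0 (0 : AF) := by
  intro N _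
  refine ⟨fun n _ _ => ?_, ?_⟩
  · simp
  · simp

theorem Sm.smo' {α β : ℂ} {G : ℝ} (h : ‖α‖ + 2 * ‖β‖ ≤ G) : Sm G (smo α β) := by
  intro N hN
  refine BVs.le_of (BVs.smo α β (N := N)) ?_
  have h1 := log_nn N
  have h2 := norm_nonneg α
  have h3 := norm_nonneg β
  nlinarith

theorem Cl.mono {G G' : ℝ} {A : ℕ} {f : AF} (h : Cl G A f) (hG : G ≤ G') : Cl G' A f := by
  rcases h with ⟨h1, h2⟩ | ⟨e, s, h1, h2, h3, h4⟩
  · exact Or.inl ⟨h1.mono hG le_rfl le_rfl, h2⟩
  · exact Or.inr ⟨e, s, h1, h2.trans hG, h3.of_le hG, h4⟩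

theorem Cl.db {G : ℝ} {A : ℕ} {f : AF} (h : Cl G A f) : DB G 1 1 f := by
  rcases h with ⟨h1, h2⟩ | ⟨e, s, h1, h2, h3, h4⟩
  · exact h1
  · rw [h4]
    exact (h3.db.mono le_rfl le_rfl (by norm_num)).cop e

theorem db_listProd {G : ℝ} (fs : List AF) (h : ∀ f ∈ fs, DB G 1 1 f) :
    DB (G ^ fs.length) fs.length (2 * fs.length) fs.prod := by
  induction fs with
  | nil => simpa using DB.one
  | cons f fs ih =>
    have h1 := h f List.mem_cons_self
    have h2 := ih fun g hg => h g (List.mem_cons_of_mem _ hg)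
    rw [List.prod_cons, List.length_cons]
    have h3 := h1.mul h2
    refine h3.mono (le_of_eq ?_) (by omega) (by omega)
    rw [pow_succ']

theorem dil_cop {d e : ℕ} (s : AF) (h : d.Coprime e) : dil d (cop e s) = cop e (dil d s) := by
  ext n
  rw [dil_apply, cop_apply, cop_apply, dil_apply]
  have h1 : (d * n).Coprime e ↔ n.Coprime e := by
    rw [Nat.coprime_mul_iff_left]
    exact ⟨fun h => h.2, fun h' => ⟨h, h'⟩⟩
  simp only [h1]

theorem dil_cop_zero {d e : ℕ} (s : AF) (h : ¬ d.Coprime e) : dil d (cop e s) = 0 := by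
  ext n
  rw [dil_apply, cop_apply, if_neg]
  · simp
  · rw [Nat.coprime_mul_iff_left]
    exact fun h' => h h'.1

theorem cop_one (s : AF) : s = cop 1 s := by
  ext n; simp

theorem Cl.rel {G : ℝ} {A : ℕ} {f g : AF} (h : Cl G A f) {d r : ℕ} (hd : 1 ≤ d) (hr : 1 ≤ r) (hR : Rel d r f g) :
    Cl (G * (1 + Real.log d) * tau d * tau r) A g := by
  obtain ⟨d1, d2, h12, hg⟩ := hR
  have hd1 : d1 ∣ d := (Dvd.intro _ rfl).trans h12
  have hd2 : d2 ∣ d := (Dvd.intro_left _ rfl).trans h12
  have p1 : 1 ≤ d1 := Nat.pos_of_dvd_of_pos hd1 hd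
  have p2 : 1 ≤ d2 := Nat.pos_of_dvd_of_pos hd2 hd
  have l0 := log_nn d1
  have l1 : Real.log d1 ≤ Real.log d := log_mono p1 (Nat.le_of_dvd hd hd1)
  have t1 := tau_dvd_le hd1 hd
  have t2 := tau_dvd_le hd2 hd
  have t3 := one_le_tau hd
  have t4 := one_le_tau hr
  have t5 := one_le_tau p1
  have t6 := one_le_tau p2
  have hG0 : 0 ≤ G := h.db.nonneg
  have lD : 0 ≤ Real.log d := log_nn d
  have big : G ≤ G * (1 + Real.log d) * tau d * tau r := by
    have a1 : G ≤ G * (1 + Real.log d) := le_mul_of_one_le_right hG0 (by linarith)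
    have a2 : G * (1 + Real.log d) ≤ G * (1 + Real.log d) * tau d := le_mul_of_one_le_right (by positivity) t3
    have a3 : G * (1 + Real.log d) * tau d ≤ G * (1 + Real.log d) * tau d * tau r :=
      le_mul_of_one_le_right (by positivity) t4
    linarith
  rcases h with ⟨h1, h2⟩ | ⟨e, s, h1, h2, h3, h5⟩
  · left
    refine ⟨?_, ?_⟩
    · rw [hg]
      refine ((h1.dil p1).cop _).mono ?_ le_rfl le_rfl
      rw [pow_one, pow_one]
      calc G * (1 + Real.log d1) * tau d1 ≤ G * (1 + Real.log d) * tau d := by gcongr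
        _ ≤ G * (1 + Real.log d) * tau d * tau r := le_mul_of_one_le_right (by positivity) t4
    · intro n hn
      rw [hg, cop_apply, dil_apply]
      have : f (d1 * n) = 0 := h2 _ (hn.trans_le (Nat.le_mul_of_pos_left n p1))
      rw [this]
      simp
  · right
    by_cases hc : d1.Coprime e
    · refine ⟨r * d2 * e, dil d1 s, ?_, ?_, ?_, ?_⟩
      · exact Nat.mul_pos (Nat.mul_pos hr p2) h1
      · have hG1 : 1 ≤ G := (one_le_tau h1).trans h2
        calc tau (r * d2 * e) ≤ tau (r * d2) * tau e := tau_mul_le _ _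
          _ ≤ (tau r * tau d2) * tau e := mul_le_mul_of_nonneg_right (tau_mul_le _ _) (tau_nonneg e)
          _ ≤ (tau r * tau d) * G := by
              have := tau_nonneg e
              gcongr
          _ = G * 1 * tau d * tau r := by ring
          _ ≤ G * (1 + Real.log d) * tau d * tau r := by
              gcongr
              linarith
      · refine (h3.dil' p1).of_le ?_
        have a1 : G * (1 + Real.log d1) ≤ G * (1 + Real.log d) := by gcongr
        have a2 : G * (1 + Real.log d) ≤ G * (1 + Real.log d) * tau d := le_mul_of_one_le_right (by positivity) t3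
        have a3 : G * (1 + Real.log d) * tau d ≤ G * (1 + Real.log d) * tau d * tau r :=
          le_mul_of_one_le_right (by positivity) t4
        linarith
      · rw [hg, h5, dil_cop s hc, cop_cop]
    · refine ⟨1, 0, le_rfl, ?_, Sm.zero.of_le (hG0.trans big), ?_⟩
      · rw [tau_one]
        exact ((one_le_tau h1).trans h2).trans big
      · rw [hg, h5, dil_cop_zero s hc, cop_zero]
        exact cop_one _

theorem Cl.relList {G : ℝ} {A : ℕ} {d r : ℕ} (hd : 1 ≤ d) (hr : 1 ≤ r) {fs gs : List AF}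
    (h : ∀ f ∈ fs, Cl G A f) (hR : List.Forall₂ (Rel d r) fs gs) :
    ∀ g ∈ gs, Cl (G * (1 + Real.log d) * tau d * tau r) A g := by
  induction hR with
  | nil => simp
  | cons hab _ ih =>
    intro g hg
    rw [List.mem_cons] at hg
    rcases hg with rfl | hg
    · exact (h _ List.mem_cons_self).rel hd hr hab
    · exact ih (fun f hf => h f (List.mem_cons_of_mem _ hf)) g hg

end SZE
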