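import Pool.Agent.H91.SZE.Ex

/-!
# CO: the sum over the moduli `k = d r q`
-/

open Finset H69LB BVL

namespace SZE

/-- rearrangement of a nonnegative sum over `k`, `d ∣ k`, `q ∣ k/d`, `q ≠ 1` -/
theorem co_rearrange (K : ℕ) (F : ℕ → ℕ → ℕ → ℝ) (hF : ∀ d r q, 0 ≤ F d r q) :
    ∑ k ∈ (Icc 1 K).filter Squarefree, ∑ d ∈ k.divisors, ∑ q ∈ (k / d).divisors.erase 1, F d (k / d / q) q
      ≤ ∑ d ∈ (Icc 1 K).filter Squarefree, ∑ r ∈ Icc 1 K, ∑ q ∈ (Icc 2 K).filter (fun q => d * r * q ≤ K), F d r q := by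
  classical
  simp only [Finset.sum_sigma']
  set S := ((Icc 1 K).filter Squarefree).sigma (fun k => k.divisors.sigma fun d => (k / d).divisors.erase 1) with hS
  set T := ((Icc 1 K).filter Squarefree).sigma (fun d => (Icc 1 K).sigma fun r => (Icc 2 K).filter (fun q => d * r * q ≤ K))
    with hT
  let e : (Σ _ : ℕ, Σ _ : ℕ, ℕ) → (Σ _ : ℕ, Σ _ : ℕ, ℕ) := fun s => ⟨s.2.1, ⟨s.1 / s.2.1 / s.2.2, s.2.2⟩⟩
  have hmem : ∀ s ∈ S, s.1 = s.2.1 * (s.1 / s.2.1 / s.2.2) * s.2.2 ∧ 1 ≤ s.2.1 ∧ 1 ≤ s.1 / s.2.1 / s.2.2 ∧ 2 ≤ s.2.2 ∧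
      s.1 ≤ K ∧ Squarefree s.1 := by
    intro s hs
    obtain ⟨k, d, q⟩ := s
    simp only [hS, mem_sigma, mem_filter, mem_Icc, Nat.mem_divisors, mem_erase] at hs
    obtain ⟨⟨⟨hk1, hk2⟩, hsq⟩, ⟨hdk, _⟩, hq1, hqk, hkd⟩ := hs
    have hd0 : 0 < d := Nat.pos_of_dvd_of_pos hdk hk1
    have hq0 : 0 < q := Nat.pos_of_dvd_of_pos hqk (Nat.pos_of_ne_zero hkd)
    refine ⟨?_, hd0, ?_, by show 2 ≤ q; omega, hk2, hsq⟩
    · show k = d * (k / d / q) * q
      rw [mul_assoc, Nat.div_mul_cancel hqk, Nat.mul_div_cancel' hdk]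
    · show 1 ≤ k / d / q
      exact Nat.div_pos (Nat.le_of_dvd (Nat.pos_of_ne_zero hkd) hqk) hq0
  have hinj : Set.InjOn e (S : Set _) := by
    intro s hs t ht hst
    have h1 := (hmem s hs).1
    have h2 := (hmem t ht).1
    obtain ⟨k, d, q⟩ := s
    obtain ⟨k', d', q'⟩ := t
    simp only [e, Sigma.mk.injEq, heq_eq_eq] at hst
    obtain ⟨hd, hr, hq⟩ := hst
    simp only at h1 h2
    subst hd
    subst hq
    have : k = k' := by rw [h1, h2, hr]
    subst this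
    rfl
  have hsub : S.image e ⊆ T := by
    intro t ht
    obtain ⟨s, hs, rfl⟩ := mem_image.1 ht
    obtain ⟨h1, h2, h3, h4, h5, h6⟩ := hmem s hs
    obtain ⟨k, d, q⟩ := s
    simp only at h1 h2 h3 h4 h5 h6
    simp only [hT, e, mem_sigma, mem_filter, mem_Icc]
    have hle : d * (k / d / q) * q ≤ K := h1 ▸ h5
    have hr0 : 0 < k / d / q := h3
    refine ⟨⟨⟨h2, ?_⟩, ?_⟩, ⟨h3, ?_⟩, ⟨h4, ?_⟩, hle⟩
    · refine le_trans ?_ hle
      rw [mul_assoc]
      exact Nat.le_mul_of_pos_right d (Nat.mul_pos hr0 (by omega))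
    · refine h6.squarefree_of_dvd ⟨(k / d / q) * q, ?_⟩
      rw [← mul_assoc]; exact h1
    · refine le_trans ?_ hle
      calc k / d / q ≤ d * (k / d / q) := Nat.le_mul_of_pos_left _ (by omega)
        _ ≤ d * (k / d / q) * q := Nat.le_mul_of_pos_right _ (by omega)
    · refine le_trans ?_ hle
      exact Nat.le_mul_of_pos_left _ (Nat.mul_pos (by omega) hr0)
  calc ∑ s ∈ S, F s.2.1 (s.1 / s.2.1 / s.2.2) s.2.2 = ∑ s ∈ S, (fun t : (Σ _ : ℕ, Σ _ : ℕ, ℕ) => F t.1 t.2.1 t.2.2) (e s) :=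
        sum_congr rfl fun s _ => rfl
    _ = ∑ t ∈ S.image e, F t.1 t.2.1 t.2.2 :=
        (Finset.sum_image (f := fun t : (Σ _ : ℕ, Σ _ : ℕ, ℕ) => F t.1 t.2.1 t.2.2) hinj).symm
    _ ≤ ∑ t ∈ T, F t.1 t.2.1 t.2.2 := Finset.sum_le_sum_of_subset_of_nonneg hsub fun t _ _ => hF _ _ _

/-- the sum over all moduli -/
theorem co_bound {N0 K : ℕ} (hN0 : 1 ≤ N0) {x : ℕ → ℂ} {X : ℝ} (hx : ∀ k, ‖x k‖ ≤ X) {w : ℝ → ℂ} {V : ℝ}
    (hw : BVw V w N0) (c : AF) :
    ‖∑ k ∈ (Icc 1 K).filter Squarefree, x k / k * ∑ n ∈ Icc 1 (N0 * k), c n * w ((n : ℝ) / k) * edif k n‖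
      ≤ X * V * ∑ d ∈ (Icc 1 K).filter Squarefree, ∑ r ∈ Icc 1 K, ∑ q ∈ (Icc 2 K).filter (fun q => d * r * q ≤ K),
        1 / ((d : ℝ) * (r * Nat.totient r)) * (1 / (√q * Nat.totient q)) *
          ∑ ψ ∈ pc q, MX (cop r (dil d c)) ψ (N0 * r * q) := by
  classical
  have hX : 0 ≤ X := (norm_nonneg _).trans (hx 0)
  have hV : 0 ≤ V := by
    have := hw 1 le_rfl
    exact (add_nonneg (norm_nonneg _) (sum_nonneg fun _ _ => norm_nonneg _)).trans this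
  refine le_trans ?_ (mul_le_mul_of_nonneg_left (co_rearrange K
    (fun d r q => 1 / ((d : ℝ) * (r * Nat.totient r)) * (1 / (√q * Nat.totient q)) *
      ∑ ψ ∈ pc q, MX (cop r (dil d c)) ψ (N0 * r * q)) fun d r q => ?_) (mul_nonneg hX hV))
  · refine (norm_sum_le _ _).trans ?_
    rw [Finset.mul_sum]
    refine sum_le_sum fun k hk => ?_
    rw [mem_filter, mem_Icc] at hk
    obtain ⟨⟨hk1, hk2⟩, hsq⟩ := hk
    have hkR : (0 : ℝ) < k := by exact_mod_cast hk1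
    rw [norm_mul, norm_div, Complex.norm_natCast]
    have h1 := ex_bound hsq hN0 hw c
    have h2 : ‖x k‖ / (k : ℝ) ≤ X / k := div_le_div_of_nonneg_right (hx k) hkR.le
    refine (mul_le_mul h2 h1 (norm_nonneg _) (by positivity)).trans (le_of_eq ?_)
    have h3 : X / (k : ℝ) * (V * ∑ d ∈ k.divisors, ((Nat.totient (k / d) : ℝ))⁻¹ * ∑ q ∈ (k / d).divisors.erase 1,
        ∑ ψ ∈ pc q, √q * MX (cop (k / d / q) (dil d c)) ψ (N0 * (k / d)))
        = X * V * ((1 / (k : ℝ)) * ∑ d ∈ k.divisors, ((Nat.totient (k / d) : ℝ))⁻¹ * ∑ q ∈ (k / d).divisors.erase 1,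
        ∑ ψ ∈ pc q, √q * MX (cop (k / d / q) (dil d c)) ψ (N0 * (k / d))) := by ring
    rw [h3]
    congr 1
    rw [Finset.mul_sum]
    refine sum_congr rfl fun d hd => ?_
    obtain ⟨hdk, _⟩ := Nat.mem_divisors.1 hd
    have hd0 : 0 < d := Nat.pos_of_dvd_of_pos hdk hk1
    obtain ⟨m, rfl⟩ := hdk
    rw [Nat.mul_div_cancel_left m hd0]
    have hm0 : 0 < m := Nat.pos_of_ne_zero (hsq.squarefree_of_dvd (dvd_mul_left m d)).ne_zero
    rw [← mul_assoc, Finset.mul_sum]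
    refine sum_congr rfl fun q hq => ?_
    rw [mem_erase, Nat.mem_divisors] at hq
    obtain ⟨hq1, hqm, _⟩ := hq
    have hq0 : 0 < q := Nat.pos_of_dvd_of_pos hqm hm0
    obtain ⟨r, rfl⟩ := hqm
    rw [Nat.mul_div_cancel_left r hq0]
    have hr0 : 0 < r := by
      rcases Nat.eq_zero_or_pos r with h | h
      · subst h; omega
      · exact h
    have hcop : Nat.Coprime q r := by
      have hs2 : Squarefree (q * r) := hsq.squarefree_of_dvd (dvd_mul_left (q * r) d)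
      exact Nat.coprime_of_squarefree_mul hs2
    rw [Nat.totient_mul hcop, ← Finset.mul_sum]
    have e1 : N0 * (q * r) = N0 * r * q := by ring
    rw [e1]
    have hqs : √(q : ℝ) * √(q : ℝ) = q := Real.mul_self_sqrt (by positivity)
    have hq' : (0 : ℝ) < q := by exact_mod_cast hq0
    have hr' : (0 : ℝ) < r := by exact_mod_cast hr0
    have hd' : (0 : ℝ) < d := by exact_mod_cast hd0
    have hpq : (0 : ℝ) < Nat.totient q := by exact_mod_cast Nat.totient_pos.2 hq0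
    have hpr : (0 : ℝ) < Nat.totient r := by exact_mod_cast Nat.totient_pos.2 hr0
    have hsq0 : 0 < √(q : ℝ) := Real.sqrt_pos.2 hq'
    have e2 : 1 / ((d * (q * r) : ℕ) : ℝ) * ((Nat.totient q * Nat.totient r : ℕ) : ℝ)⁻¹ * √(q : ℝ)
        = 1 / ((d : ℝ) * (r * Nat.totient r)) * (1 / (√q * Nat.totient q)) := by
      push_cast
      rw [one_div, one_div, one_div, ← mul_inv, ← mul_inv, ← div_eq_inv_mul, ← one_div, div_eq_div_iff (by positivity) (by positivity)]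
      calc √(q : ℝ) * ((d : ℝ) * (r * Nat.totient r) * (√q * Nat.totient q))
          = (√(q : ℝ) * √(q : ℝ)) * ((d : ℝ) * (r * Nat.totient r) * Nat.totient q) := by ring
        _ = 1 * ((d : ℝ) * (q * r) * (Nat.totient q * Nat.totient r)) := by rw [hqs]; ring
    rw [← mul_assoc, e2]
  · refine mul_nonneg (by positivity) (sum_nonneg fun _ _ => MX_nonneg _ _ _)

end SZE
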