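import Pool.Agent.H91.SZE.Defs
import Pool.Agent.H69.LB.Div

/-!
# COE: coefficient bounds, moments of the divisor function, elementary properties of `Er`
-/

open Finset H69LB BVL

namespace SZE

theorem one_le_tau {n : ℕ} (hn : 1 ≤ n) : 1 ≤ tau n := by
  unfold tau
  exact_mod_cast Finset.card_pos.2 ⟨1, by simp; omega⟩

theorem tau_nonneg (n : ℕ) : 0 ≤ tau n := by unfold tau; positivity

theorem tau_one : tau 1 = 1 := by simp [tau]

theorem tau_mul_le (a b : ℕ) : tau (a * b) ≤ tau a * tau b := by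
  unfold tau
  rw [Nat.divisors_mul]
  exact_mod_cast Finset.card_mul_le

theorem tau_dvd_le {a b : ℕ} (h : a ∣ b) (hb : 1 ≤ b) : tau a ≤ tau b := by
  unfold tau
  exact_mod_cast Finset.card_le_card (Nat.divisors_subset_of_dvd (by omega) h)

theorem log_nn (n : ℕ) : 0 ≤ Real.log n := Real.log_natCast_nonneg n

theorem log_mono {a b : ℕ} (ha : 1 ≤ a) (h : a ≤ b) : Real.log a ≤ Real.log b :=
  Real.log_le_log (by exact_mod_cast ha) (by exact_mod_cast h)

theorem DB.nonneg {G : ℝ} {j m : ℕ} {f : AF} (h : DB G j m f) : 0 ≤ G := by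
  have := (norm_nonneg _).trans (h 1 le_rfl)
  simpa [tau] using this

theorem DB.mono {G G' : ℝ} {j j' m m' : ℕ} {f : AF} (h : DB G j m f) (hG : G ≤ G') (hj : j ≤ j') (hm : m ≤ m') :
    DB G' j' m' f := by
  intro n hn
  have hG0 := h.nonneg
  have h1 : (1 : ℝ) ≤ 1 + Real.log n := by linarith [log_nn n]
  have h2 := one_le_tau hn
  have h3 : (1 + Real.log n) ^ j ≤ (1 + Real.log n) ^ j' := pow_le_pow_right₀ h1 hj
  have h4 : tau n ^ m ≤ tau n ^ m' := pow_le_pow_right₀ h2 hm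
  refine (h n hn).trans ?_
  have h5 : 0 ≤ tau n ^ m := pow_nonneg (tau_nonneg n) m
  have h6 : 0 ≤ (1 + Real.log n) ^ j := by positivity
  calc G * (1 + Real.log n) ^ j * tau n ^ m ≤ G' * (1 + Real.log n) ^ j' * tau n ^ m := by
        refine mul_le_mul_of_nonneg_right ?_ h5
        exact mul_le_mul hG h3 h6 (hG0.trans hG)
    _ ≤ _ := by
        refine mul_le_mul_of_nonneg_left h4 ?_
        have := hG0.trans hG
        positivity

theorem DB.mul {F G : ℝ} {j j' m m' : ℕ} {f g : AF} (hf : DB F j m f) (hg : DB G j' m' g) :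
    DB (F * G) (j + j') (m + m' + 1) (f * g) := by
  intro n hn
  have hF := hf.nonneg
  have hG := hg.nonneg
  have ht := tau_nonneg n
  have hl : (0 : ℝ) ≤ 1 + Real.log n := by linarith [log_nn n]
  rw [ArithmeticFunction.mul_apply]
  refine (norm_sum_le _ _).trans ?_
  have key : ∀ p ∈ n.divisorsAntidiagonal, ‖f p.1 * g p.2‖ ≤
      F * G * (1 + Real.log n) ^ (j + j') * tau n ^ (m + m') := by
    intro p hp
    rw [Nat.mem_divisorsAntidiagonal] at hp
    obtain ⟨hp1, hp2⟩ := hp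
    have ha : 1 ≤ p.1 := Nat.one_le_iff_ne_zero.2 (by rintro h; rw [h] at hp1; simp at hp1; omega)
    have hb : 1 ≤ p.2 := Nat.one_le_iff_ne_zero.2 (by rintro h; rw [h] at hp1; simp at hp1; omega)
    have ha' : p.1 ∣ n := ⟨p.2, hp1.symm⟩
    have hb' : p.2 ∣ n := ⟨p.1, by rw [mul_comm]; exact hp1.symm⟩
    have la : Real.log p.1 ≤ Real.log n := log_mono ha (Nat.le_of_dvd hn ha')
    have lb : Real.log p.2 ≤ Real.log n := log_mono hb (Nat.le_of_dvd hn hb')
    have l0a := log_nn p.1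
    have l0b := log_nn p.2
    have ta := tau_dvd_le ha' hn
    have tb := tau_dvd_le hb' hn
    have t0a := tau_nonneg p.1
    have t0b := tau_nonneg p.2
    rw [norm_mul, pow_add, pow_add]
    calc ‖f p.1‖ * ‖g p.2‖ ≤ (F * (1 + Real.log p.1) ^ j * tau p.1 ^ m) * (G * (1 + Real.log p.2) ^ j' * tau p.2 ^ m') :=
          mul_le_mul (hf _ ha) (hg _ hb) (norm_nonneg _) (by positivity)
      _ ≤ (F * (1 + Real.log n) ^ j * tau n ^ m) * (G * (1 + Real.log n) ^ j' * tau n ^ m') := by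
          gcongr
      _ = _ := by ring
  refine (sum_le_sum key).trans ?_
  rw [sum_const, nsmul_eq_mul]
  have e : ((n.divisorsAntidiagonal.card : ℕ) : ℝ) = tau n := by
    unfold tau
    rw [← Nat.map_div_right_divisors, Finset.card_map]
  rw [e, pow_succ (tau n) (m + m')]
  exact le_of_eq (by ring)

theorem DB.cop {G : ℝ} {j m : ℕ} {f : AF} (h : DB G j m f) (e : ℕ) : DB G j m (cop e f) := by
  intro n hn
  have hG := h.nonneg
  rw [cop_apply]
  split_ifs
  · exact h n hn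
  · rw [norm_zero]
    have := log_nn n
    have := tau_nonneg n
    positivity

theorem DB.cut {G : ℝ} {j m : ℕ} {f : AF} (h : DB G j m f) (U V : ℕ) : DB G j m (cut U V f) := by
  intro n hn
  have hG := h.nonneg
  rw [cut_apply]
  split_ifs
  · exact h n hn
  · rw [norm_zero]
    have := log_nn n
    have := tau_nonneg n
    positivity

theorem DB.cutG {G : ℝ} {j m : ℕ} {f : AF} (h : DB G j m f) (U : ℕ) : DB G j m (cutG U f) := by
  intro n hn
  have hG := h.nonneg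
  rw [cutG_apply]
  split_ifs
  · exact h n hn
  · rw [norm_zero]
    have := log_nn n
    have := tau_nonneg n
    positivity

theorem one_add_log_mul_le {d n : ℕ} (hd : 1 ≤ d) (hn : 1 ≤ n) :
    1 + Real.log ((d * n : ℕ) : ℝ) ≤ (1 + Real.log d) * (1 + Real.log n) := by
  have h1 := log_nn d
  have h2 := log_nn n
  rw [Nat.cast_mul, Real.log_mul (by positivity) (by positivity)]
  nlinarith

theorem DB.dil {G : ℝ} {j m : ℕ} {f : AF} (h : DB G j m f) {d : ℕ} (hd : 1 ≤ d) :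
    DB (G * (1 + Real.log d) ^ j * tau d ^ m) j m (dil d f) := by
  intro n hn
  have hG := h.nonneg
  have hdn : 1 ≤ d * n := Nat.mul_pos hd hn
  rw [dil_apply]
  refine (h _ hdn).trans ?_
  have h1 := one_add_log_mul_le hd hn
  have h2 := tau_mul_le d n
  have h3 := log_nn d
  have h4 := log_nn n
  have h5 := log_nn (d * n)
  have h6 := tau_nonneg d
  have h7 := tau_nonneg n
  have h8 := tau_nonneg (d * n)
  calc G * (1 + Real.log ((d * n : ℕ) : ℝ)) ^ j * tau (d * n) ^ m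
      ≤ G * ((1 + Real.log d) * (1 + Real.log n)) ^ j * (tau d * tau n) ^ m := by
        have h5' : (0 : ℝ) ≤ 1 + Real.log ((d * n : ℕ) : ℝ) := by linarith
        gcongr
    _ = _ := by rw [mul_pow, mul_pow]; ring

theorem DB.smo {G : ℝ} {α β : ℂ} (hα : ‖α‖ ≤ G) (hβ : ‖β‖ ≤ G) : DB G 1 0 (smo α β) := by
  intro n hn
  rw [smo_apply, if_neg (by omega)]
  have h1 := log_nn n
  refine (norm_add_le _ _).trans ?_
  rw [norm_mul, Complex.norm_real, Real.norm_of_nonneg h1, pow_one, pow_zero, mul_one]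
  nlinarith

theorem DB.one : DB 1 0 0 (1 : AF) := by
  intro n hn
  rw [ArithmeticFunction.one_apply]
  split_ifs <;> simp

theorem DB.aL : DB 1 1 0 aL := by
  intro n hn
  rw [aL_apply, Complex.norm_real, Real.norm_of_nonneg ArithmeticFunction.vonMangoldt_nonneg]
  have := @ArithmeticFunction.vonMangoldt_le_log n
  simp only [one_mul, pow_one, pow_zero, mul_one]
  linarith

theorem DB.aM : DB 1 0 0 aM := by
  intro n hn
  rw [aM_apply, Complex.norm_intCast]
  have h : |ArithmeticFunction.moebius n| ≤ 1 := ArithmeticFunction.abs_moebius_le_one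
  simp only [one_mul, pow_zero]
  exact_mod_cast h

/-- rearrangement of sums over the divisors -/
theorem sum_pairs {M : Type*} [AddCommMonoid M] (N : ℕ) (f : ℕ → ℕ → M) :
    ∑ k ∈ Icc 1 N, ∑ x ∈ k.divisorsAntidiagonal, f x.1 x.2 =
      ∑ a ∈ Icc 1 N, ∑ b ∈ Icc 1 (N / a), f a b := by
  rw [Finset.sum_sigma', Finset.sum_sigma']
  refine Finset.sum_bij' (fun x _ => ⟨x.2.1, x.2.2⟩) (fun y _ => ⟨y.1 * y.2, (y.1, y.2)⟩)
    ?_ ?_ ?_ ?_ ?_
  · rintro ⟨k, a, b⟩ h
    simp only [Finset.mem_sigma, Finset.mem_Icc, Nat.mem_divisorsAntidiagonal] at h ⊢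
    obtain ⟨⟨hk1, hk2⟩, rfl, hk3⟩ := h
    have ha : 0 < a := Nat.pos_of_ne_zero (by rintro rfl; simp at hk3)
    have hb : 0 < b := Nat.pos_of_ne_zero (by rintro rfl; simp at hk3)
    refine ⟨⟨ha, ?_⟩, hb, ?_⟩
    · exact (Nat.le_mul_of_pos_right a hb).trans hk2
    · rw [Nat.le_div_iff_mul_le ha, mul_comm]; exact hk2
  · rintro ⟨a, b⟩ h
    simp only [Finset.mem_sigma, Finset.mem_Icc, Nat.mem_divisorsAntidiagonal] at h ⊢
    obtain ⟨⟨ha1, ha2⟩, hb1, hb2⟩ := h
    rw [Nat.le_div_iff_mul_le ha1, mul_comm] at hb2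
    have : 0 < a * b := Nat.mul_pos ha1 hb1
    exact ⟨⟨this, hb2⟩, trivial, this.ne'⟩
  · rintro ⟨k, a, b⟩ h
    simp only [Finset.mem_sigma, Finset.mem_Icc, Nat.mem_divisorsAntidiagonal] at h ⊢
    obtain ⟨⟨hk1, hk2⟩, rfl, hk3⟩ := h
    rfl
  · rintro ⟨a, b⟩ h
    rfl
  · rintro ⟨k, a, b⟩ h
    rfl

theorem tau_eq (n : ℕ) : tau n = ∑ _x ∈ n.divisorsAntidiagonal, (1 : ℝ) := by
  unfold tau
  rw [Finset.sum_const, nsmul_eq_mul, mul_one, ← Nat.map_div_right_divisors, Finset.card_map]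

theorem tau_pow_succ_le (m n : ℕ) :
    tau n ^ (m + 1) ≤ ∑ x ∈ n.divisorsAntidiagonal, tau x.1 ^ m * tau x.2 ^ m := by
  rw [pow_succ]
  nth_rewrite 2 [tau_eq]
  rw [mul_sum]
  refine sum_le_sum fun x hx => ?_
  rw [Nat.mem_divisorsAntidiagonal] at hx
  rw [mul_one, ← mul_pow, ← hx.1]
  exact pow_le_pow_left₀ (tau_nonneg _) (tau_mul_le _ _) m

theorem sum_tau_pow_div (m N : ℕ) : ∑ n ∈ Icc 1 N, tau n ^ m / n ≤ (1 + Real.log N) ^ (2 ^ m) := by
  induction m with
  | zero =>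
    simp only [pow_zero, pow_one, one_div]
    exact sum_inv_le N
  | succ m ih =>
    have hL := log_nn N
    have h1 : ∑ n ∈ Icc 1 N, tau n ^ (m + 1) / n ≤
        ∑ n ∈ Icc 1 N, ∑ x ∈ n.divisorsAntidiagonal, (tau x.1 ^ m / x.1) * (tau x.2 ^ m / x.2) := by
      refine sum_le_sum fun n hn => ?_
      have hn0 : (0 : ℝ) < n := by
        rw [mem_Icc] at hn
        exact_mod_cast hn.1
      rw [div_le_iff₀ hn0]
      refine (tau_pow_succ_le m n).trans ?_
      rw [sum_mul]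
      refine sum_le_sum fun x hx => ?_
      rw [Nat.mem_divisorsAntidiagonal] at hx
      have h2 : (n : ℝ) = x.1 * x.2 := by exact_mod_cast hx.1.symm
      have hx1 : (x.1 : ℝ) ≠ 0 := by
        intro h
        rw [h, zero_mul] at h2
        linarith
      have hx2 : (x.2 : ℝ) ≠ 0 := by
        intro h
        rw [h, mul_zero] at h2
        linarith
      rw [h2]
      exact le_of_eq (by field_simp)
    refine h1.trans ?_
    rw [sum_pairs N (fun a b => (tau a ^ m / a) * (tau b ^ m / b))]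
    have h3 : ∀ a ∈ Icc 1 N, ∑ b ∈ Icc 1 (N / a), (tau a ^ m / a) * (tau b ^ m / b) ≤
        (tau a ^ m / a) * (1 + Real.log N) ^ (2 ^ m) := by
      intro a _
      rw [← mul_sum]
      have ha : 0 ≤ tau a ^ m / a := by
        have := tau_nonneg a
        positivity
      refine mul_le_mul_of_nonneg_left (le_trans ?_ ih) ha
      refine sum_le_sum_of_subset_of_nonneg (Icc_subset_Icc_right (Nat.div_le_self _ _)) ?_
      intro b _ _
      have := tau_nonneg b
      positivity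
    refine (sum_le_sum h3).trans ?_
    rw [← sum_mul, pow_succ 2 m, mul_two, pow_add]
    exact mul_le_mul_of_nonneg_right ih (by positivity)

theorem sum_tau_pow (m N : ℕ) : ∑ n ∈ Icc 1 N, tau n ^ m ≤ N * (1 + Real.log N) ^ (2 ^ m - 1) := by
  induction m generalizing N with
  | zero => simp
  | succ m ih =>
    have hL := log_nn N
    have h1 : ∑ n ∈ Icc 1 N, tau n ^ (m + 1) ≤
        ∑ n ∈ Icc 1 N, ∑ x ∈ n.divisorsAntidiagonal, tau x.1 ^ m * tau x.2 ^ m :=
      sum_le_sum fun n _ => tau_pow_succ_le m n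
    refine h1.trans ?_
    rw [sum_pairs N (fun a b => tau a ^ m * tau b ^ m)]
    have h3 : ∀ a ∈ Icc 1 N, ∑ b ∈ Icc 1 (N / a), tau a ^ m * tau b ^ m ≤
        (tau a ^ m / a) * (N * (1 + Real.log N) ^ (2 ^ m - 1)) := by
      intro a ha
      rw [mem_Icc] at ha
      have ha0 : (0 : ℝ) < a := by exact_mod_cast ha.1
      rw [← mul_sum]
      have h4 : ((N / a : ℕ) : ℝ) ≤ (N : ℝ) / a := Nat.cast_div_le
      have h5 : Real.log ((N / a : ℕ) : ℝ) ≤ Real.log N := by
        rcases Nat.eq_zero_or_pos (N / a) with h | h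
        · rw [h]
          simpa using hL
        · exact log_mono h (Nat.div_le_self _ _)
      have h6 := log_nn (N / a)
      have h7 : ∑ b ∈ Icc 1 (N / a), tau b ^ m ≤ (N : ℝ) / a * (1 + Real.log N) ^ (2 ^ m - 1) := by
        refine (ih (N / a)).trans ?_
        gcongr
      have h8 : 0 ≤ tau a ^ m := pow_nonneg (tau_nonneg a) m
      calc tau a ^ m * ∑ b ∈ Icc 1 (N / a), tau b ^ m
          ≤ tau a ^ m * ((N : ℝ) / a * (1 + Real.log N) ^ (2 ^ m - 1)) := mul_le_mul_of_nonneg_left h7 h8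
        _ = _ := by ring
    refine (sum_le_sum h3).trans ?_
    rw [← sum_mul]
    have h9 : 2 ^ (m + 1) - 1 = 2 ^ m + (2 ^ m - 1) := by
      have : 1 ≤ 2 ^ m := Nat.one_le_two_pow
      rw [pow_succ]
      omega
    rw [h9, pow_add]
    calc (∑ i ∈ Icc 1 N, tau i ^ m / i) * (N * (1 + Real.log N) ^ (2 ^ m - 1))
        ≤ (1 + Real.log N) ^ (2 ^ m) * (N * (1 + Real.log N) ^ (2 ^ m - 1)) :=
          mul_le_mul_of_nonneg_right (sum_tau_pow_div m N) (by positivity)
      _ = _ := by ring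

theorem one_le_log1 (N : ℕ) : 1 ≤ 1 + Real.log N := by linarith [log_nn N]

theorem DB.sum_le {G : ℝ} {j m : ℕ} {f : AF} (h : DB G j m f) (N : ℕ) :
    ∑ n ∈ Icc 1 N, ‖f n‖ ≤ G * N * (1 + Real.log N) ^ (j + 2 ^ m) := by
  have hG := h.nonneg
  have hL := log_nn N
  have h1 : ∀ n ∈ Icc 1 N, ‖f n‖ ≤ G * (1 + Real.log N) ^ j * tau n ^ m := by
    intro n hn
    rw [mem_Icc] at hn
    refine (h n hn.1).trans ?_
    have h2 := log_mono hn.1 hn.2
    have h3 := log_nn n
    have h4 := tau_nonneg n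
    gcongr
  refine (sum_le_sum h1).trans ?_
  rw [← mul_sum]
  have h5 : (1 + Real.log N) ^ (2 ^ m - 1) ≤ (1 + Real.log N) ^ (2 ^ m) :=
    pow_le_pow_right₀ (one_le_log1 N) (Nat.sub_le _ _)
  calc G * (1 + Real.log N) ^ j * ∑ i ∈ Icc 1 N, tau i ^ m
      ≤ G * (1 + Real.log N) ^ j * (N * (1 + Real.log N) ^ (2 ^ m)) := by
        refine mul_le_mul_of_nonneg_left ((sum_tau_pow m N).trans ?_) (by positivity)
        gcongr
    _ = _ := by rw [pow_add]; ring

theorem DB.sum_sq_le {G : ℝ} {j m : ℕ} {f : AF} (h : DB G j m f) (N : ℕ) :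
    ∑ n ∈ Icc 1 N, ‖f n‖ ^ 2 ≤ G ^ 2 * N * (1 + Real.log N) ^ (2 * j + 2 ^ (2 * m)) := by
  have hG := h.nonneg
  have hL := log_nn N
  have h1 : ∀ n ∈ Icc 1 N, ‖f n‖ ^ 2 ≤ G ^ 2 * (1 + Real.log N) ^ (2 * j) * tau n ^ (2 * m) := by
    intro n hn
    rw [mem_Icc] at hn
    have h2 := log_mono hn.1 hn.2
    have h3 := log_nn n
    have h4 := tau_nonneg n
    have h5 : ‖f n‖ ≤ G * (1 + Real.log N) ^ j * tau n ^ m := by
      refine (h n hn.1).trans ?_
      gcongr
    calc ‖f n‖ ^ 2 ≤ (G * (1 + Real.log N) ^ j * tau n ^ m) ^ 2 := pow_le_pow_left₀ (norm_nonneg _) h5 2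
      _ = _ := by ring
  refine (sum_le_sum h1).trans ?_
  rw [← mul_sum]
  have h5 : (1 + Real.log N) ^ (2 ^ (2 * m) - 1) ≤ (1 + Real.log N) ^ (2 ^ (2 * m)) :=
    pow_le_pow_right₀ (one_le_log1 N) (Nat.sub_le _ _)
  calc G ^ 2 * (1 + Real.log N) ^ (2 * j) * ∑ i ∈ Icc 1 N, tau i ^ (2 * m)
      ≤ G ^ 2 * (1 + Real.log N) ^ (2 * j) * (N * (1 + Real.log N) ^ (2 ^ (2 * m))) := by
        refine mul_le_mul_of_nonneg_left ((sum_tau_pow (2 * m) N).trans ?_) (by positivity)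
        gcongr
    _ = _ := by rw [pow_add]; ring

theorem DB.sum_div_le {G : ℝ} {j m : ℕ} {f : AF} (h : DB G j m f) (N : ℕ) :
    ∑ n ∈ Icc 1 N, ‖f n‖ / n ≤ G * (1 + Real.log N) ^ (j + 2 ^ m) := by
  have hG := h.nonneg
  have hL := log_nn N
  have h1 : ∀ n ∈ Icc 1 N, ‖f n‖ / n ≤ G * (1 + Real.log N) ^ j * (tau n ^ m / n) := by
    intro n hn
    rw [mem_Icc] at hn
    have h2 := log_mono hn.1 hn.2
    have h3 := log_nn n
    have h4 := tau_nonneg n
    have h5 : ‖f n‖ ≤ G * (1 + Real.log N) ^ j * tau n ^ m := by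
      refine (h n hn.1).trans ?_
      gcongr
    rw [← mul_div_assoc]
    gcongr
  refine (sum_le_sum h1).trans ?_
  rw [← mul_sum, pow_add, ← mul_assoc]
  exact mul_le_mul_of_nonneg_left (sum_tau_pow_div m N) (by positivity)

/-! ## the functional `Er` -/

theorem SS_add (f g : AF) {q : ℕ} (χ : DirichletCharacter ℂ q) (y : ℕ) : SS (f + g) χ y = SS f χ y + SS g χ y := by
  simp only [SS, ArithmeticFunction.add_apply, add_mul, sum_add_distrib]

theorem SS_zero {q : ℕ} (χ : DirichletCharacter ℂ q) (y : ℕ) : SS 0 χ y = 0 := by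
  simp [SS]

theorem MX_nonneg (f : AF) {q : ℕ} (χ : DirichletCharacter ℂ q) (N : ℕ) : 0 ≤ MX f χ N :=
  mx_nonneg fun _ => norm_nonneg _

theorem le_MX (f : AF) {q : ℕ} (χ : DirichletCharacter ℂ q) {N y : ℕ} (h : y ≤ N) : ‖SS f χ y‖ ≤ MX f χ N :=
  le_mx (fun y => ‖SS f χ y‖) h

theorem MX_le {f : AF} {q : ℕ} {χ : DirichletCharacter ℂ q} {N : ℕ} {B : ℝ} (h : ∀ y ≤ N, ‖SS f χ y‖ ≤ B) :
    MX f χ N ≤ B := mx_le h

theorem MX_add_le (f g : AF) {q : ℕ} (χ : DirichletCharacter ℂ q) (N : ℕ) : MX (f + g) χ N ≤ MX f χ N + MX g χ N := by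
  refine MX_le fun y hy => ?_
  rw [SS_add]
  exact (norm_add_le _ _).trans (add_le_add (le_MX f χ hy) (le_MX g χ hy))

theorem MX_zero {q : ℕ} (χ : DirichletCharacter ℂ q) (N : ℕ) : MX 0 χ N = 0 := by
  refine le_antisymm (MX_le fun y _ => ?_) (MX_nonneg _ _ _)
  rw [SS_zero, norm_zero]

theorem MX_congr {f g : AF} {N : ℕ} (h : ∀ n, 1 ≤ n → n ≤ N → f n = g n) {q : ℕ} (χ : DirichletCharacter ℂ q) :
    MX f χ N = MX g χ N := by
  have key : ∀ y ≤ N, SS f χ y = SS g χ y := by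
    intro y hy
    refine sum_congr rfl fun n hn => ?_
    rw [mem_Icc] at hn
    rw [h n hn.1 (hn.2.trans hy)]
  refine le_antisymm (MX_le fun y hy => ?_) (MX_le fun y hy => ?_)
  · rw [key y hy]
    exact le_MX g χ hy
  · rw [← key y hy]
    exact le_MX f χ hy

theorem MX_mono {f : AF} {q : ℕ} {χ : DirichletCharacter ℂ q} {N N' : ℕ} (h : N ≤ N') : MX f χ N ≤ MX f χ N' :=
  mx_mono_left h _

theorem Er_nonneg (Q N : ℕ) (f : AF) : 0 ≤ Er Q N f := sum_nonneg fun _ _ => sum_nonneg fun _ _ => MX_nonneg _ _ _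

theorem Er_zero (Q N : ℕ) : Er Q N 0 = 0 := by
  unfold Er
  exact sum_eq_zero fun q _ => sum_eq_zero fun χ _ => MX_zero χ N

theorem Er_add_le (Q N : ℕ) (f g : AF) : Er Q N (f + g) ≤ Er Q N f + Er Q N g := by
  unfold Er
  rw [← sum_add_distrib]
  refine sum_le_sum fun q _ => ?_
  rw [← sum_add_distrib]
  exact sum_le_sum fun χ _ => MX_add_le f g χ N

theorem Er_congr {f g : AF} {N : ℕ} (h : ∀ n, 1 ≤ n → n ≤ N → f n = g n) (Q : ℕ) : Er Q N f = Er Q N g :=
  sum_congr rfl fun _ _ => sum_congr rfl fun χ _ => MX_congr h χ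

theorem Er_listSum_le (Q N : ℕ) (S : List AF) : Er Q N S.sum ≤ (S.map (Er Q N)).sum := by
  induction S with
  | nil => simp [Er_zero]
  | cons a S ih =>
    rw [List.sum_cons, List.map_cons, List.sum_cons]
    exact (Er_add_le Q N _ _).trans (by linarith)

theorem MX_listSum_le {q : ℕ} (χ : DirichletCharacter ℂ q) (N : ℕ) (S : List AF) :
    MX S.sum χ N ≤ (S.map (fun f => MX f χ N)).sum := by
  induction S with
  | nil => simp [MX_zero]
  | cons a S ih =>
    rw [List.sum_cons, List.map_cons, List.sum_cons]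
    exact (MX_add_le _ _ χ N).trans (by linarith)

theorem norm_chi_le {q : ℕ} (χ : DirichletCharacter ℂ q) (n : ℕ) : ‖χ n‖ ≤ 1 := χ.norm_le_one _

theorem card_pc {q : ℕ} (hq : 1 ≤ q) : ((pc q).card : ℝ) ≤ q := by
  have : NeZero q := ⟨by omega⟩
  have h1 : (pc q).card ≤ (Finset.univ : Finset (DirichletCharacter ℂ q)).card := by
    refine Finset.card_le_card ?_
    intro χ _
    exact Finset.mem_univ χ
  have h2 : (Finset.univ : Finset (DirichletCharacter ℂ q)).card = q.totient := by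
    rw [Finset.card_univ, ← Nat.card_eq_fintype_card]
    exact DirichletCharacter.card_eq_totient_of_hasEnoughRootsOfUnity ℂ q
  have h3 : q.totient ≤ q := Nat.totient_le q
  exact_mod_cast (h1.trans (le_of_eq h2)).trans h3

theorem one_add_log_le {N : ℕ} (hN : 2 ≤ N) : 1 + Real.log N ≤ 3 * Real.log N := by
  have h2 : Real.log 2 ≤ Real.log N := Real.log_le_log (by norm_num) (by exact_mod_cast hN)
  linarith [Real.log_two_gt_d9]

/-- trivial bound -/
theorem ty0 (j m : ℕ) : ∃ C : ℝ, 0 ≤ C ∧ ∃ K : ℕ, ∀ (N Q A : ℕ) (G : ℝ) (f : AF), 2 ≤ N →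
    DB G j m f → (∀ n, A < n → f n = 0) → Er Q N f ≤ C * G * Real.log N ^ K * ((Q : ℝ) ^ 2 * A) := by
  refine ⟨3 ^ (j + 2 ^ m), by positivity, j + 2 ^ m, ?_⟩
  intro N Q A G f hN hf hA
  have hG := hf.nonneg
  have hLN : 0 ≤ Real.log N := log_nn N
  have hb : ∀ (q : ℕ) (χ : DirichletCharacter ℂ q), MX f χ N ≤ G * A * (1 + Real.log N) ^ (j + 2 ^ m) := by
    intro q χ
    refine MX_le fun y hy => ?_
    have h1 : ‖SS f χ y‖ ≤ ∑ n ∈ Icc 1 (min y A), ‖f n‖ := by
      have e : SS f χ y = ∑ n ∈ Icc 1 (min y A), f n * χ n := by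
        unfold SS
        refine (sum_subset (Icc_subset_Icc_right (min_le_left _ _)) ?_).symm
        intro n hn hn'
        rw [mem_Icc] at hn hn'
        rw [hA n (by by_contra h; exact hn' ⟨hn.1, le_min hn.2 (by omega)⟩), zero_mul]
      rw [e]
      refine (norm_sum_le _ _).trans (sum_le_sum fun n _ => ?_)
      rw [norm_mul]
      exact mul_le_of_le_one_right (norm_nonneg _) (norm_chi_le χ n)
    refine h1.trans ((hf.sum_le _).trans ?_)
    have h2 : ((min y A : ℕ) : ℝ) ≤ A := by exact_mod_cast min_le_right y A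
    have h3 : Real.log ((min y A : ℕ) : ℝ) ≤ Real.log N := by
      rcases Nat.eq_zero_or_pos (min y A) with h | h
      · rw [h]
        simpa using hLN
      · exact log_mono h ((min_le_left _ _).trans hy)
    have h4 := log_nn (min y A)
    gcongr
  have h5 : Er Q N f ≤ ∑ q ∈ Icc 1 Q, (Q : ℝ) * (G * A * (1 + Real.log N) ^ (j + 2 ^ m)) := by
    unfold Er
    refine sum_le_sum fun q hq => ?_
    rw [mem_Icc] at hq
    refine (sum_le_sum fun χ _ => hb q χ).trans ?_
    rw [sum_const, nsmul_eq_mul]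
    refine mul_le_mul_of_nonneg_right ((card_pc hq.1).trans ?_) (by positivity)
    exact_mod_cast hq.2
  refine h5.trans ?_
  rw [sum_const, nsmul_eq_mul, Nat.card_Icc]
  have h6 : ((Q + 1 - 1 : ℕ) : ℝ) = Q := by simp
  rw [h6]
  calc (Q : ℝ) * (Q * (G * A * (1 + Real.log N) ^ (j + 2 ^ m)))
      ≤ (Q : ℝ) * (Q * (G * A * (3 * Real.log N) ^ (j + 2 ^ m))) := by
        have := one_add_log_le hN
        gcongr
    _ = _ := by rw [mul_pow]; ring

end SZE
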