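import Pool.Agent.H91.SZE.Cls
import Pool.Agent.H91.SZE.Bil
import Pool.Agent.H91.SZE.PV

/-!
# COR: the core recursion
-/

open Finset H69LB BVL

namespace SZE

/-- one long smooth variable -/
theorem ty1_S (j m : ℕ) : ∃ C : ℝ, 0 ≤ C ∧ ∃ K : ℕ, ∀ (N Q A e : ℕ) (F G : ℝ) (f s : AF), 2 ≤ N → Q ≤ N → 1 ≤ A → 1 ≤ e →
    DB F j m f → tau e ≤ G → Sm G s →
    Er Q N (f * cutG A (cop e s)) ≤ C * F * G ^ 2 * Real.log N ^ K * ((Q : ℝ) ^ 2 * √Q * (N / A)) := by
  obtain ⟨C, hC, K, h⟩ := ty1_bv j m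
  refine ⟨C * 3, by positivity, K + 1, ?_⟩
  intro N Q A e F G f s hN hQN hA he hf hte hs
  have hG := hs.nonneg'
  have hF := hf.nonneg
  have hL := log_nn N
  refine (h N Q A e F _ f s hN hQN hA he hf (hs N (by omega))).trans ?_
  have h1 := one_add_log_le hN
  have h2 : tau e * (G * (1 + Real.log N)) ≤ G * (G * (3 * Real.log N)) := by gcongr
  calc C * F * (tau e * (G * (1 + Real.log N))) * Real.log N ^ K * ((Q : ℝ) ^ 2 * √Q * (N / A))
      ≤ C * F * (G * (G * (3 * Real.log N))) * Real.log N ^ K * ((Q : ℝ) ^ 2 * √Q * (N / A)) := by gcongr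
    _ = _ := by rw [pow_succ (Real.log N) K]; ring

/-- the bound of the core estimate -/
noncomputable def BD (N Q A0 A1 : ℕ) : ℝ :=
  (Q : ℝ) ^ 2 * √N + Q * √((N : ℝ) * A1) + Q * √N * √((N : ℝ) / A0) + N + (Q : ℝ) ^ 2 * √Q * (N / A1) + (Q : ℝ) ^ 2 * A0

theorem BD_nonneg (N Q A0 A1 : ℕ) : 0 ≤ BD N Q A0 A1 := by unfold BD; positivity

theorem cut_split {A0 A1 : ℕ} (h : A0 ≤ A1) (f : AF) : f = cut 0 A0 f + cut A0 A1 f + cutG A1 f := by
  ext n
  rw [ArithmeticFunction.add_apply, ArithmeticFunction.add_apply, cut_apply, cut_apply, cutG_apply]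
  rcases Nat.eq_zero_or_pos n with hn | hn
  · rw [hn]; simp
  by_cases h1 : n ≤ A0
  · rw [if_pos ⟨hn, h1⟩, if_neg (by omega), if_neg (by omega)]; ring
  · by_cases h2 : n ≤ A1
    · rw [if_neg (by omega), if_pos (by omega), if_neg (by omega)]; ring
    · rw [if_neg (by omega), if_neg (by omega), if_pos (by omega)]; ring

theorem cutG_zero {A : ℕ} {f : AF} (h : ∀ n, A < n → f n = 0) : cutG A f = 0 := by
  ext n
  rw [cutG_apply]
  split_ifs with h1
  · rw [h n h1]; simp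
  · simp

theorem conv_support {A B : ℕ} {f g : AF} (hf : ∀ n, A < n → f n = 0) (hg : ∀ n, B < n → g n = 0) {n : ℕ}
    (hn : A * B < n) : (f * g) n = 0 := by
  rw [ArithmeticFunction.mul_apply]
  refine sum_eq_zero fun x hx => ?_
  rw [Nat.mem_divisorsAntidiagonal] at hx
  by_cases h1 : A < x.1
  · rw [hf _ h1, zero_mul]
  · by_cases h2 : B < x.2
    · rw [hg _ h2, mul_zero]
    · have : x.1 * x.2 ≤ A * B := Nat.mul_le_mul (by omega) (by omega)
      omega

theorem core_aux (k : ℕ) : ∀ j m : ℕ, ∃ C : ℝ, 0 ≤ C ∧ ∃ K : ℕ, ∀ (N Q A0 A1 : ℕ) (F G : ℝ) (p : AF) (fs : List AF),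
    3 ≤ N → Q ≤ N → 1 ≤ A0 → A0 ^ 2 ≤ A1 → 1 ≤ G → fs.length = k → (∀ f ∈ fs, Cl G A1 f) → DB F j m p →
    (∀ n, A0 < n → p n = 0) → Er Q N (p * fs.prod) ≤ C * F * G ^ K * Real.log N ^ K * BD N Q A0 A1 := by
  induction k with
  | zero =>
    intro j m
    obtain ⟨C, hC, K, h⟩ := ty0 j m
    refine ⟨C, hC, K, ?_⟩
    intro N Q A0 A1 F G p fs hN hQ hA0 hA1 hG hlen _ hp hp0
    have hfs : fs = [] := List.length_eq_zero_iff.1 hlen
    rw [hfs, List.prod_nil, mul_one]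
    refine (h N Q A0 F p (by omega) hp hp0).trans ?_
    have hF := hp.nonneg
    have hL : 0 ≤ Real.log N := log_nn N
    have h1 : (Q : ℝ) ^ 2 * A0 ≤ BD N Q A0 A1 := by
      unfold BD
      have h2 : (0 : ℝ) ≤ (Q : ℝ) ^ 2 * √N + Q * √((N : ℝ) * A1) + Q * √N * √((N : ℝ) / A0) + N +
        (Q : ℝ) ^ 2 * √Q * (N / A1) := by positivity
      linarith
    have h2 : (1 : ℝ) ≤ G ^ K := one_le_pow₀ hG
    calc C * F * Real.log N ^ K * ((Q : ℝ) ^ 2 * A0) ≤ C * F * Real.log N ^ K * BD N Q A0 A1 := by gcongr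
      _ = C * F * 1 * Real.log N ^ K * BD N Q A0 A1 := by ring
      _ ≤ _ := by
        have := BD_nonneg N Q A0 A1
        gcongr
  | succ k ih =>
    intro j m
    obtain ⟨C1, hC1, K1, h1⟩ := ih (j + 1) (m + 2)
    obtain ⟨C2, hC2, K2, h2⟩ := bil (j + k + 1) (m + 2 * k + 2)
    obtain ⟨C3, hC3, K3, h3⟩ := ty1_S (j + k + 1) (m + 2 * k + 2)
    refine ⟨C1 + 2 * C2 + C3, by positivity, K1 + K2 + K3 + k + 3, ?_⟩
    intro N Q A0 A1 F G p fs hN hQ hA0 hA1 hG hlen hcl hp hp0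
    obtain ⟨f, gs, rfl⟩ : ∃ f gs, fs = f :: gs := by
      cases fs with
      | nil => simp at hlen
      | cons f gs => exact ⟨f, gs, rfl⟩
    have hlen' : gs.length = k := by simpa using hlen
    have hf := hcl f List.mem_cons_self
    have hgs : ∀ g ∈ gs, Cl G A1 g := fun g hg => hcl g (List.mem_cons_of_mem _ hg)
    have hF := hp.nonneg
    have hG0 : (0 : ℝ) ≤ G := by linarith
    have hN3 : (3 : ℝ) ≤ N := by exact_mod_cast hN
    have hL : 1 ≤ Real.log N := by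
      rw [Real.le_log_iff_exp_le (by linarith)]
      exact (Real.exp_one_lt_d9.le.trans (by norm_num)).trans hN3
    have hL0 : 0 ≤ Real.log N := by linarith
    have hBD := BD_nonneg N Q A0 A1
    have hA01 : A0 ≤ A1 := le_trans (by nlinarith) hA1
    have hR : DB (G ^ k) k (2 * k) gs.prod := by
      have := db_listProd gs fun g hg => (hgs g hg).db
      rwa [hlen'] at this
    have hpR : DB (F * G ^ k) (j + k + 1) (m + 2 * k + 2) (p * gs.prod) :=
      (hp.mul hR).mono le_rfl (by omega) (by omega)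
    set R := gs.prod with hRdef
    set h := p * cut 0 A0 f with hh
    have hhdb : DB (F * G) (j + 1) (m + 2) h := (hp.mul ((hf.db).cut 0 A0)).mono le_rfl le_rfl (by omega)
    have hh0 : ∀ n, A0 ^ 2 < n → h n = 0 := by
      intro n hn
      refine conv_support hp0 (B := A0) ?_ (by rwa [pow_two] at hn)
      intro n hn
      rw [cut_apply, if_neg (by omega)]
    have hhG : cutG A1 h = 0 := cutG_zero fun n hn => hh0 n (lt_of_le_of_lt hA1 hn)
    -- the decomposition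
    have e : p * (f :: gs).prod = cut 0 A0 h * R + cut A0 A1 h * R + cut A0 A1 f * (p * R) + (p * R) * cutG A1 f := by
      rw [List.prod_cons]
      have e1 : h = cut 0 A0 h + cut A0 A1 h := by
        conv_lhs => rw [cut_split hA01 h, hhG, add_zero]
      calc p * (f * R) = p * ((cut 0 A0 f + cut A0 A1 f + cutG A1 f) * R) := by rw [← cut_split hA01 f]
        _ = h * R + cut A0 A1 f * (p * R) + (p * R) * cutG A1 f := by rw [hh]; ring
        _ = (cut 0 A0 h + cut A0 A1 h) * R + cut A0 A1 f * (p * R) + (p * R) * cutG A1 f := by rw [← e1]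
        _ = _ := by ring
    rw [e]
    have b1 : Er Q N (cut 0 A0 h * R) ≤ C1 * (F * G) * G ^ K1 * Real.log N ^ K1 * BD N Q A0 A1 := by
      refine h1 N Q A0 A1 (F * G) G _ gs hN hQ hA0 hA1 hG hlen' hgs (hhdb.cut 0 A0) ?_
      intro n hn
      rw [cut_apply, if_neg (by omega)]
    have b2 : Er Q N (cut A0 A1 h * R) ≤ C2 * (F * G) * G ^ k * Real.log N ^ K2 *
        ((Q : ℝ) ^ 2 * √N + Q * √((N : ℝ) * A1) + Q * √N * √((N : ℝ) / A0) + N) := by
      refine h2 N Q A0 A1 (F * G) (G ^ k) _ _ (by omega) hA0 ?_ ?_ ?_ ?_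
      · exact (hhdb.cut A0 A1).mono le_rfl (by omega) (by omega)
      · exact hR.mono le_rfl (by omega) (by omega)
      · intro n hn
        rw [cut_apply, if_neg (by omega)]
      · intro n hn
        rw [cut_apply, if_neg (by omega)]
    have b3 : Er Q N (cut A0 A1 f * (p * R)) ≤ C2 * G * (F * G ^ k) * Real.log N ^ K2 *
        ((Q : ℝ) ^ 2 * √N + Q * √((N : ℝ) * A1) + Q * √N * √((N : ℝ) / A0) + N) := by
      refine h2 N Q A0 A1 G (F * G ^ k) _ _ (by omega) hA0 ?_ hpR ?_ ?_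
      · exact ((hf.db).cut A0 A1).mono le_rfl (by omega) (by omega)
      · intro n hn
        rw [cut_apply, if_neg (by omega)]
      · intro n hn
        rw [cut_apply, if_neg (by omega)]
    have b4 : Er Q N ((p * R) * cutG A1 f) ≤ C3 * (F * G ^ k) * G ^ 2 * Real.log N ^ K3 *
        ((Q : ℝ) ^ 2 * √Q * (N / A1)) := by
      rcases hf with ⟨_, hf2⟩ | ⟨e, s, a1, a2, a3, a5⟩
      · rw [cutG_zero hf2, mul_zero, Er_zero]
        positivity
      · rw [a5]
        exact h3 N Q A1 e (F * G ^ k) G _ s (by omega) hQ (by omega) a1 hpR a2 a3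
    have c1 : (Q : ℝ) ^ 2 * √N + Q * √((N : ℝ) * A1) + Q * √N * √((N : ℝ) / A0) + N ≤ BD N Q A0 A1 := by
      unfold BD
      have : (0 : ℝ) ≤ (Q : ℝ) ^ 2 * √Q * (N / A1) + (Q : ℝ) ^ 2 * A0 := by positivity
      linarith
    have c2 : (Q : ℝ) ^ 2 * √Q * (N / A1) ≤ BD N Q A0 A1 := by
      unfold BD
      have : (0 : ℝ) ≤ (Q : ℝ) ^ 2 * √N + Q * √((N : ℝ) * A1) + Q * √N * √((N : ℝ) / A0) + N + (Q : ℝ) ^ 2 * A0 := by positivity
      linarith
    set K := K1 + K2 + K3 + k + 3 with hK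
    have g1 : ∀ i ≤ K, G ^ i ≤ G ^ K := fun i hi => pow_le_pow_right₀ hG hi
    have l1 : ∀ i ≤ K, Real.log N ^ i ≤ Real.log N ^ K := fun i hi => pow_le_pow_right₀ hL hi
    have b1' : Er Q N (cut 0 A0 h * R) ≤ C1 * F * G ^ K * Real.log N ^ K * BD N Q A0 A1 := by
      refine b1.trans ?_
      have e2 : C1 * (F * G) * G ^ K1 = C1 * F * G ^ (K1 + 1) := by rw [pow_succ]; ring
      rw [e2]
      have := g1 (K1 + 1) (by omega)
      have := l1 K1 (by omega)
      gcongr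
    have b2' : Er Q N (cut A0 A1 h * R) ≤ C2 * F * G ^ K * Real.log N ^ K * BD N Q A0 A1 := by
      refine b2.trans ?_
      have e2 : C2 * (F * G) * G ^ k = C2 * F * G ^ (k + 1) := by rw [pow_succ]; ring
      rw [e2]
      have := g1 (k + 1) (by omega)
      have := l1 K2 (by omega)
      gcongr
    have b3' : Er Q N (cut A0 A1 f * (p * R)) ≤ C2 * F * G ^ K * Real.log N ^ K * BD N Q A0 A1 := by
      refine b3.trans ?_
      have e2 : C2 * G * (F * G ^ k) = C2 * F * G ^ (k + 1) := by rw [pow_succ]; ring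
      rw [e2]
      have := g1 (k + 1) (by omega)
      have := l1 K2 (by omega)
      gcongr
    have b4' : Er Q N ((p * R) * cutG A1 f) ≤ C3 * F * G ^ K * Real.log N ^ K * BD N Q A0 A1 := by
      refine b4.trans ?_
      have e2 : C3 * (F * G ^ k) * G ^ 2 = C3 * F * G ^ (k + 2) := by rw [pow_add]; ring
      rw [e2]
      have := g1 (k + 2) (by omega)
      have := l1 K3 (by omega)
      gcongr
    have t1 := Er_add_le Q N (cut 0 A0 h * R + cut A0 A1 h * R + cut A0 A1 f * (p * R)) ((p * R) * cutG A1 f)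
    have t2 := Er_add_le Q N (cut 0 A0 h * R + cut A0 A1 h * R) (cut A0 A1 f * (p * R))
    have t3 := Er_add_le Q N (cut 0 A0 h * R) (cut A0 A1 h * R)
    calc Er Q N (cut 0 A0 h * R + cut A0 A1 h * R + cut A0 A1 f * (p * R) + (p * R) * cutG A1 f)
        ≤ C1 * F * G ^ K * Real.log N ^ K * BD N Q A0 A1 + C2 * F * G ^ K * Real.log N ^ K * BD N Q A0 A1
          + C2 * F * G ^ K * Real.log N ^ K * BD N Q A0 A1 + C3 * F * G ^ K * Real.log N ^ K * BD N Q A0 A1 := by
          linarith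
      _ = _ := by ring

/-- the core estimate -/
theorem core_list (k : ℕ) : ∃ C : ℝ, 0 ≤ C ∧ ∃ K : ℕ, ∀ (N Q A0 A1 : ℕ) (G : ℝ) (fs : List AF),
    3 ≤ N → Q ≤ N → 1 ≤ A0 → A0 ^ 2 ≤ A1 → 1 ≤ G → fs.length ≤ k → (∀ f ∈ fs, Cl G A1 f) →
    Er Q N fs.prod ≤ C * G ^ K * Real.log N ^ K * BD N Q A0 A1 := by
  choose C hC K h using fun i => core_aux i 0 0
  refine ⟨∑ i ∈ range (k + 1), C i, sum_nonneg fun i _ => hC i, ∑ i ∈ range (k + 1), K i, ?_⟩
  intro N Q A0 A1 G fs hN hQ hA0 hA1 hG hlen hcl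
  have hN3 : (3 : ℝ) ≤ N := by exact_mod_cast hN
  have hL : 1 ≤ Real.log N := by
    rw [Real.le_log_iff_exp_le (by linarith)]
    exact (Real.exp_one_lt_d9.le.trans (by norm_num)).trans hN3
  have hm : fs.length ∈ range (k + 1) := by rw [mem_range]; omega
  have h1 := h fs.length N Q A0 A1 1 G 1 fs hN hQ hA0 hA1 hG rfl hcl DB.one (by
    intro n hn
    rw [ArithmeticFunction.one_apply_ne (by omega)])
  rw [one_mul] at h1
  refine h1.trans ?_
  have h2 : C fs.length ≤ ∑ i ∈ range (k + 1), C i := single_le_sum (fun i _ => hC i) hm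
  have h3 : K fs.length ≤ ∑ i ∈ range (k + 1), K i := single_le_sum (f := K) (fun i _ => Nat.zero_le _) hm
  have h4 := hC fs.length
  have h5 := BD_nonneg N Q A0 A1
  have h6 : G ^ K fs.length ≤ G ^ (∑ i ∈ range (k + 1), K i) := pow_le_pow_right₀ hG h3
  have h7 : Real.log N ^ K fs.length ≤ Real.log N ^ (∑ i ∈ range (k + 1), K i) := pow_le_pow_right₀ hL h3
  have h8 : 0 ≤ Real.log N := by linarith
  have h9 : 0 ≤ ∑ i ∈ range (k + 1), C i := sum_nonneg fun i _ => hC i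
  calc C fs.length * 1 * G ^ K fs.length * Real.log N ^ K fs.length * BD N Q A0 A1
      = C fs.length * G ^ K fs.length * Real.log N ^ K fs.length * BD N Q A0 A1 := by ring
    _ ≤ _ := by gcongr

end SZE
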