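import Mathlib
import Pool.Agent.H17.BV.Defs

/-!
# Error terms of discrete moments of `ζ'(ρ) M(ρ)`: shared definitions

Convolutions are products in `ArithmeticFunction ℂ`. `pc q` is the set of primitive characters modulo `q` without the
trivial one (`pc 1 = ∅`), `mx N f = max_{y ≤ N} f y`.
-/

open Finset H69LB BVL

namespace SZE

/-- arithmetic functions with complex values -/
abbrev AF := ArithmeticFunction ℂ

/-- the number of divisors -/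
noncomputable def tau (n : ℕ) : ℝ := (n.divisors.card : ℝ)

/-- `n ↦ f (d n)` -/
noncomputable def dil (d : ℕ) (f : AF) : AF := ⟨fun n => f (d * n), by simp⟩

/-- `n ↦ f n` for `n` coprime to `e`, otherwise `0` -/
noncomputable def cop (e : ℕ) (f : AF) : AF := ⟨fun n => if n.Coprime e then f n else 0, by simp⟩

/-- `f` restricted to `U < n ≤ V` -/
noncomputable def cut (U V : ℕ) (f : AF) : AF := ⟨fun n => if U < n ∧ n ≤ V then f n else 0, by simp⟩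

/-- `f` restricted to `n > U` -/
noncomputable def cutG (U : ℕ) (f : AF) : AF := ⟨fun n => if U < n then f n else 0, by simp⟩

/-- `α + β log n` for `n ≥ 1` -/
noncomputable def smo (α β : ℂ) : AF := ⟨fun n => if n = 0 then 0 else α + β * (Real.log n : ℂ), by simp⟩

/-- von Mangoldt's function -/
noncomputable def aL : AF := ⟨fun n => (ArithmeticFunction.vonMangoldt n : ℂ), by simp⟩

/-- the Möbius function -/
noncomputable def aM : AF := ⟨fun n => ((ArithmeticFunction.moebius n : ℤ) : ℂ), by simp⟩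

@[simp] theorem dil_apply (d : ℕ) (f : AF) (n : ℕ) : dil d f n = f (d * n) := rfl

@[simp] theorem cop_apply (e : ℕ) (f : AF) (n : ℕ) : cop e f n = if n.Coprime e then f n else 0 := rfl

@[simp] theorem cut_apply (U V : ℕ) (f : AF) (n : ℕ) : cut U V f n = if U < n ∧ n ≤ V then f n else 0 := rfl

@[simp] theorem cutG_apply (U : ℕ) (f : AF) (n : ℕ) : cutG U f n = if U < n then f n else 0 := rfl

@[simp] theorem smo_apply (α β : ℂ) (n : ℕ) : smo α β n = if n = 0 then 0 else α + β * (Real.log n : ℂ) := rfl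

@[simp] theorem aL_apply (n : ℕ) : aL n = (ArithmeticFunction.vonMangoldt n : ℂ) := rfl

@[simp] theorem aM_apply (n : ℕ) : aM n = ((ArithmeticFunction.moebius n : ℤ) : ℂ) := rfl

/-- `|f n| ≤ G (1 + log n)^j τ(n)^m` -/
def DB (G : ℝ) (j m : ℕ) (f : AF) : Prop :=
  ∀ n : ℕ, 1 ≤ n → ‖f n‖ ≤ G * (1 + Real.log n) ^ j * tau n ^ m

/-- `∑_{n ≤ y} f(n) χ(n)` -/
noncomputable def SS (f : AF) {q : ℕ} (χ : DirichletCharacter ℂ q) (y : ℕ) : ℂ := ∑ n ∈ Icc 1 y, f n * χ n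

/-- `max_{y ≤ N} |∑_{n ≤ y} f(n) χ(n)|` -/
noncomputable def MX (f : AF) {q : ℕ} (χ : DirichletCharacter ℂ q) (N : ℕ) : ℝ := mx N fun y => ‖SS f χ y‖

/-- `∑_{q ≤ Q} ∑_{χ primitive} max_{y ≤ N} |∑_{n ≤ y} f(n) χ(n)|` -/
noncomputable def Er (Q N : ℕ) (f : AF) : ℝ := ∑ q ∈ Icc 1 Q, ∑ χ ∈ pc q, MX f χ N

/-- bounded and of bounded variation on `[1, N]` -/
def BVs (G : ℝ) (N : ℕ) (s : ℕ → ℂ) : Prop :=
  (∀ n, 1 ≤ n → n ≤ N → ‖s n‖ ≤ G) ∧ ∑ n ∈ Ico 1 N, ‖s (n + 1) - s n‖ ≤ G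

/-- smooth functions: size and variation on `[1, N]` at most `G (1 + log N)` -/
def Sm (G : ℝ) (s : AF) : Prop := ∀ N : ℕ, 1 ≤ N → BVs (G * (1 + Real.log N)) N s

/-- rough factors of bounded support, and smooth factors -/
def Cl (G : ℝ) (A : ℕ) (f : AF) : Prop :=
  (DB G 1 1 f ∧ ∀ n, A < n → f n = 0) ∨ ∃ (e : ℕ) (s : AF), 1 ≤ e ∧ tau e ≤ G ∧ Sm G s ∧ f = cop e s

/-- the factors of `f (d n)`, `(n, r) = 1` -/
def Rel (d r : ℕ) (f g : AF) : Prop := ∃ d1 d2 : ℕ, d1 * d2 ∣ d ∧ g = cop (r * d2) (dil d1 f)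

/-- weights of bounded variation at the points `n/k`, `n ≤ N0 k` -/
def BVw (V : ℝ) (w : ℝ → ℂ) (N0 : ℕ) : Prop :=
  ∀ k : ℕ, 1 ≤ k → ‖w N0‖ + ∑ n ∈ Icc 1 (N0 * k - 1), ‖w (((n + 1 : ℕ) : ℝ) / k) - w ((n : ℝ) / k)‖ ≤ V

/-- `e(-n/k) - μ(k')/φ(k')`, `k' = k/(n,k)` -/
noncomputable def edif (k n : ℕ) : ℂ :=
  ee (-((n : ℝ) / k)) - (((ArithmeticFunction.moebius (k / n.gcd k) : ℤ) : ℂ) / (Nat.totient (k / n.gcd k) : ℂ))

/-- the coefficient functions: `λ * s₁ * s₂ * t`, `λ ∈ {1, Λ}`, `s₁` smooth, `s₂` smooth or `1`, `t` bounded and supported on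
`n ≤ T^(1-ε)` -/
def Cc (T ε G : ℝ) (c : AF) : Prop :=
  ∃ l s1 s2 t : AF, (l = 1 ∨ l = aL) ∧ Sm G s1 ∧ (s2 = 1 ∨ Sm G s2) ∧
    (∀ n, ‖t n‖ ≤ G) ∧ (∀ n : ℕ, T ^ (1 - ε) < n → t n = 0) ∧ c = l * s1 * s2 * t

end SZE
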