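import Pool.Agent.H91.SZE.Coe
import Pool.Agent.H69.LB.Exd
import Pool.Agent.H69.LB.Gsi

/-!
# EX: expansion of `e(-n/k) - μ(k')/φ(k')` in primitive characters, one modulus `k`
-/

open Finset H69LB BVL

namespace SZE

/-- grouping by the greatest common divisor -/
theorem sum_gcd_fiber {k : ℕ} (hk : 1 ≤ k) (N0 : ℕ) (g : ℕ → ℂ) :
    ∑ n ∈ Icc 1 (N0 * k), g n
      = ∑ d ∈ k.divisors, ∑ v ∈ (Icc 1 (N0 * (k / d))).filter (fun v => v.Coprime (k / d)), g (d * v) := by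
  classical
  rw [← Finset.sum_fiberwise_of_maps_to (s := Icc 1 (N0 * k)) (t := k.divisors) (g := fun n => n.gcd k)
    (fun n _ => Nat.mem_divisors.2 ⟨Nat.gcd_dvd_right n k, by omega⟩)]
  refine sum_congr rfl fun d hd => ?_
  obtain ⟨hdk, hk0⟩ := Nat.mem_divisors.1 hd
  have hd0 : 0 < d := Nat.pos_of_dvd_of_pos hdk hk
  obtain ⟨r, rfl⟩ := hdk
  have hr : d * r / d = r := Nat.mul_div_cancel_left r hd0
  rw [hr]
  refine Finset.sum_nbij' (fun n => n / d) (fun v => d * v) ?_ ?_ ?_ ?_ ?_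
  · intro n hn
    rw [mem_filter, mem_Icc] at hn
    obtain ⟨⟨hn1, hn2⟩, hg⟩ := hn
    have hdn : d ∣ n := hg ▸ Nat.gcd_dvd_left n (d * r)
    obtain ⟨v, rfl⟩ := hdn
    rw [mem_filter, mem_Icc, Nat.mul_div_cancel_left v hd0]
    refine ⟨⟨?_, ?_⟩, ?_⟩
    · rcases Nat.eq_zero_or_pos v with h | h
      · subst h; omega
      · exact h
    · have : d * v ≤ d * (N0 * r) := by nlinarith
      exact Nat.le_of_mul_le_mul_left this hd0
    · have h2 : d * v.gcd r = d := by rw [← Nat.gcd_mul_left]; exact hg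
      exact Nat.eq_of_mul_eq_mul_left hd0 (by rw [h2, mul_one])
  · intro v hv
    rw [mem_filter, mem_Icc] at hv
    obtain ⟨⟨hv1, hv2⟩, hc⟩ := hv
    rw [mem_filter, mem_Icc]
    refine ⟨⟨Nat.mul_pos hd0 hv1, by nlinarith⟩, ?_⟩
    show (d * v).gcd (d * r) = d
    rw [Nat.gcd_mul_left, Nat.Coprime.gcd_eq_one hc, mul_one]
  · intro n hn
    rw [mem_filter] at hn
    have hdn : d ∣ n := hn.2 ▸ Nat.gcd_dvd_left n (d * r)
    exact Nat.mul_div_cancel' hdn
  · intro v _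
    exact Nat.mul_div_cancel_left v hd0
  · intro n hn
    rw [mem_filter] at hn
    have hdn : d ∣ n := hn.2 ▸ Nat.gcd_dvd_left n (d * r)
    rw [Nat.mul_div_cancel' hdn]

/-- the expansion -/
theorem edif_expand {d r v : ℕ} (hd : 0 < d) (hr : Squarefree r) [NeZero r] (hv : v.Coprime r) :
    edif (d * r) (d * v) = (Nat.totient r : ℂ)⁻¹ *
      ∑ χ ∈ (univ : Finset (DirichletCharacter ℂ r)).erase 1,
        gaussSum χ⁻¹ (ZMod.stdAddChar (N := r)) * χ (-1) * χ v := by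
  classical
  have hg : (d * v).gcd (d * r) = d := by rw [Nat.gcd_mul_left, Nat.Coprime.gcd_eq_one hv, mul_one]
  have hdr : d * r / d = r := Nat.mul_div_cancel_left r hd
  have hr0 : 0 < r := Nat.pos_of_ne_zero (NeZero.ne r)
  unfold edif
  rw [hg, hdr]
  have he : ee (-(((d * v : ℕ) : ℝ) / ((d * r : ℕ) : ℝ))) = ee (-((v : ℝ) * ((1 : ℕ) : ℝ) / r)) := by
    congr 2
    push_cast
    have : (d : ℝ) ≠ 0 := by exact_mod_cast hd.ne'
    have : (r : ℝ) ≠ 0 := by exact_mod_cast hr0.ne'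
    field_simp
  rw [he, expand_char hv (Nat.coprime_one_left r)]
  rw [← Finset.add_sum_erase univ _ (Finset.mem_univ (1 : DirichletCharacter ℂ r))]
  have h1 : gaussSum (1 : DirichletCharacter ℂ r)⁻¹ (ZMod.stdAddChar (N := r)) = (ArithmeticFunction.moebius r : ℂ) := by
    rw [inv_one]; exact gaussSum_one_eq hr
  have hu : IsUnit ((v : ℕ) : ZMod r) := (ZMod.isUnit_iff_coprime v r).2 hv
  rw [h1, MulChar.one_apply hu, MulChar.one_apply (isUnit_one.neg), Nat.cast_one, MulChar.one_apply isUnit_one]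
  rw [mul_add, div_eq_inv_mul]
  simp only [map_one, one_mul, mul_one]
  rw [add_comm, add_sub_cancel_right]
  congr 1
  refine sum_congr rfl fun χ _ => ?_
  ring

/-- Abel summation with a weight of bounded variation -/
theorem abel_bv {a u : ℕ → ℂ} {B : ℝ} {M : ℕ} (hM : 1 ≤ M) (hB : ∀ y ≤ M, ‖∑ n ∈ Icc 1 y, a n‖ ≤ B) :
    ‖∑ n ∈ Icc 1 M, a n * u n‖ ≤ (‖u M‖ + ∑ n ∈ Icc 1 (M - 1), ‖u (n + 1) - u n‖) * B := by
  have key : ∀ M : ℕ, ∑ n ∈ Icc 1 (M + 1), a n * u n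
      = (∑ n ∈ Icc 1 (M + 1), a n) * u (M + 1) - ∑ n ∈ Icc 1 M, (∑ m ∈ Icc 1 n, a m) * (u (n + 1) - u n) := by
    intro M
    induction M with
    | zero => simp
    | succ M ih =>
      rw [Finset.sum_Icc_succ_top (by omega) (fun n => a n * u n), ih,
        Finset.sum_Icc_succ_top (b := M) (by omega) (fun n => (∑ m ∈ Icc 1 n, a m) * (u (n + 1) - u n)),
        Finset.sum_Icc_succ_top (b := M + 1) (by omega) a]
      ring
  obtain ⟨m, rfl⟩ : ∃ m, M = m + 1 := ⟨M - 1, by omega⟩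
  rw [key m, Nat.add_sub_cancel]
  refine (norm_sub_le _ _).trans ?_
  rw [add_mul, norm_mul, mul_comm]
  refine add_le_add (mul_le_mul_of_nonneg_left (hB _ le_rfl) (norm_nonneg _)) ?_
  refine (norm_sum_le _ _).trans ?_
  rw [Finset.sum_mul]
  refine sum_le_sum fun n hn => ?_
  rw [mem_Icc] at hn
  rw [norm_mul, mul_comm]
  exact mul_le_mul_of_nonneg_left (hB n (by omega)) (norm_nonneg _)

/-- one character -/
theorem bv_char {N0 k : ℕ} (hN0 : 1 ≤ N0) (hk : 1 ≤ k) {w : ℝ → ℂ} {V : ℝ} (hw : BVw V w N0) (f : AF) {q : ℕ}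
    (ψ : DirichletCharacter ℂ q) :
    ‖∑ v ∈ Icc 1 (N0 * k), f v * w ((v : ℝ) / k) * ψ v‖ ≤ V * MX f ψ (N0 * k) := by
  have h1 : ∑ v ∈ Icc 1 (N0 * k), f v * w ((v : ℝ) / k) * ψ v
      = ∑ v ∈ Icc 1 (N0 * k), (f v * ψ v) * (fun n : ℕ => w ((n : ℝ) / k)) v :=
    sum_congr rfl fun v _ => by ring
  rw [h1]
  refine (abel_bv (Nat.mul_pos hN0 hk) (B := MX f ψ (N0 * k)) fun y hy => le_MX f ψ hy).trans ?_
  refine mul_le_mul_of_nonneg_right ?_ (MX_nonneg _ _ _)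
  have h2 := hw k hk
  have h3 : ((N0 * k : ℕ) : ℝ) / k = N0 := by
    push_cast
    have : (k : ℝ) ≠ 0 := by exact_mod_cast (by omega : k ≠ 0)
    field_simp
  simpa only [h3] using h2

/-- the bound for one modulus `k` -/
theorem ex_bound {k N0 : ℕ} (hk : Squarefree k) (hN0 : 1 ≤ N0) {w : ℝ → ℂ} {V : ℝ} (hw : BVw V w N0) (c : AF) :
    ‖∑ n ∈ Icc 1 (N0 * k), c n * w ((n : ℝ) / k) * edif k n‖
      ≤ V * ∑ d ∈ k.divisors, ((Nat.totient (k / d) : ℝ))⁻¹ * ∑ q ∈ (k / d).divisors.erase 1,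
        ∑ ψ ∈ pc q, √q * MX (cop (k / d / q) (dil d c)) ψ (N0 * (k / d)) := by
  classical
  have hk0 : 1 ≤ k := Nat.one_le_iff_ne_zero.2 hk.ne_zero
  rw [sum_gcd_fiber hk0 N0, Finset.mul_sum]
  refine (norm_sum_le _ _).trans (sum_le_sum fun d hd => ?_)
  obtain ⟨hdk, _⟩ := Nat.mem_divisors.1 hd
  have hd0 : 0 < d := Nat.pos_of_dvd_of_pos hdk hk0
  obtain ⟨r, rfl⟩ := hdk
  rw [Nat.mul_div_cancel_left r hd0]
  have hrs : Squarefree r := hk.squarefree_of_dvd (dvd_mul_left r d)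
  have hr0 : 0 < r := Nat.pos_of_ne_zero hrs.ne_zero
  have : NeZero r := ⟨hr0.ne'⟩
  have hrR : (r : ℝ) ≠ 0 := by exact_mod_cast hr0.ne'
  have hdR : (d : ℝ) ≠ 0 := by exact_mod_cast hd0.ne'
  -- expansion
  have hexp : ∑ v ∈ (Icc 1 (N0 * r)).filter (fun v => v.Coprime r),
      c (d * v) * w (((d * v : ℕ) : ℝ) / ((d * r : ℕ) : ℝ)) * edif (d * r) (d * v)
      = (Nat.totient r : ℂ)⁻¹ * ∑ χ ∈ (univ : Finset (DirichletCharacter ℂ r)).erase 1,
        gaussSum χ⁻¹ (ZMod.stdAddChar (N := r)) * χ (-1) *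
          ∑ v ∈ Icc 1 (N0 * r), c (d * v) * w ((v : ℝ) / r) * χ v := by
    have h1 : ∀ v ∈ (Icc 1 (N0 * r)).filter (fun v => v.Coprime r),
        c (d * v) * w (((d * v : ℕ) : ℝ) / ((d * r : ℕ) : ℝ)) * edif (d * r) (d * v)
        = (Nat.totient r : ℂ)⁻¹ * ∑ χ ∈ (univ : Finset (DirichletCharacter ℂ r)).erase 1,
          gaussSum χ⁻¹ (ZMod.stdAddChar (N := r)) * χ (-1) * (c (d * v) * w ((v : ℝ) / r) * χ v) := by
      intro v hv
      rw [edif_expand hd0 hrs (mem_filter.1 hv).2]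
      have h2 : ((d * v : ℕ) : ℝ) / ((d * r : ℕ) : ℝ) = (v : ℝ) / r := by
        push_cast
        field_simp
      rw [h2, Finset.mul_sum, Finset.mul_sum, Finset.mul_sum]
      refine sum_congr rfl fun χ _ => ?_
      ring
    rw [Finset.sum_congr rfl h1, ← Finset.mul_sum, Finset.sum_comm]
    congr 1
    refine sum_congr rfl fun χ _ => ?_
    rw [← Finset.mul_sum]
    congr 1
    refine Finset.sum_subset (Finset.filter_subset _ _) fun v hv hv2 => ?_
    have hnc : ¬ v.Coprime r := fun h => hv2 (mem_filter.2 ⟨hv, h⟩)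
    have hnu : ¬ IsUnit ((v : ℕ) : ZMod r) := fun h => hnc ((ZMod.isUnit_iff_coprime v r).1 h)
    rw [MulChar.map_nonunit χ hnu, mul_zero]
  rw [hexp, norm_mul, norm_inv, Complex.norm_natCast]
  rw [← mul_assoc, mul_comm V, mul_assoc]
  refine mul_le_mul_of_nonneg_left ?_ (by positivity)
  refine (norm_sum_le _ _).trans ?_
  refine (sum_le_sum (g := fun χ : DirichletCharacter ℂ r => ‖gaussSum χ⁻¹ (ZMod.stdAddChar (N := r))‖ *
    ‖∑ v ∈ Icc 1 (N0 * r), c (d * v) * w ((v : ℝ) / r) * χ v‖) fun χ _ => ?_).trans ?_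
  · rw [norm_mul, norm_mul]
    refine mul_le_mul_of_nonneg_right ?_ (norm_nonneg _)
    calc ‖gaussSum χ⁻¹ (ZMod.stdAddChar (N := r))‖ * ‖χ (-1)‖ ≤ ‖gaussSum χ⁻¹ (ZMod.stdAddChar (N := r))‖ * 1 :=
          mul_le_mul_of_nonneg_left (DirichletCharacter.norm_le_one χ _) (norm_nonneg _)
      _ = _ := mul_one _
  refine (sum_le_cover _ (fun q ψ => √q * ‖∑ v ∈ Icc 1 (N0 * r), cop (r / q) (dil d c) v * w ((v : ℝ) / r) * ψ v‖)
    (fun q χ => by positivity) ?_).trans ?_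
  · intro q h χ hχ
    have hprim : χ.IsPrimitive := by
      unfold pc at hχ
      exact (mem_filter.1 hχ).2.1
    refine mul_le_mul (gaussSum_changeLevel_inv h hrs hprim) (le_of_eq ?_) (norm_nonneg _) (Real.sqrt_nonneg _)
    congr 1
    refine sum_congr rfl fun v _ => ?_
    obtain ⟨m, hm⟩ := h
    have hq0 : 0 < q := by
      rcases Nat.eq_zero_or_pos q with h | h
      · subst h; omega
      · exact h
    have hrq : r / q = m := by rw [hm]; exact Nat.mul_div_cancel_left m hq0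
    rw [hrq, cop_apply, dil_apply]
    by_cases hvr : v.Coprime r
    · have hvm : v.Coprime m := Nat.Coprime.coprime_dvd_right ⟨q, by rw [hm, mul_comm]⟩ hvr
      rw [if_pos hvm]
      congr 1
      have h3 := DirichletCharacter.changeLevel_eq_cast_of_dvd' (χ := χ) (m := r) ⟨m, hm⟩ (a := (v : ℤ))
        (Nat.isCoprime_iff_coprime.mpr hvr)
      simpa only [Int.cast_natCast] using h3
    · have hnu : ¬ IsUnit ((v : ℕ) : ZMod r) := fun h => hvr ((ZMod.isUnit_iff_coprime v r).1 h)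
      rw [MulChar.map_nonunit _ hnu, mul_zero]
      by_cases hvm : v.Coprime m
      · have hvq : ¬ v.Coprime q := fun h => hvr (by rw [hm]; exact Nat.Coprime.mul_right h hvm)
        have hnu2 : ¬ IsUnit ((v : ℕ) : ZMod q) := fun h => hvq ((ZMod.isUnit_iff_coprime v q).1 h)
        rw [MulChar.map_nonunit _ hnu2, mul_zero]
      · rw [if_neg hvm, zero_mul, zero_mul]
  · rw [Finset.mul_sum]
    refine sum_le_sum fun q _ => ?_
    rw [Finset.mul_sum]
    refine sum_le_sum fun ψ _ => ?_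
    have := bv_char hN0 hr0 hw (cop (r / q) (dil d c)) ψ
    calc √q * ‖∑ v ∈ Icc 1 (N0 * r), cop (r / q) (dil d c) v * w ((v : ℝ) / r) * ψ v‖
        ≤ √q * (V * MX (cop (r / q) (dil d c)) ψ (N0 * r)) := mul_le_mul_of_nonneg_left this (Real.sqrt_nonneg _)
      _ = V * (√q * MX (cop (r / q) (dil d c)) ψ (N0 * r)) := by ring

end SZE
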