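import Pool.Agent.H91.SZE.Co
import Pool.Agent.H69.LB.Div

/-!
# FIN1: sums over `d`, `r`, and over the large moduli `q` in dyadic blocks
-/

open Finset H69LB BVL

namespace SZE

/-- `∑ τ(r)^κ / φ(r)` -/
theorem sum_tau_totient (κ K : ℕ) :
    ∑ r ∈ Icc 1 K, tau r ^ κ / Nat.totient r ≤ 2 * (1 + Real.log K) ^ (2 ^ κ + 1) := by
  rcases Nat.eq_zero_or_pos K with hK | hK
  · subst hK; simp
  have hlK : 0 ≤ Real.log K := Real.log_nonneg (by exact_mod_cast hK)
  calc ∑ r ∈ Icc 1 K, tau r ^ κ / Nat.totient r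
      ≤ ∑ r ∈ Icc 1 K, 2 * (1 + Real.log K) * (tau r ^ κ / r) := by
        refine sum_le_sum fun r hr => ?_
        rw [mem_Icc] at hr
        have hr0 : (0 : ℝ) < r := by exact_mod_cast hr.1
        have hph : (0 : ℝ) < Nat.totient r := by exact_mod_cast Nat.totient_pos.2 (by omega)
        have h1 := le_totient (n := r) hr.1
        have h2 : Real.log r ≤ Real.log K := Real.log_le_log hr0 (by exact_mod_cast hr.2)
        have h3 : (r : ℝ) ≤ 2 * (1 + Real.log K) * Nat.totient r := by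
          refine h1.trans ?_
          gcongr
        have ht : 0 ≤ tau r ^ κ := pow_nonneg (zero_le_one.trans (one_le_tau hr.1)) κ
        rw [div_le_iff₀ hph]
        calc tau r ^ κ = tau r ^ κ / r * r := by field_simp
          _ ≤ tau r ^ κ / r * (2 * (1 + Real.log K) * Nat.totient r) :=
              mul_le_mul_of_nonneg_left h3 (div_nonneg ht hr0.le)
          _ = _ := by ring
    _ = 2 * (1 + Real.log K) * ∑ r ∈ Icc 1 K, tau r ^ κ / r := by rw [Finset.mul_sum]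
    _ ≤ 2 * (1 + Real.log K) * (1 + Real.log K) ^ (2 ^ κ) :=
        mul_le_mul_of_nonneg_left (sum_tau_pow_div κ K) (by positivity)
    _ = _ := by ring

/-- the sums over `d` and `r` -/
theorem fin_outer (κ K : ℕ) {I : ℕ → ℕ → ℝ} {Y : ℝ} (hY : 0 ≤ Y)
    (hI : ∀ d r : ℕ, 1 ≤ d → 1 ≤ r → d ≤ K → r ≤ K → Squarefree d → I d r ≤ (tau d * tau r) ^ κ * r * Y) :
    ∑ d ∈ (Icc 1 K).filter Squarefree, ∑ r ∈ Icc 1 K, 1 / ((d : ℝ) * (r * Nat.totient r)) * I d r
      ≤ Y * (2 * (1 + Real.log K) ^ (2 ^ κ + 2 ^ κ + 1)) := by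
  rcases Nat.eq_zero_or_pos K with hK | hK
  · subst hK
    simp only [Nat.cast_zero, Real.log_zero, add_zero, one_pow, mul_one]
    simp
    positivity
  have hlK : 0 ≤ Real.log K := Real.log_nonneg (by exact_mod_cast hK)
  have ht : ∀ n : ℕ, 1 ≤ n → 0 ≤ tau n ^ κ := fun n hn => pow_nonneg (zero_le_one.trans (one_le_tau hn)) κ
  calc ∑ d ∈ (Icc 1 K).filter Squarefree, ∑ r ∈ Icc 1 K, 1 / ((d : ℝ) * (r * Nat.totient r)) * I d r
      ≤ ∑ d ∈ (Icc 1 K).filter Squarefree, ∑ r ∈ Icc 1 K, Y * ((tau d ^ κ / d) * (tau r ^ κ / Nat.totient r)) := by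
        refine sum_le_sum fun d hd => sum_le_sum fun r hr => ?_
        rw [mem_filter, mem_Icc] at hd
        rw [mem_Icc] at hr
        have hd0 : (0 : ℝ) < d := by exact_mod_cast hd.1.1
        have hr0 : (0 : ℝ) < r := by exact_mod_cast hr.1
        have hph : (0 : ℝ) < Nat.totient r := by exact_mod_cast Nat.totient_pos.2 (by omega)
        calc 1 / ((d : ℝ) * (r * Nat.totient r)) * I d r
            ≤ 1 / ((d : ℝ) * (r * Nat.totient r)) * ((tau d * tau r) ^ κ * r * Y) :=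
              mul_le_mul_of_nonneg_left (hI d r hd.1.1 hr.1 hd.1.2 hr.2 hd.2) (by positivity)
          _ = Y * ((tau d ^ κ / d) * (tau r ^ κ / Nat.totient r)) := by
              rw [mul_pow]
              field_simp
    _ ≤ ∑ d ∈ Icc 1 K, ∑ r ∈ Icc 1 K, Y * ((tau d ^ κ / d) * (tau r ^ κ / Nat.totient r)) := by
        refine Finset.sum_le_sum_of_subset_of_nonneg (Finset.filter_subset _ _) fun d hd _ => sum_nonneg fun r hr => ?_
        rw [mem_Icc] at hd hr
        exact mul_nonneg hY (mul_nonneg (div_nonneg (ht d hd.1) (Nat.cast_nonneg _)) (div_nonneg (ht r hr.1) (Nat.cast_nonneg _)))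
    _ = Y * ((∑ d ∈ Icc 1 K, tau d ^ κ / d) * ∑ r ∈ Icc 1 K, tau r ^ κ / Nat.totient r) := by
        rw [Finset.sum_mul_sum, Finset.mul_sum]
        refine sum_congr rfl fun d _ => ?_
        rw [Finset.mul_sum]
    _ ≤ Y * ((1 + Real.log K) ^ (2 ^ κ) * (2 * (1 + Real.log K) ^ (2 ^ κ + 1))) := by
        refine mul_le_mul_of_nonneg_left ?_ hY
        refine mul_le_mul (sum_tau_pow_div κ K) (sum_tau_totient κ K) ?_ (by positivity)
        exact sum_nonneg fun r hr => div_nonneg (ht r (mem_Icc.1 hr).1) (Nat.cast_nonneg _)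
    _ = _ := by ring

/-- `1/(√q φ(q)) ≤ 6 (1 + log Q)/(Q √Q)` for `Q/2 < q ≤ Q` -/
theorem inv_sqrt_totient {q Q : ℕ} (hq : 1 ≤ q) (hqQ : q ≤ Q) (hQ : Q < 2 * q) :
    1 / (√(q : ℝ) * Nat.totient q) ≤ 6 * (1 + Real.log Q) / (Q * √(Q : ℝ)) := by
  have hq0 : (0 : ℝ) < q := by exact_mod_cast hq
  have hQ0 : (0 : ℝ) < Q := by exact_mod_cast (by omega : 0 < Q)
  have hph : (0 : ℝ) < Nat.totient q := by exact_mod_cast Nat.totient_pos.2 (by omega)
  have hlog : Real.log q ≤ Real.log Q := Real.log_le_log hq0 (by exact_mod_cast hqQ)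
  have hlQ : 0 ≤ Real.log Q := Real.log_nonneg (by exact_mod_cast (by omega : 1 ≤ Q))
  have h1 : (q : ℝ) ≤ 2 * (1 + Real.log Q) * Nat.totient q := by
    refine (le_totient (n := q) hq).trans ?_
    gcongr
  have h2 : (Q : ℝ) ≤ 2 * q := by exact_mod_cast hQ.le
  have h3 : √(Q : ℝ) ≤ 3 / 2 * √(q : ℝ) := by
    rw [show (3 / 2 : ℝ) = √((3 / 2) ^ 2) by rw [Real.sqrt_sq (by norm_num)], ← Real.sqrt_mul (by norm_num)]
    exact Real.sqrt_le_sqrt (by nlinarith)
  rw [div_le_div_iff₀ (by positivity) (by positivity), one_mul]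
  calc (Q : ℝ) * √(Q : ℝ) ≤ (2 * q) * (3 / 2 * √(q : ℝ)) := by gcongr
    _ = 3 * √(q : ℝ) * q := by ring
    _ ≤ 3 * √(q : ℝ) * (2 * (1 + Real.log Q) * Nat.totient q) := by gcongr
    _ = 6 * (1 + Real.log Q) * (√(q : ℝ) * Nat.totient q) := by ring

/-- the large moduli -/
theorem fin_large {d r N0 K : ℕ} {f : AF} {D η lb : ℝ} (hK : 1 ≤ K) (hr : 1 ≤ r) (hd : 1 ≤ d) (hD : 0 ≤ D) (hη : 0 ≤ η) (hlb : 0 < lb)
    (hcore : ∀ Q : ℕ, 1 ≤ Q → (d : ℝ) * r * Q ≤ 2 * K →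
      Er Q (N0 * r * Q) f ≤ D * ((N0 : ℝ) * r * Q * √Q) * (1 / √Q + η)) :
    ∑ q ∈ ((Icc 2 K).filter (fun q => d * r * q ≤ K)).filter (fun q : ℕ => lb ^ 2 < q),
        (1 / (√(q : ℝ) * Nat.totient q)) * ∑ ψ ∈ pc q, MX f ψ (N0 * r * q)
      ≤ (Nat.clog 2 K + 1) * (6 * (1 + Real.log (2 * K)) * D * (N0 * r) * (1 / lb + η)) := by
  classical
  have hlK : 0 ≤ Real.log (2 * K) := Real.log_nonneg (by
    have : (1 : ℝ) ≤ K := by exact_mod_cast hK
    linarith)
  set S := ((Icc 2 K).filter (fun q => d * r * q ≤ K)).filter (fun q : ℕ => lb ^ 2 < q) with hS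
  rw [← Finset.sum_fiberwise_of_maps_to (s := S) (t := range (Nat.clog 2 K + 1)) (g := fun q => Nat.clog 2 q)]
  · have hcard : ((range (Nat.clog 2 K + 1)).card : ℝ) = (Nat.clog 2 K + 1 : ℝ) := by simp
    rw [← hcard, ← nsmul_eq_mul]
    refine Finset.sum_le_card_nsmul _ _ _ fun i _ => ?_
    rcases (S.filter (fun q => Nat.clog 2 q = i)).eq_empty_or_nonempty with he | ⟨q0, hq0⟩
    · rw [he, Finset.sum_empty]
      positivity
    -- the block `Q = 2^i`
    have hmem : ∀ q ∈ S.filter (fun q => Nat.clog 2 q = i), 2 ≤ q ∧ q ≤ 2 ^ i ∧ 2 ^ i < 2 * q ∧ d * r * q ≤ K ∧ lb ^ 2 < q ∧ q ≤ K := by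
      intro q hq
      simp only [hS, mem_filter, mem_Icc] at hq
      obtain ⟨⟨⟨⟨h1, h2⟩, h3⟩, h4⟩, h5⟩ := hq
      refine ⟨h1, ?_, ?_, h3, h4, h2⟩
      · rw [← h5]; exact Nat.le_pow_clog (by norm_num) q
      · have h6 := Nat.pow_pred_clog_lt_self (b := 2) (by norm_num) (x := q) (by omega)
        have h7 : 0 < Nat.clog 2 q := Nat.clog_pos (by norm_num) (by omega)
        rw [← h5]
        have h8 : (Nat.clog 2 q).pred + 1 = Nat.clog 2 q := Nat.succ_pred_eq_of_pos h7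
        calc 2 ^ Nat.clog 2 q = 2 * 2 ^ (Nat.clog 2 q).pred := by
              rw [← pow_succ', h8]
          _ < 2 * q := by omega
    obtain ⟨a1, a2, a3, a4, a5, a6⟩ := hmem q0 hq0
    set Q : ℕ := 2 ^ i with hQdef
    have hQ1 : 1 ≤ Q := Nat.one_le_two_pow
    have hQ0 : (0 : ℝ) < Q := by exact_mod_cast hQ1
    have hsQ : 0 < √(Q : ℝ) := Real.sqrt_pos.2 hQ0
    have hQK : (Q : ℝ) ≤ 2 * K := by
      have : Q ≤ 2 * K := by omega
      exact_mod_cast this
    have hcQ := hcore Q hQ1 (by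
      have : d * r * Q ≤ 2 * K := by
        calc d * r * Q ≤ d * r * (2 * q0) := Nat.mul_le_mul_left _ a3.le
          _ = 2 * (d * r * q0) := by ring
          _ ≤ 2 * K := by omega
      exact_mod_cast this)
    have hlogQ : 1 + Real.log Q ≤ 1 + Real.log (2 * K) := by
      have := Real.log_le_log hQ0 hQK
      linarith
    have hlQ : 0 ≤ Real.log Q := Real.log_nonneg (by exact_mod_cast hQ1)
    have hlbQ : 1 / √(Q : ℝ) ≤ 1 / lb := by
      refine one_div_le_one_div_of_le hlb ?_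
      rw [show lb = √(lb ^ 2) by rw [Real.sqrt_sq hlb.le]]
      refine Real.sqrt_le_sqrt (a5.le.trans (by exact_mod_cast a2))
    calc ∑ q ∈ S.filter (fun q => Nat.clog 2 q = i), (1 / (√(q : ℝ) * Nat.totient q)) * ∑ ψ ∈ pc q, MX f ψ (N0 * r * q)
        ≤ ∑ q ∈ S.filter (fun q => Nat.clog 2 q = i), (6 * (1 + Real.log Q) / (Q * √(Q : ℝ))) * ∑ ψ ∈ pc q, MX f ψ (N0 * r * Q) := by
          refine sum_le_sum fun q hq => ?_
          obtain ⟨b1, b2, b3, b4, b5, b6⟩ := hmem q hq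
          refine mul_le_mul (inv_sqrt_totient (by omega) b2 b3) ?_ (sum_nonneg fun _ _ => MX_nonneg _ _ _) (by positivity)
          exact sum_le_sum fun ψ _ => MX_mono (Nat.mul_le_mul_left _ b2)
      _ = (6 * (1 + Real.log Q) / (Q * √(Q : ℝ))) * ∑ q ∈ S.filter (fun q => Nat.clog 2 q = i), ∑ ψ ∈ pc q, MX f ψ (N0 * r * Q) := by
          rw [Finset.mul_sum]
      _ ≤ (6 * (1 + Real.log Q) / (Q * √(Q : ℝ))) * Er Q (N0 * r * Q) f := by
          refine mul_le_mul_of_nonneg_left ?_ (by positivity)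
          refine Finset.sum_le_sum_of_subset_of_nonneg (fun q hq => ?_) fun q _ _ => sum_nonneg fun _ _ => MX_nonneg _ _ _
          obtain ⟨b1, b2, _⟩ := hmem q hq
          exact mem_Icc.2 ⟨by omega, b2⟩
      _ ≤ (6 * (1 + Real.log Q) / (Q * √(Q : ℝ))) * (D * ((N0 : ℝ) * r * Q * √Q) * (1 / √Q + η)) :=
          mul_le_mul_of_nonneg_left hcQ (by positivity)
      _ = 6 * (1 + Real.log Q) * D * (N0 * r) * (1 / √Q + η) := by
          field_simp
      _ ≤ 6 * (1 + Real.log (2 * K)) * D * (N0 * r) * (1 / lb + η) := by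
          gcongr
  · intro q hq
    simp only [hS, mem_filter, mem_Icc] at hq
    rw [mem_range]
    have := Nat.clog_mono_right 2 hq.1.1.2
    omega

end SZE
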