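import Pool.Agent.H91.SZE.Coe

/-!
# LST: `f (d n)`, `(n, r) = 1`, for a product of a list of functions
-/

open Finset H69LB BVL

namespace SZE

theorem af_sum_apply {ι : Type*} (s : Finset ι) (F : ι → AF) (n : ℕ) : (∑ i ∈ s, F i) n = ∑ i ∈ s, F i n := by
  classical
  induction s using Finset.induction_on with
  | empty => simp
  | insert a s ha ih => rw [sum_insert ha, sum_insert ha, ArithmeticFunction.add_apply, ih]

theorem dil_add (d : ℕ) (f g : AF) : dil d (f + g) = dil d f + dil d g := by
  ext n; simp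

theorem cop_add (e : ℕ) (f g : AF) : cop e (f + g) = cop e f + cop e g := by
  ext n
  simp only [cop_apply, ArithmeticFunction.add_apply]
  split_ifs <;> simp

theorem cop_zero (e : ℕ) : cop e (0 : AF) = 0 := by
  ext n; simp

theorem cop_sum {ι : Type*} (e : ℕ) (s : Finset ι) (F : ι → AF) : cop e (∑ i ∈ s, F i) = ∑ i ∈ s, cop e (F i) := by
  classical
  induction s using Finset.induction_on with
  | empty => simp [cop_zero]
  | insert a s ha ih => rw [sum_insert ha, sum_insert ha, cop_add, ih]

theorem cop_cop (a b : ℕ) (f : AF) : cop a (cop b f) = cop (a * b) f := by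
  ext n
  simp only [cop_apply, Nat.coprime_mul_iff_right]
  split_ifs <;> tauto

theorem cop_mul (e : ℕ) (f g : AF) : cop e (f * g) = cop e f * cop e g := by
  ext n
  rw [cop_apply, ArithmeticFunction.mul_apply, ArithmeticFunction.mul_apply]
  by_cases h : n.Coprime e
  · rw [if_pos h]
    refine sum_congr rfl fun x hx => ?_
    rw [Nat.mem_divisorsAntidiagonal] at hx
    have h1 : x.1.Coprime e := Nat.Coprime.coprime_dvd_left ⟨x.2, hx.1.symm⟩ h
    have h2 : x.2.Coprime e := Nat.Coprime.coprime_dvd_left ⟨x.1, by rw [mul_comm]; exact hx.1.symm⟩ h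
    rw [cop_apply, cop_apply, if_pos h1, if_pos h2]
  · rw [if_neg h]
    refine (sum_eq_zero fun x hx => ?_).symm
    rw [Nat.mem_divisorsAntidiagonal] at hx
    rw [cop_apply, cop_apply]
    by_cases h1 : x.1.Coprime e
    · by_cases h2 : x.2.Coprime e
      · exact absurd (by rw [← hx.1]; exact Nat.Coprime.mul_left h1 h2) h
      · rw [if_neg h2, mul_zero]
    · rw [if_neg h1, zero_mul]

theorem dil_mul {d : ℕ} (hd : 1 ≤ d) (f g : AF) :
    dil d (f * g) = ∑ p ∈ d.divisorsAntidiagonal, cop p.2 (dil p.1 f) * dil p.2 g := by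
  ext n
  rw [af_sum_apply]
  rcases Nat.eq_zero_or_pos n with hn | hn
  · rw [hn]
    simp
  have e1 : ∑ p ∈ d.divisorsAntidiagonal, (cop p.2 (dil p.1 f) * dil p.2 g) n =
      ∑ z ∈ (d.divisorsAntidiagonal ×ˢ n.divisorsAntidiagonal).filter (fun z => z.2.1.Coprime z.1.2),
        f (z.1.1 * z.2.1) * g (z.1.2 * z.2.2) := by
    rw [sum_filter, sum_product]
    refine sum_congr rfl fun p _ => ?_
    rw [ArithmeticFunction.mul_apply]
    refine sum_congr rfl fun x _ => ?_
    rw [cop_apply, dil_apply, dil_apply]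
    split_ifs <;> simp
  rw [e1, dil_apply, ArithmeticFunction.mul_apply]
  refine Finset.sum_bij' (fun x _ => ((x.1.gcd d, d / x.1.gcd d), (x.1 / x.1.gcd d, x.2 / (d / x.1.gcd d))))
    (fun z _ => (z.1.1 * z.2.1, z.1.2 * z.2.2)) ?_ ?_ ?_ ?_ ?_
  · rintro ⟨a, b⟩ h
    rw [Nat.mem_divisorsAntidiagonal] at h
    simp only at h
    obtain ⟨hab, hne⟩ := h
    have ha : 0 < a := Nat.pos_of_ne_zero (by rintro rfl; rw [zero_mul] at hab; exact hne hab.symm)
    have hg : 0 < a.gcd d := Nat.gcd_pos_of_pos_left _ ha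
    obtain ⟨u, v, hcop, hu, hv⟩ := Nat.exists_coprime a d
    set g0 := a.gcd d with hg0
    have h1 : a / g0 = u := by
      conv_lhs => rw [hu]
      exact Nat.mul_div_cancel _ hg
    have h2 : d / g0 = v := by
      conv_lhs => rw [hv]
      exact Nat.mul_div_cancel _ hg
    have hv0 : 0 < v := Nat.pos_of_ne_zero (by rintro rfl; rw [zero_mul] at hv; omega)
    have h3 : u * b = v * n := by
      have h4 : g0 * (u * b) = g0 * (v * n) := by
        calc g0 * (u * b) = (u * g0) * b := by ring
          _ = a * b := by rw [← hu]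
          _ = d * n := hab
          _ = (v * g0) * n := by rw [← hv]
          _ = g0 * (v * n) := by ring
      exact Nat.eq_of_mul_eq_mul_left hg h4
    have h5 : v ∣ b := (hcop.symm).dvd_of_dvd_mul_left ⟨n, h3⟩
    obtain ⟨w, hw⟩ := h5
    have h6 : b / v = w := by rw [hw]; exact Nat.mul_div_cancel_left _ hv0
    have h7 : u * w = n := by
      have h8 : v * (u * w) = v * n := by rw [← h3, hw]; ring
      exact Nat.eq_of_mul_eq_mul_left hv0 h8
    rw [mem_filter, mem_product, Nat.mem_divisorsAntidiagonal, Nat.mem_divisorsAntidiagonal]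
    simp only
    rw [h1, h2, h6]
    exact ⟨⟨⟨by rw [mul_comm]; exact hv.symm, by omega⟩, h7, by omega⟩, hcop⟩
  · rintro ⟨⟨p, q⟩, ⟨x, y⟩⟩ h
    rw [mem_filter, mem_product, Nat.mem_divisorsAntidiagonal, Nat.mem_divisorsAntidiagonal] at h
    simp only at h
    rw [Nat.mem_divisorsAntidiagonal]
    simp only
    obtain ⟨⟨⟨h1, h2⟩, h3, h4⟩, h5⟩ := h
    refine ⟨?_, by positivity⟩
    rw [← h1, ← h3]
    ring
  · rintro ⟨a, b⟩ h
    rw [Nat.mem_divisorsAntidiagonal] at h
    simp only at h
    obtain ⟨hab, hne⟩ := h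
    have ha : 0 < a := Nat.pos_of_ne_zero (by rintro rfl; rw [zero_mul] at hab; exact hne hab.symm)
    have hg : 0 < a.gcd d := Nat.gcd_pos_of_pos_left _ ha
    obtain ⟨u, v, hcop, hu, hv⟩ := Nat.exists_coprime a d
    set g0 := a.gcd d with hg0
    have h2 : d / g0 = v := by
      conv_lhs => rw [hv]
      exact Nat.mul_div_cancel _ hg
    have hv0 : 0 < v := Nat.pos_of_ne_zero (by rintro rfl; rw [zero_mul] at hv; omega)
    have h3 : u * b = v * n := by
      have h4 : g0 * (u * b) = g0 * (v * n) := by
        calc g0 * (u * b) = (u * g0) * b := by ring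
          _ = a * b := by rw [← hu]
          _ = d * n := hab
          _ = (v * g0) * n := by rw [← hv]
          _ = g0 * (v * n) := by ring
      exact Nat.eq_of_mul_eq_mul_left hg h4
    have h5 : v ∣ b := (hcop.symm).dvd_of_dvd_mul_left ⟨n, h3⟩
    simp only
    rw [h2, Nat.mul_div_cancel' (Nat.gcd_dvd_left a d), Nat.mul_div_cancel' h5]
  · rintro ⟨⟨p, q⟩, ⟨x, y⟩⟩ h
    rw [mem_filter, mem_product, Nat.mem_divisorsAntidiagonal, Nat.mem_divisorsAntidiagonal] at h
    simp only at h
    obtain ⟨⟨⟨h1, h2⟩, h3, h4⟩, h5⟩ := h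
    have hp : 0 < p := Nat.pos_of_ne_zero (by rintro rfl; rw [zero_mul] at h1; omega)
    have hq : 0 < q := Nat.pos_of_ne_zero (by rintro rfl; rw [mul_zero] at h1; omega)
    have h6 : (p * x).gcd d = p := by
      rw [← h1, Nat.gcd_mul_left, h5, mul_one]
    simp only
    rw [h6, ← h1, Nat.mul_div_cancel_left _ hp, Nat.mul_div_cancel_left _ hp, Nat.mul_div_cancel_left _ hq]
  · rintro ⟨a, b⟩ h
    rw [Nat.mem_divisorsAntidiagonal] at h
    simp only at h
    obtain ⟨hab, hne⟩ := h
    have ha : 0 < a := Nat.pos_of_ne_zero (by rintro rfl; rw [zero_mul] at hab; exact hne hab.symm)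
    have hg : 0 < a.gcd d := Nat.gcd_pos_of_pos_left _ ha
    obtain ⟨u, v, hcop, hu, hv⟩ := Nat.exists_coprime a d
    set g0 := a.gcd d with hg0
    have h2 : d / g0 = v := by
      conv_lhs => rw [hv]
      exact Nat.mul_div_cancel _ hg
    have hv0 : 0 < v := Nat.pos_of_ne_zero (by rintro rfl; rw [zero_mul] at hv; omega)
    have h3 : u * b = v * n := by
      have h4 : g0 * (u * b) = g0 * (v * n) := by
        calc g0 * (u * b) = (u * g0) * b := by ring
          _ = a * b := by rw [← hu]
          _ = d * n := hab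
          _ = (v * g0) * n := by rw [← hv]
          _ = g0 * (v * n) := by ring
      exact Nat.eq_of_mul_eq_mul_left hg h4
    have h5 : v ∣ b := (hcop.symm).dvd_of_dvd_mul_left ⟨n, h3⟩
    simp only
    rw [h2, Nat.mul_div_cancel' (Nat.gcd_dvd_left a d), Nat.mul_div_cancel' h5]

/-- `f (d n)`, `(n, r) = 1`, for a product of a list -/
theorem dil_list (fs : List AF) : ∀ (d r : ℕ), 1 ≤ d → 1 ≤ r → ∃ S : List (List AF),
    (S.length : ℝ) ≤ tau d ^ fs.length ∧ (∀ gs ∈ S, List.Forall₂ (Rel d r) fs gs) ∧
    cop r (dil d fs.prod) = (S.map List.prod).sum := by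
  induction fs with
  | nil =>
    intro d r hd hr
    rcases Nat.eq_or_lt_of_le hd with h | h
    · refine ⟨[[]], by simp, by simp, ?_⟩
      rw [← h]
      ext n
      rw [cop_apply, dil_apply]
      simp only [List.prod_nil, one_mul, List.map_cons, List.map_nil, List.sum_cons, List.sum_nil, add_zero]
      rw [ArithmeticFunction.one_apply]
      by_cases hn : n = 1
      · rw [hn]; simp
      · rw [if_neg hn]; simp
    · refine ⟨[], by simp, by simp, ?_⟩
      ext n
      rw [cop_apply, dil_apply]
      simp only [List.prod_nil, List.map_nil, List.sum_nil, ArithmeticFunction.zero_apply]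
      have h2 : d * n ≠ 1 := by
        intro h1
        have := Nat.eq_one_of_mul_eq_one_right h1
        omega
      rw [ArithmeticFunction.one_apply_ne h2]
      simp
  | cons f fs ih =>
    intro d r hd hr
    -- one list for each divisor pair
    have h1 : ∀ p ∈ d.divisorsAntidiagonal, ∃ S : List (List AF),
        (S.length : ℝ) ≤ tau d ^ fs.length ∧ (∀ gs ∈ S, List.Forall₂ (Rel d r) (f :: fs) gs) ∧
        cop r (cop p.2 (dil p.1 f) * dil p.2 fs.prod) = (S.map List.prod).sum := by
      intro p hp
      rw [Nat.mem_divisorsAntidiagonal] at hp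
      have hp2 : 1 ≤ p.2 := Nat.one_le_iff_ne_zero.2 (by rintro h; rw [h] at hp; simp at hp; omega)
      have hp2d : p.2 ∣ d := ⟨p.1, by rw [mul_comm]; exact hp.1.symm⟩
      obtain ⟨S, hS1, hS2, hS3⟩ := ih p.2 r hp2 hr
      refine ⟨S.map (fun gs => cop (r * p.2) (dil p.1 f) :: gs), ?_, ?_, ?_⟩
      · rw [List.length_map]
        exact hS1.trans (pow_le_pow_left₀ (tau_nonneg _) (tau_dvd_le hp2d hd) _)
      · intro gs hgs
        rw [List.mem_map] at hgs
        obtain ⟨gs', hgs', rfl⟩ := hgs
        refine List.Forall₂.cons ⟨p.1, p.2, by rw [hp.1], rfl⟩ ?_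
        refine List.Forall₂.imp ?_ (hS2 gs' hgs')
        rintro a b ⟨d1, d2, h2, h3⟩
        exact ⟨d1, d2, h2.trans hp2d, h3⟩
      · rw [cop_mul, cop_cop, hS3, List.map_map]
        have : ∀ S : List (List AF), cop (r * p.2) (dil p.1 f) * (S.map List.prod).sum =
            (S.map (List.prod ∘ fun gs => cop (r * p.2) (dil p.1 f) :: gs)).sum := by
          intro S
          induction S with
          | nil => simp
          | cons a S ihS => simp only [List.map_cons, List.sum_cons, mul_add, ihS, Function.comp_apply, List.prod_cons]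
        exact this S
    choose! S hS1 hS2 hS3 using h1
    refine ⟨(d.divisorsAntidiagonal.toList.map S).flatten, ?_, ?_, ?_⟩
    · rw [List.length_flatten, List.map_map]
      have h2 : ∀ l : List (ℕ × ℕ), (∀ p ∈ l, p ∈ d.divisorsAntidiagonal) →
          (((l.map (List.length ∘ S)).sum : ℕ) : ℝ) ≤ l.length * tau d ^ fs.length := by
        intro l
        induction l with
        | nil => intro _; simp
        | cons a l ihl =>
          intro hl
          simp only [List.map_cons, List.sum_cons, List.length_cons, Nat.cast_add, Nat.cast_one, Function.comp_apply]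
          have h3 := ihl fun p hp => hl p (List.mem_cons_of_mem _ hp)
          have h4 := hS1 a (hl a List.mem_cons_self)
          linarith
      refine (h2 _ fun p hp => by simpa using hp).trans (le_of_eq ?_)
      rw [Finset.length_toList, List.length_cons, pow_succ']
      congr 1
      unfold tau
      rw [← Nat.map_div_right_divisors, Finset.card_map]
    · intro gs hgs
      rw [List.mem_flatten] at hgs
      obtain ⟨l, hl, hgl⟩ := hgs
      rw [List.mem_map] at hl
      obtain ⟨p, hp, rfl⟩ := hl
      exact hS2 p (by simpa using hp) gs hgl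
    · rw [List.prod_cons, dil_mul hd, cop_sum, List.map_flatten, List.sum_flatten, List.map_map, List.map_map]
      rw [Finset.sum_congr rfl hS3]
      exact (Finset.sum_map_toList _ _).symm

end SZE
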