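import Pool.Agent.H91.SZE.Cor

/-!
# NUM: the size of the core bound
-/

open Finset H69LB BVL

namespace SZE

theorem bd_num {s u : ℝ} (hu : 1 ≤ u) (hs : 0 < s) {N0 r Q A0 A1 : ℕ} (hr : 1 ≤ r) (hQ : 1 ≤ Q)
    (hrQ : (r : ℝ) * Q ≤ 2 * s / u ^ 4) (hN0 : s ^ 2 ≤ N0) (h0 : (A0 : ℝ) ≤ s / u ^ 2) (h0' : s / u ^ 2 ≤ 2 * A0)
    (h1 : s ^ 2 / u ^ 2 ≤ A1) (h1' : (A1 : ℝ) ≤ 2 * (s ^ 2 / u ^ 2)) :
    BD (N0 * r * Q) Q A0 A1 ≤ 20 * ((N0 : ℝ) * r * Q * √Q) * (1 / √Q + 1 / u) := by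
  have hu0 : 0 < u := by linarith
  have hrR : (1 : ℝ) ≤ r := by exact_mod_cast hr
  have hQR : (1 : ℝ) ≤ Q := by exact_mod_cast hQ
  have hN0p : (0 : ℝ) < N0 := lt_of_lt_of_le (by positivity) hN0
  have hA0p : (0 : ℝ) < A0 := by
    have : 0 < s / u ^ 2 := by positivity
    linarith
  have hA1p : (0 : ℝ) < A1 := lt_of_lt_of_le (by positivity) h1
  have hcast : ((N0 * r * Q : ℕ) : ℝ) = N0 * r * Q := by push_cast; ring
  -- sizes
  have hQ1 : (Q : ℝ) ≤ 2 * s / u ^ 4 := le_trans (by nlinarith) hrQ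
  have u4 : (1 : ℝ) ≤ u ^ 3 := one_le_pow₀ hu
  have hQu : (Q : ℝ) ≤ 2 * s / u := by
    refine hQ1.trans ?_
    rw [div_le_div_iff₀ (by positivity) hu0]
    have : s * u ≤ s * u ^ 4 := by
      refine mul_le_mul_of_nonneg_left ?_ hs.le
      nlinarith [mul_le_mul_of_nonneg_left u4 hu0.le]
    linarith
  have sN : √(N0 * r * Q : ℝ) = √(N0 * r : ℝ) * √Q := Real.sqrt_mul (by positivity) _
  have sNr : s ≤ √(N0 * r : ℝ) := by
    refine Real.le_sqrt_of_sq_le ?_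
    nlinarith
  have sq1 : √(N0 * r : ℝ) * √(N0 * r : ℝ) = N0 * r := Real.mul_self_sqrt (by positivity)
  have sq2 : √(Q : ℝ) * √Q = Q := Real.mul_self_sqrt (by positivity)
  have sQ1 : 1 ≤ √(Q : ℝ) := by
    rw [Real.one_le_sqrt]
    exact hQR
  set M : ℝ := (N0 : ℝ) * r * Q * √Q with hM
  have hM0 : 0 ≤ M := by positivity
  -- term 1
  have e1 : (Q : ℝ) ^ 2 * √((N0 * r * Q : ℕ) : ℝ) ≤ 2 * M * (1 / u) := by
    rw [hcast, sN]
    have h : (Q : ℝ) ≤ 2 * √(N0 * r : ℝ) / u := by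
      refine hQu.trans ?_
      gcongr
    calc (Q : ℝ) ^ 2 * (√(N0 * r : ℝ) * √Q) = Q * (Q * √(N0 * r : ℝ) * √Q) := by ring
      _ ≤ (2 * √(N0 * r : ℝ) / u) * (Q * √(N0 * r : ℝ) * √Q) := by gcongr
      _ = 2 * ((√(N0 * r : ℝ) * √(N0 * r : ℝ)) * Q * √Q) * (1 / u) := by ring
      _ = _ := by rw [sq1]
  -- term 2
  have e2 : (Q : ℝ) * √(((N0 * r * Q : ℕ) : ℝ) * A1) ≤ 2 * M * (1 / u) := by
    rw [hcast, Real.sqrt_mul (by positivity), sN]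
    have h : √(A1 : ℝ) ≤ 2 * √(N0 * r : ℝ) / u := by
      have h2 : √(A1 : ℝ) ≤ 2 * s / u := by
        rw [Real.sqrt_le_left (by positivity)]
        refine h1'.trans ?_
        rw [div_pow, mul_pow, ← mul_div_assoc]
        gcongr
        nlinarith
      refine h2.trans ?_
      gcongr
    calc (Q : ℝ) * (√(N0 * r : ℝ) * √Q * √A1) = √A1 * (Q * √(N0 * r : ℝ) * √Q) := by ring
      _ ≤ (2 * √(N0 * r : ℝ) / u) * (Q * √(N0 * r : ℝ) * √Q) := by gcongr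
      _ = 2 * ((√(N0 * r : ℝ) * √(N0 * r : ℝ)) * Q * √Q) * (1 / u) := by ring
      _ = _ := by rw [sq1]
  -- term 3
  have e3 : (Q : ℝ) * √((N0 * r * Q : ℕ) : ℝ) * √(((N0 * r * Q : ℕ) : ℝ) / A0) ≤ 2 * M * (1 / u) := by
    rw [hcast, Real.sqrt_div (by positivity)]
    have h : √(Q : ℝ) ≤ 2 / u * √A0 := by
      have h2 : (Q : ℝ) ≤ (2 / u) ^ 2 * A0 := by
        have h3 : (Q : ℝ) ≤ 4 * A0 / u ^ 2 := by
          refine hQ1.trans ?_
          have h4 : s / u ^ 2 / u ^ 2 ≤ 2 * A0 / u ^ 2 := by gcongr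
          have h5 : 2 * s / u ^ 4 = 2 * (s / u ^ 2 / u ^ 2) := by
            field_simp
          rw [h5]
          have h6 : 4 * A0 / u ^ 2 = 2 * (2 * A0 / u ^ 2) := by ring
          rw [h6]
          linarith
        refine h3.trans (le_of_eq ?_)
        rw [div_pow]
        ring
      calc √(Q : ℝ) ≤ √((2 / u) ^ 2 * A0) := Real.sqrt_le_sqrt h2
        _ = _ := by rw [Real.sqrt_mul (by positivity), Real.sqrt_sq (by positivity)]
    have hA0s : 0 < √(A0 : ℝ) := Real.sqrt_pos.2 hA0p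
    have sqN : √(N0 * r * Q : ℝ) * √(N0 * r * Q : ℝ) = N0 * r * Q := Real.mul_self_sqrt (by positivity)
    calc (Q : ℝ) * √(N0 * r * Q : ℝ) * (√(N0 * r * Q : ℝ) / √A0)
        = Q * (√(N0 * r * Q : ℝ) * √(N0 * r * Q : ℝ)) / √A0 := by ring
      _ = (√Q * √Q) * (N0 * r * Q) / √A0 := by rw [sqN, sq2]
      _ = √Q * (N0 * r * Q * √Q) / √A0 := by ring
      _ ≤ (2 / u * √A0) * (N0 * r * Q * √Q) / √A0 := by gcongr
      _ = 2 * M * (1 / u) := by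
          rw [hM]
          field_simp
  -- term 4
  have e4 : ((N0 * r * Q : ℕ) : ℝ) = M * (1 / √Q) := by
    rw [hcast, hM]
    have : √(Q : ℝ) ≠ 0 := by positivity
    field_simp
  -- term 5
  have e5 : (Q : ℝ) ^ 2 * √Q * (((N0 * r * Q : ℕ) : ℝ) / A1) ≤ 4 * M * (1 / u) := by
    rw [hcast]
    have h : (Q : ℝ) ^ 2 ≤ 4 / u * A1 := by
      have h2 : (Q : ℝ) ^ 2 ≤ (2 * s / u ^ 4) ^ 2 := pow_le_pow_left₀ (by positivity) hQ1 2
      refine h2.trans ?_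
      have h3 : 4 / u * (s ^ 2 / u ^ 2) ≤ 4 / u * A1 := by gcongr
      refine le_trans ?_ h3
      rw [div_pow, mul_pow, div_mul_div_comm, div_le_div_iff₀ (by positivity) (by positivity)]
      have h4 : u ^ 3 ≤ u ^ 8 := pow_le_pow_right₀ hu (by norm_num)
      have h5 : 0 ≤ 4 * s ^ 2 := by positivity
      calc (2 : ℝ) ^ 2 * s ^ 2 * (u * u ^ 2) = 4 * s ^ 2 * u ^ 3 := by ring
        _ ≤ 4 * s ^ 2 * u ^ 8 := mul_le_mul_of_nonneg_left h4 h5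
        _ = _ := by ring
    calc (Q : ℝ) ^ 2 * √Q * (N0 * r * Q / A1) ≤ (4 / u * A1) * √Q * (N0 * r * Q / A1) := by gcongr
      _ = 4 * M * (1 / u) := by
          rw [hM]
          field_simp
  -- term 6
  have e6 : (Q : ℝ) ^ 2 * A0 ≤ 2 * M * (1 / u) := by
    have h : (Q : ℝ) * A0 ≤ 2 * (N0 * r) * (1 / u) := by
      calc (Q : ℝ) * A0 ≤ (2 * s / u) * (s / u ^ 2) := by gcongr
        _ ≤ (2 * s / u) * (s / 1) := by
            gcongr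
            exact one_le_pow₀ hu
        _ = 2 * (s ^ 2 * 1) * (1 / u) := by ring
        _ ≤ 2 * (N0 * r) * (1 / u) := by gcongr
    calc (Q : ℝ) ^ 2 * A0 = (Q * A0) * (Q * 1) := by ring
      _ ≤ (2 * (N0 * r) * (1 / u)) * (Q * √Q) := by gcongr
      _ = _ := by rw [hM]; ring
  unfold BD
  have hfin : (0 : ℝ) ≤ M * (1 / √Q) := by positivity
  have hfin' : (0 : ℝ) ≤ M * (1 / u) := by positivity
  calc _ ≤ 2 * M * (1 / u) + 2 * M * (1 / u) + 2 * M * (1 / u) + M * (1 / √Q) + 4 * M * (1 / u) + 2 * M * (1 / u) := by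
        linarith [e1, e2, e3, e4.le, e5, e6]
    _ ≤ _ := by nlinarith

end SZE
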