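import Pool.Agent.H91.SZE.Coe
import Pool.Agent.H91.SZE.PV
import Pool.Agent.H17.BV.SW
import Pool.Agent.H17.BV.OrB

/-!
# SWC: Siegel-Walfisz with a coprimality condition, on intervals
-/

open Finset H69LB BVL

namespace SZE

theorem lam_nn (n : ℕ) : 0 ≤ ArithmeticFunction.vonMangoldt n := ArithmeticFunction.vonMangoldt_nonneg

theorem card_pf {e : ℕ} (he : 1 ≤ e) : (e.primeFactors.card : ℝ) ≤ 2 * Real.log e := by
  have h1 : 2 ^ e.primeFactors.card ≤ e := by
    calc 2 ^ e.primeFactors.card = ∏ _p ∈ e.primeFactors, 2 := by rw [Finset.prod_const]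
      _ ≤ ∏ p ∈ e.primeFactors, p :=
          Finset.prod_le_prod' fun p hp => (Nat.prime_of_mem_primeFactors hp).two_le
      _ ≤ e := Nat.le_of_dvd he (Nat.prod_primeFactors_dvd e)
  have h2 : (e.primeFactors.card : ℝ) * Real.log 2 ≤ Real.log e := by
    rw [← Real.log_pow]
    apply Real.log_le_log (by positivity)
    exact_mod_cast h1
  have h3 : (1:ℝ)/2 ≤ Real.log 2 := by have := Real.log_two_gt_d9; linarith
  have h4 : (0:ℝ) ≤ (e.primeFactors.card : ℝ) := Nat.cast_nonneg _
  nlinarith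

/-- prime powers not coprime to `e` -/
theorem lam_ncop {e : ℕ} (he : 1 ≤ e) (y : ℕ) :
    ∑ n ∈ (Icc 1 y).filter (fun n => ¬ n.Coprime e), ArithmeticFunction.vonMangoldt n ≤ 2 * Real.log e * Real.log y := by
  classical
  rcases Nat.eq_zero_or_pos y with rfl | hy
  · simp
  have hterm : ∀ n ∈ (Icc 1 y).filter (fun n => ¬ n.Coprime e), ArithmeticFunction.vonMangoldt n ≤
      ∑ p ∈ e.primeFactors, if p ∣ n then ArithmeticFunction.vonMangoldt n else 0 := by
    intro n hn
    rw [mem_filter, mem_Icc] at hn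
    have hnn : ∀ p ∈ e.primeFactors, (0:ℝ) ≤ if p ∣ n then ArithmeticFunction.vonMangoldt n else 0 := by
      intro p _
      split_ifs
      · exact lam_nn n
      · exact le_rfl
    obtain ⟨p, hp, hpn, hpe⟩ := Nat.Prime.not_coprime_iff_dvd.1 hn.2
    calc ArithmeticFunction.vonMangoldt n = if p ∣ n then ArithmeticFunction.vonMangoldt n else 0 := by rw [if_pos hpn]
      _ ≤ _ := Finset.single_le_sum (f := fun p => if p ∣ n then ArithmeticFunction.vonMangoldt n else 0)
        hnn (Nat.mem_primeFactors.2 ⟨hp, hpe, by omega⟩)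
  calc ∑ n ∈ (Icc 1 y).filter (fun n => ¬ n.Coprime e), ArithmeticFunction.vonMangoldt n
      ≤ ∑ n ∈ (Icc 1 y).filter (fun n => ¬ n.Coprime e), ∑ p ∈ e.primeFactors,
        (if p ∣ n then ArithmeticFunction.vonMangoldt n else 0) := sum_le_sum hterm
    _ ≤ ∑ n ∈ Icc 1 y, ∑ p ∈ e.primeFactors, (if p ∣ n then ArithmeticFunction.vonMangoldt n else 0) := by
        refine sum_le_sum_of_subset_of_nonneg (filter_subset _ _) fun n _ _ => sum_nonneg fun p _ => ?_
        split_ifs
        · exact lam_nn n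
        · exact le_rfl
    _ = ∑ p ∈ e.primeFactors, ∑ n ∈ Icc 1 y, (if p ∣ n then ArithmeticFunction.vonMangoldt n else 0) := sum_comm
    _ ≤ ∑ p ∈ e.primeFactors, Real.log y := by
        refine sum_le_sum fun p hp => ?_
        rw [← sum_filter]
        exact prim_diff_sum_p (Nat.prime_of_mem_primeFactors hp) hy
    _ = e.primeFactors.card * Real.log y := by rw [sum_const, nsmul_eq_mul]
    _ ≤ 2 * Real.log e * Real.log y := mul_le_mul_of_nonneg_right (card_pf he) (Real.log_natCast_nonneg y)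

/-- `Λ(d n)` for `d > 1` -/
theorem lam_dil {d : ℕ} (hd : 2 ≤ d) (y : ℕ) :
    ∑ n ∈ Icc 1 y, ArithmeticFunction.vonMangoldt (d * n) ≤ Real.log d + Real.log y := by
  classical
  rcases Nat.eq_zero_or_pos y with rfl | hy
  · have := Real.log_natCast_nonneg d
    simpa using this
  obtain ⟨p, hp, hpd⟩ := Nat.exists_prime_and_dvd (n := d) (by omega)
  have h1 : ∑ n ∈ Icc 1 y, ArithmeticFunction.vonMangoldt (d * n) ≤
      ∑ m ∈ (Icc 1 (d * y)).filter (fun m => p ∣ m), ArithmeticFunction.vonMangoldt m := by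
    rw [← Finset.sum_image (s := Icc 1 y) (g := fun n => d * n) (f := fun m => ArithmeticFunction.vonMangoldt m)]
    · refine sum_le_sum_of_subset_of_nonneg ?_ fun m _ _ => lam_nn m
      intro m hm
      rw [mem_image] at hm
      obtain ⟨n, hn, rfl⟩ := hm
      rw [mem_Icc] at hn
      rw [mem_filter, mem_Icc]
      refine ⟨⟨Nat.mul_pos (by omega) hn.1, Nat.mul_le_mul_left d hn.2⟩, hpd.mul_right n⟩
    · intro a _ b _ h
      exact Nat.eq_of_mul_eq_mul_left (by omega) h
  refine h1.trans ((prim_diff_sum_p hp (Nat.mul_pos (by omega) hy)).trans (le_of_eq ?_))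
  rw [Nat.cast_mul, Real.log_mul (by positivity) (by positivity)]

theorem swc (A B : ℝ) : ∃ N0 : ℕ, ∀ N : ℕ, N0 ≤ N → ∀ (q e : ℕ), 1 ≤ q → (q : ℝ) ≤ Real.log N ^ B → 1 ≤ e →
    ∀ χ ∈ pc q, ∀ M y : ℕ, M ≤ y → y ≤ N →
    ‖∑ n ∈ Ioc M y, cop e aL n * χ n‖ ≤ N / Real.log N ^ A + 2 * Real.log e * Real.log N := by
  classical
  obtain ⟨N0, h⟩ := sw (A + 1) B
  obtain ⟨N1, h1⟩ := exists_nat_ge (Real.exp 2)
  refine ⟨max N0 (max N1 1), fun N hN q e hq hqB he χ hχ M y hMy hy => ?_⟩
  have hN1 : 1 ≤ N := (le_max_right _ _).trans ((le_max_right _ _).trans hN)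
  have hNN : N1 ≤ N := (le_max_left _ _).trans ((le_max_right _ _).trans hN)
  have hl2 : 2 ≤ Real.log N := by
    rw [Real.le_log_iff_exp_le (by exact_mod_cast hN1)]
    exact h1.trans (by exact_mod_cast hNN)
  have hl0 : 0 < Real.log N := by linarith
  have hPM := h N ((le_max_left _ _).trans hN) q hq hqB χ hχ
  -- the full sum
  have hfull : ‖∑ n ∈ Ioc M y, (ArithmeticFunction.vonMangoldt n : ℂ) * χ n‖ ≤ N / Real.log N ^ A := by
    rw [sum_Ioc_eq_sub _ hMy]
    have e1 := (le_PM χ hy).trans hPM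
    have e2 := (le_PM χ (hMy.trans hy)).trans hPM
    unfold psiC at e1 e2
    refine (norm_sub_le _ _).trans ((add_le_add e1 e2).trans ?_)
    rw [Real.rpow_add hl0, Real.rpow_one]
    have hp : 0 < Real.log N ^ A := Real.rpow_pos_of_pos hl0 A
    have e3 : (N : ℝ) / (Real.log N ^ A * Real.log N) + N / (Real.log N ^ A * Real.log N) =
        (N / Real.log N ^ A) * (2 / Real.log N) := by
      field_simp
      ring
    rw [e3]
    have e4 : 2 / Real.log N ≤ 1 := by rw [div_le_one hl0]; exact hl2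
    exact mul_le_of_le_one_right (by positivity) e4
  -- the difference
  have hdiff : ∑ n ∈ Ioc M y, cop e aL n * χ n = ∑ n ∈ Ioc M y, (ArithmeticFunction.vonMangoldt n : ℂ) * χ n -
      ∑ n ∈ (Ioc M y).filter (fun n => ¬ n.Coprime e), (ArithmeticFunction.vonMangoldt n : ℂ) * χ n := by
    have e1 := sum_filter_add_sum_filter_not (Ioc M y) (fun n : ℕ => n.Coprime e)
      (fun n => (ArithmeticFunction.vonMangoldt n : ℂ) * χ n)
    rw [← e1, add_sub_cancel_right, sum_filter]
    refine sum_congr rfl fun n _ => ?_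
    rw [cop_apply, aL_apply]
    split_ifs
    · rfl
    · rw [zero_mul]
  rw [hdiff]
  refine (norm_sub_le _ _).trans (add_le_add hfull ?_)
  refine (norm_sum_le _ _).trans ?_
  have e1 : ∀ n ∈ (Ioc M y).filter (fun n => ¬ n.Coprime e), ‖(ArithmeticFunction.vonMangoldt n : ℂ) * χ n‖ ≤
      ArithmeticFunction.vonMangoldt n := by
    intro n _
    rw [norm_mul, Complex.norm_real, Real.norm_of_nonneg (lam_nn n)]
    exact mul_le_of_le_one_right (lam_nn n) (norm_chi_le χ n)
  refine (sum_le_sum e1).trans ?_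
  have e2 : ∑ n ∈ (Ioc M y).filter (fun n => ¬ n.Coprime e), ArithmeticFunction.vonMangoldt n ≤
      ∑ n ∈ (Icc 1 y).filter (fun n => ¬ n.Coprime e), ArithmeticFunction.vonMangoldt n := by
    refine sum_le_sum_of_subset_of_nonneg (filter_subset_filter _ ?_) fun n _ _ => lam_nn n
    intro n hn
    rw [mem_Ioc] at hn
    rw [mem_Icc]
    omega
  refine e2.trans ((lam_ncop he y).trans ?_)
  refine mul_le_mul_of_nonneg_left ?_ (mul_nonneg (by norm_num) (Real.log_natCast_nonneg e))
  rcases Nat.eq_zero_or_pos y with h3 | h3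
  · rw [h3, Nat.cast_zero, Real.log_zero]
    exact hl0.le
  · exact Real.log_le_log (by exact_mod_cast h3) (by exact_mod_cast hy)

end SZE
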