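import Pool.Agent.H91.SZE.SmlA

/-!
# SML: small conductors
-/

open Finset H69LB BVL

namespace SZE

/-- `T^(-δ) ≤ (log T)^(-b)` for large `T` -/
theorem sml_ev {δ : ℝ} (hδ : 0 < δ) (b : ℕ) : ∃ T0 : ℝ, ∀ T : ℝ, T0 ≤ T → T ^ (-δ) * Real.log T ^ b ≤ 1 := by
  have h := (isLittleO_log_rpow_rpow_atTop (b : ℝ) hδ).bound (zero_lt_one)
  obtain ⟨T0, hT0⟩ := Filter.eventually_atTop.1 h
  refine ⟨max T0 3, fun T hT => ?_⟩
  have h1 := hT0 T ((le_max_left _ _).trans hT)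
  have hT3 : 3 ≤ T := (le_max_right _ _).trans hT
  have hT : 0 < T := by linarith
  have hL : 0 < Real.log T := Real.log_pos (by linarith)
  rw [one_mul, Real.norm_of_nonneg (Real.rpow_nonneg hL.le _), Real.norm_of_nonneg (Real.rpow_nonneg hT.le _),
    Real.rpow_natCast] at h1
  calc T ^ (-δ) * Real.log T ^ b ≤ T ^ (-δ) * T ^ δ := mul_le_mul_of_nonneg_left h1 (by positivity)
    _ = 1 := by rw [← Real.rpow_add hT]; simp

theorem sml_log (K : ℝ) : ∃ T0 : ℝ, ∀ T : ℝ, T0 ≤ T → K ≤ Real.log T := by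
  obtain ⟨T0, h⟩ := Filter.eventually_atTop.1 (Real.tendsto_log_atTop.eventually_ge_atTop K)
  exact ⟨T0, h⟩

/-- the values of the `Λ`-factor -/
theorem sml_g1 {l g : AF} (hl : l = 1 ∨ l = aL) {d r : ℕ} (hd : 1 ≤ d) (hr : 1 ≤ r) (hR : Rel d r l g)
    {q : ℕ} {χ : DirichletCharacter ℂ q} {M : ℕ} {Y : ℝ}
    (hsw : ∀ e : ℕ, 1 ≤ e → ∀ y ≤ M, ‖∑ n ∈ Ioc 0 y, cop e aL n * χ n‖ ≤ Y + 2 * Real.log e * Real.log M)
    (hY : 0 ≤ Y) {L : ℝ} (hL : 1 ≤ L) (hdr : Real.log d + Real.log r ≤ L) (hML : Real.log M ≤ 2 * L) :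
    ∀ y ≤ M, ‖SS g χ y‖ ≤ Y + 8 * L ^ 2 := by
  intro y hy
  obtain ⟨d1, d2, h12, hg⟩ := hR
  have hd1 : d1 ∣ d := (Dvd.intro _ rfl).trans h12
  have hd2 : d2 ∣ d := (Dvd.intro_left _ rfl).trans h12
  have p1 : 1 ≤ d1 := Nat.pos_of_dvd_of_pos hd1 hd
  have p2 : 1 ≤ d2 := Nat.pos_of_dvd_of_pos hd2 hd
  have l1 : Real.log d1 ≤ Real.log d := log_mono p1 (Nat.le_of_dvd hd hd1)
  have l2 : Real.log d2 ≤ Real.log d := log_mono p2 (Nat.le_of_dvd hd hd2)
  have lr := log_nn r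
  have ld := log_nn d
  have hLL : L ≤ L ^ 2 := by nlinarith
  have hLy : Real.log y ≤ 2 * L := by
    rcases Nat.eq_zero_or_pos y with h0 | h0
    · rw [h0, Nat.cast_zero, Real.log_zero]; linarith
    · exact (log_mono h0 hy).trans hML
  rcases hl with rfl | rfl
  · -- `δ`
    have h1 : ‖SS g χ y‖ ≤ 1 := by
      have h2 : ∀ n, n ≠ 1 → g n = 0 := by
        intro n hn
        rw [hg, cop_apply, dil_apply]
        have h3 : d1 * n ≠ 1 := fun h => hn (Nat.eq_one_of_mul_eq_one_left h)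
        rw [ArithmeticFunction.one_apply_ne h3]
        simp
      have h3 : ‖g 1‖ ≤ 1 := by
        rw [hg, cop_apply, dil_apply, ArithmeticFunction.one_apply]
        split_ifs <;> simp
      unfold SS
      rcases Nat.eq_zero_or_pos y with h0 | h0
      · rw [h0]; simp
      · rw [sum_eq_single_of_mem 1 (mem_Icc.2 ⟨le_rfl, h0⟩) fun n _ hn => by rw [h2 n hn, zero_mul], norm_mul]
        calc ‖g 1‖ * ‖χ ((1 : ℕ) : ZMod q)‖ ≤ 1 * 1 := mul_le_mul h3 (norm_chi_le χ 1) (norm_nonneg _) zero_le_one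
          _ = 1 := by norm_num
    nlinarith
  · by_cases hd1' : d1 = 1
    · -- Siegel-Walfisz
      have e1 : g = cop (r * d2) aL := by
        rw [hg, hd1']
        ext n
        simp
      have h1 := hsw (r * d2) (Nat.mul_pos hr p2) y hy
      have e2 : SS g χ y = ∑ n ∈ Ioc 0 y, cop (r * d2) aL n * χ n := by
        rw [e1]
        unfold SS
        refine sum_congr ?_ fun _ _ => rfl
        ext n
        rw [mem_Icc, mem_Ioc]
        omega
      rw [e2]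
      refine h1.trans ?_
      have e3 : Real.log ((r * d2 : ℕ) : ℝ) ≤ L := by
        rw [Nat.cast_mul, Real.log_mul (by positivity) (by positivity)]
        linarith
      have e4 := log_nn (r * d2)
      have e5 := log_nn M
      have e6 : 2 * Real.log ((r * d2 : ℕ) : ℝ) * Real.log M ≤ 2 * L * (2 * L) := by gcongr
      nlinarith
    · -- powers of one prime
      have h1 : ‖SS g χ y‖ ≤ ∑ n ∈ Icc 1 y, ArithmeticFunction.vonMangoldt (d1 * n) := by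
        unfold SS
        refine (norm_sum_le _ _).trans (sum_le_sum fun n _ => ?_)
        rw [norm_mul, hg, cop_apply, dil_apply, aL_apply]
        have h3 := lam_nn (d1 * n)
        split_ifs
        · rw [Complex.norm_real, Real.norm_of_nonneg h3]
          exact mul_le_of_le_one_right h3 (norm_chi_le χ n)
        · rw [norm_zero, zero_mul]; exact h3
      have h2 := lam_dil (d := d1) (by omega) y
      have h3 : Real.log d1 ≤ L := by linarith
      nlinarith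

/-- the four factors -/
theorem sml_four {d r : ℕ} {l s1 s2 t : AF} {gs : List AF} (h : List.Forall₂ (Rel d r) [l, s1, s2, t] gs) :
    ∃ g1 g2 g3 g4 : AF, gs = [g1, g2, g3, g4] ∧ Rel d r l g1 ∧ Rel d r s1 g2 ∧ Rel d r s2 g3 ∧ Rel d r t g4 := by
  rcases h with _ | ⟨a1, h⟩
  rcases h with _ | ⟨a2, h⟩
  rcases h with _ | ⟨a3, h⟩
  rcases h with _ | ⟨a4, h⟩
  cases h
  exact ⟨_, _, _, _, rfl, a1, a2, a3, a4⟩

theorem sml_cl_sm {A : ℕ} {G : ℝ} {s : AF} (hG : 1 ≤ G) (h : Sm G s) : Cl G A s :=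
  Or.inr ⟨1, s, le_rfl, by rw [tau_one]; exact hG, h, cop_one s⟩

theorem sml_cl_one {A : ℕ} {G : ℝ} (hG : 1 ≤ G) (hA : 1 ≤ A) : Cl G A (1 : AF) :=
  Or.inl ⟨DB.one.mono hG (by norm_num) (by norm_num), fun n hn => ArithmeticFunction.one_apply_ne (by omega)⟩

/-- elementary: the final inequality -/
theorem sml_fin {A B : ℕ} {L N T G D δ R X1 A3 sq c : ℝ} (hL : 1 ≤ L) (hN : T ≤ N) (hT : 0 < T) (hG0 : 0 ≤ G)
    (hG : G ≤ 2 * L * D) (hD : 1 ≤ D) (hδ0 : 0 ≤ δ) (hc : 0 ≤ c) (hδ : δ * L ^ (A + 38) ≤ c) (hR0 : 0 ≤ R)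
    (hR : R ≤ 8 * L ^ 2) (hX0 : 0 ≤ X1) (hX1 : X1 * L ^ (A + B + 42) ≤ 2) (hA0 : 0 ≤ A3)
    (hA3 : A3 * L ^ (A + 40) ≤ T) (hsq0 : 0 ≤ sq) (hsq : sq ≤ L ^ B) {lN : ℝ} (hl0 : 0 ≤ lN) (hlN : lN ≤ 3 * L) :
    24 * G ^ 5 * sq * (N * X1) * lN ^ 37 + G ^ 3 * lN ^ 35 * (δ * N + R * A3) ≤
      (24 * 2 ^ 5 * 3 ^ 37 * 2 + 2 ^ 3 * 3 ^ 35 * (c + 8)) * D ^ 5 * (N / L ^ A) := by
  have hN0 : 0 < N := hT.trans_le hN
  have hL0 : 0 < L := by linarith
  have hD0 : 0 ≤ D := by linarith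
  have hLA : 0 < L ^ A := pow_pos hL0 A
  have t1 : 24 * G ^ 5 * sq * (N * X1) * lN ^ 37 ≤ 24 * 2 ^ 5 * 3 ^ 37 * 2 * D ^ 5 * (N / L ^ A) := by
    calc 24 * G ^ 5 * sq * (N * X1) * lN ^ 37 ≤ 24 * (2 * L * D) ^ 5 * L ^ B * (N * X1) * (3 * L) ^ 37 := by gcongr
      _ = 24 * 2 ^ 5 * 3 ^ 37 * D ^ 5 * (N / L ^ A) * (X1 * L ^ (A + B + 42)) := by
          have e1 : L ^ (A + B + 42) = L ^ A * (L ^ B * L ^ 42) := by rw [pow_add, pow_add]; ring
          rw [e1]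
          field_simp
      _ ≤ 24 * 2 ^ 5 * 3 ^ 37 * D ^ 5 * (N / L ^ A) * 2 := mul_le_mul_of_nonneg_left hX1 (by positivity)
      _ = _ := by ring
  have hD35 : D ^ 3 ≤ D ^ 5 := pow_le_pow_right₀ hD (by norm_num)
  have t2 : G ^ 3 * lN ^ 35 * (δ * N) ≤ 2 ^ 3 * 3 ^ 35 * c * D ^ 5 * (N / L ^ A) := by
    calc G ^ 3 * lN ^ 35 * (δ * N) ≤ (2 * L * D) ^ 3 * (3 * L) ^ 35 * (δ * N) := by gcongr
      _ = 2 ^ 3 * 3 ^ 35 * D ^ 3 * (N / L ^ A) * (δ * L ^ (A + 38)) := by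
          have e1 : L ^ (A + 38) = L ^ A * L ^ 38 := pow_add _ _ _
          rw [e1]
          field_simp
      _ ≤ 2 ^ 3 * 3 ^ 35 * D ^ 3 * (N / L ^ A) * c := mul_le_mul_of_nonneg_left hδ (by positivity)
      _ ≤ 2 ^ 3 * 3 ^ 35 * D ^ 5 * (N / L ^ A) * c := by gcongr
      _ = _ := by ring
  have t3 : G ^ 3 * lN ^ 35 * (R * A3) ≤ 2 ^ 3 * 3 ^ 35 * 8 * D ^ 5 * (N / L ^ A) := by
    calc G ^ 3 * lN ^ 35 * (R * A3) ≤ (2 * L * D) ^ 3 * (3 * L) ^ 35 * ((8 * L ^ 2) * A3) := by gcongr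
      _ = 2 ^ 3 * 3 ^ 35 * 8 * D ^ 3 * (1 / L ^ A) * (A3 * L ^ (A + 40)) := by
          have e1 : L ^ (A + 40) = L ^ A * L ^ 40 := pow_add _ _ _
          rw [e1]
          field_simp
      _ ≤ 2 ^ 3 * 3 ^ 35 * 8 * D ^ 3 * (1 / L ^ A) * T := mul_le_mul_of_nonneg_left hA3 (by positivity)
      _ ≤ 2 ^ 3 * 3 ^ 35 * 8 * D ^ 5 * (1 / L ^ A) * N := by gcongr
      _ = _ := by ring
  have e : G ^ 3 * lN ^ 35 * (δ * N + R * A3) = G ^ 3 * lN ^ 35 * (δ * N) + G ^ 3 * lN ^ 35 * (R * A3) := by ring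
  rw [e]
  have e2 : (24 * 2 ^ 5 * 3 ^ 37 * 2 + 2 ^ 3 * 3 ^ 35 * (c + 8)) * D ^ 5 * (N / L ^ A) =
      24 * 2 ^ 5 * 3 ^ 37 * 2 * D ^ 5 * (N / L ^ A) + (2 ^ 3 * 3 ^ 35 * c * D ^ 5 * (N / L ^ A) +
        2 ^ 3 * 3 ^ 35 * 8 * D ^ 5 * (N / L ^ A)) := by ring
  rw [e2]
  exact add_le_add t1 (add_le_add t2 t3)

theorem sml_t {t : AF} {G : ℝ} (hG : 1 ≤ G) (h : ∀ n, ‖t n‖ ≤ G) : DB G 1 1 t := by
  intro n hn
  have h1 := one_le_tau hn
  have h2 := log_nn n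
  have h3 : 1 ≤ (1 + Real.log n) * tau n := by nlinarith
  calc ‖t n‖ ≤ G := h n
    _ ≤ G * ((1 + Real.log n) * tau n) := le_mul_of_one_le_right (by linarith) h3
    _ = G * (1 + Real.log n) ^ 1 * tau n ^ 1 := by ring

theorem sml_half {T : ℝ} (hT : 40000 ≤ T) : T ^ (1 / 2 : ℝ) * T ^ (1 / 2 : ℝ) = T ∧ 200 ≤ T ^ (1 / 2 : ℝ) ∧
    T ^ (1 / 2 : ℝ) ≤ T := by
  have hTp : 0 < T := by linarith
  have hhalf : T ^ (1 / 2 : ℝ) * T ^ (1 / 2 : ℝ) = T := by
    rw [← Real.rpow_add hTp]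
    norm_num
  refine ⟨hhalf, ?_, ?_⟩
  · by_contra hh
    push Not at hh
    have h0 : 0 ≤ T ^ (1 / 2 : ℝ) := by positivity
    nlinarith
  · calc T ^ (1 / 2 : ℝ) ≤ T ^ (1 : ℝ) := Real.rpow_le_rpow_of_exponent_le (by linarith) (by norm_num)
      _ = T := Real.rpow_one T

theorem sml_sqrt {q : ℕ} (hq : 1 ≤ q) {Y : ℝ} (h : (q : ℝ) ≤ Y) : √(q : ℝ) ≤ Y := by
  have hq1 : (1 : ℝ) ≤ q := by exact_mod_cast hq
  refine le_trans ?_ h
  rw [Real.sqrt_le_left (by positivity)]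
  nlinarith

theorem rel_db {G0 : ℝ} {f g : AF} (hf : DB G0 1 1 f) {d r : ℕ} (hd : 1 ≤ d) (hr : 1 ≤ r) (hR : Rel d r f g) :
    DB (G0 * (1 + Real.log d) * tau d * tau r) 1 1 g := by
  have hG0 : 0 ≤ G0 := hf.nonneg
  obtain ⟨d1, d2, h12, hg⟩ := hR
  have hd1 : d1 ∣ d := (Dvd.intro _ rfl).trans h12
  have p1 : 1 ≤ d1 := Nat.pos_of_dvd_of_pos hd1 hd
  have l0 := log_nn d1
  have l1 : Real.log d1 ≤ Real.log d := log_mono p1 (Nat.le_of_dvd hd hd1)
  have t1 := tau_dvd_le hd1 hd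
  have t3 := one_le_tau hd
  have t4 := one_le_tau hr
  have t5 := one_le_tau p1
  have lD : 0 ≤ Real.log d := log_nn d
  rw [hg]
  refine ((hf.dil p1).cop _).mono ?_ le_rfl le_rfl
  rw [pow_one, pow_one]
  calc G0 * (1 + Real.log d1) * tau d1 ≤ G0 * (1 + Real.log d) * tau d := by gcongr
    _ ≤ G0 * (1 + Real.log d) * tau d * tau r := le_mul_of_one_le_right (by positivity) t4

theorem rel_supp {f g : AF} {A : ℕ} (hf : ∀ n, A < n → f n = 0) {d r : ℕ} (hd : 1 ≤ d) (hR : Rel d r f g) :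
    ∀ n, A < n → g n = 0 := by
  obtain ⟨d1, d2, h12, hg⟩ := hR
  have hd1 : d1 ∣ d := (Dvd.intro _ rfl).trans h12
  have p1 : 1 ≤ d1 := Nat.pos_of_dvd_of_pos hd1 hd
  intro n hn
  rw [hg, cop_apply, dil_apply, hf _ (hn.trans_le (Nat.le_mul_of_pos_left n p1))]
  simp

theorem SML {ε : ℝ} (hε : 0 < ε) (hε' : ε ≤ 1 / 4) : ∃ κ : ℕ, ∀ A B : ℕ, ∃ C T0 : ℝ, 0 ≤ C ∧ ∀ T : ℝ, T0 ≤ T →
    ∀ N0 d r q : ℕ, T ≤ N0 → (N0 : ℝ) ≤ 200 * T → 1 ≤ d → 1 ≤ r → 1 ≤ q → Squarefree d →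
    (d : ℝ) * r * q ≤ T ^ (1 / 2 - ε) → (q : ℝ) ≤ Real.log T ^ B → ∀ χ ∈ pc q, ∀ G : ℝ, 1 ≤ G → ∀ c : AF, Cc T ε G c →
    MX (cop r (dil d c)) χ (N0 * r * q) ≤ C * (G * (tau d * tau r)) ^ κ * (((N0 : ℝ) * r * q) / Real.log T ^ A) := by
  refine ⟨9, fun A B => ?_⟩
  set K1 : ℝ := 4 / ε with hK1
  have hK1p : 0 < K1 := by positivity
  have hK11 : 1 ≤ K1 := by rw [hK1, le_div_iff₀ hε]; linarith
  obtain ⟨Ns, hswc⟩ := swc ((A + 38 : ℕ) : ℝ) ((B + 1 : ℕ) : ℝ)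
  obtain ⟨T1, hT1⟩ := sml_log (max (max 1 (K1 ^ (B + 1))) (max (K1 * Real.log (max Ns 1 : ℕ)) K1))
  obtain ⟨T2, hT2⟩ := sml_ev (δ := ε / 4) (by positivity) (A + B + 42)
  obtain ⟨T3, hT3⟩ := sml_ev (δ := ε / 2) (by positivity) (A + 40)
  set cc : ℝ := K1 ^ (A + 38) with hcc
  refine ⟨24 * 2 ^ 5 * 3 ^ 37 * 2 + 2 ^ 3 * 3 ^ 35 * (cc + 8), max (max T1 T2) (max T3 40000), by positivity, ?_⟩
  intro T hT N0 d r q hTN0 hN0T hd hr hq _ hdrq hqB χ hχ G0 hG0 c hc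
  have hT1' := hT1 T ((le_max_left _ _).trans ((le_max_left _ _).trans hT))
  have hT2' := hT2 T ((le_max_right _ _).trans ((le_max_left _ _).trans hT))
  have hT3' := hT3 T ((le_max_left _ _).trans ((le_max_right _ _).trans hT))
  have hT4 : 40000 ≤ T := (le_max_right _ _).trans ((le_max_right _ _).trans hT)
  have hTp : 0 < T := by linarith
  have hT1p : 1 ≤ T := by linarith
  set L := Real.log T with hL
  have hL1 : 1 ≤ L := (le_max_left _ _).trans ((le_max_left _ _).trans hT1')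
  have hLK : K1 ^ (B + 1) ≤ L := (le_max_right _ _).trans ((le_max_left _ _).trans hT1')
  have hLN : K1 * Real.log (max Ns 1 : ℕ) ≤ L := (le_max_left _ _).trans ((le_max_right _ _).trans hT1')
  have hLK1 : K1 ≤ L := (le_max_right _ _).trans ((le_max_right _ _).trans hT1')
  have hL0 : 0 < L := by linarith
  -- real powers
  have hTe : T = Real.exp L := (Real.exp_log hTp).symm
  have hpow : ∀ x : ℝ, T ^ x = Real.exp (x * L) := fun x => by
    rw [Real.rpow_def_of_pos hTp, mul_comm]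
  have hK1L : ε / 4 * L = L / K1 := by rw [hK1]; field_simp
  have hL1K : 1 ≤ L / K1 := by rw [le_div_iff₀ hK1p]; linarith
  -- the thresholds
  set A1 : ℕ := ⌊T ^ (ε / 4)⌋₊ with hA1
  set A2 : ℕ := ⌊T ^ (1 - ε)⌋₊ with hA2
  set Nm : ℕ := ⌈T ^ (ε / 4)⌉₊ with hNm
  have hTe4 : 2 ≤ T ^ (ε / 4) := by
    rw [hpow, hK1L]
    have h1 := Real.add_one_le_exp (L / K1)
    linarith
  have hA1r : (A1 : ℝ) ≤ T ^ (ε / 4) := Nat.floor_le (by positivity)
  have hA1l : T ^ (ε / 4) ≤ 2 * A1 := by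
    have h1 := Nat.lt_floor_add_one (T ^ (ε / 4))
    rw [← hA1] at h1
    have h2 : (1 : ℝ) ≤ A1 := by
      have : 1 ≤ A1 := Nat.le_floor (by push_cast; linarith)
      exact_mod_cast this
    linarith
  have hA11 : 1 ≤ A1 := Nat.le_floor (by push_cast; linarith)
  have hA2r : (A2 : ℝ) ≤ T ^ (1 - ε) := Nat.floor_le (by positivity)
  have hNmr : (Nm : ℝ) ≤ 2 * T ^ (ε / 4) := by
    have h1 := Nat.ceil_lt_add_one (a := T ^ (ε / 4)) (by positivity)
    rw [← hNm] at h1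
    linarith
  have hNml : T ^ (ε / 4) ≤ Nm := Nat.le_ceil _
  have hNm1 : 1 ≤ Nm := by
    have : (1 : ℝ) ≤ Nm := by linarith
    exact_mod_cast this
  have hA3r : ((A1 * A1 * A2 : ℕ) : ℝ) ≤ T * T ^ (-(ε / 2)) := by
    push_cast
    calc (A1 : ℝ) * A1 * A2 ≤ T ^ (ε / 4) * T ^ (ε / 4) * T ^ (1 - ε) := by gcongr
      _ = T * T ^ (-(ε / 2)) := by
          rw [← Real.rpow_add hTp, ← Real.rpow_add hTp]
          conv_rhs => rw [← Real.rpow_one T, ← Real.rpow_mul hTp.le, one_mul, ← Real.rpow_add hTp]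
          congr 1
          ring
  -- sizes of `N`
  set N : ℕ := N0 * r * q with hN
  have hN0p : (0 : ℝ) < N0 := hTp.trans_le hTN0
  have hr1 : (1 : ℝ) ≤ r := by exact_mod_cast hr
  have hq1 : (1 : ℝ) ≤ q := by exact_mod_cast hq
  have hd1 : (1 : ℝ) ≤ d := by exact_mod_cast hd
  have hNr : (N : ℝ) = N0 * r * q := by rw [hN]; push_cast; ring
  have hTN : T ≤ N := by
    rw [hNr]
    calc T ≤ N0 := hTN0
      _ ≤ N0 * r * q := by
          have h1 : (N0 : ℝ) ≤ N0 * r := le_mul_of_one_le_right hN0p.le hr1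
          exact h1.trans (le_mul_of_one_le_right (by positivity) hq1)
  have hNpos : (0 : ℝ) < N := hTp.trans_le hTN
  have hN1 : 1 ≤ N := by
    have : (1 : ℝ) ≤ N := hT1p.trans hTN
    exact_mod_cast this
  have hsqrt : T ^ (1 / 2 - ε) ≤ T ^ (1 / 2 : ℝ) := Real.rpow_le_rpow_of_exponent_le hT1p (by linarith)
  obtain ⟨hhalf, hhalf200, hhalfT⟩ := sml_half hT4
  have hrq : (r : ℝ) * q ≤ T ^ (1 / 2 : ℝ) := by
    refine le_trans ?_ (hdrq.trans hsqrt)
    rw [mul_assoc]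
    exact le_mul_of_one_le_left (by positivity) hd1
  have hNT2 : (N : ℝ) ≤ T * T := by
    rw [hNr, mul_assoc]
    calc (N0 : ℝ) * (r * q) ≤ (200 * T) * T ^ (1 / 2 : ℝ) := by gcongr
      _ ≤ (T ^ (1 / 2 : ℝ) * T) * T ^ (1 / 2 : ℝ) := by gcongr
      _ = (T ^ (1 / 2 : ℝ) * T ^ (1 / 2 : ℝ)) * T := by ring
      _ = T * T := by rw [hhalf]
  have hlN : Real.log N ≤ 2 * L := by
    have h1 := Real.log_le_log hNpos hNT2
    rw [Real.log_mul hTp.ne' hTp.ne'] at h1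
    linarith
  have hlN0 := log_nn N
  have hqN : q ≤ N := by
    rw [hN]
    have : 1 ≤ N0 * r := Nat.mul_pos (by exact_mod_cast hN0p) hr
    exact Nat.le_mul_of_pos_left q this
  have hdr : Real.log d + Real.log r ≤ L := by
    rw [← Real.log_mul (by positivity) (by positivity)]
    apply Real.log_le_log (by positivity)
    have h1 : (d : ℝ) * r ≤ d * r * q := le_mul_of_one_le_right (by positivity) hq1
    exact h1.trans ((hdrq.trans hsqrt).trans hhalfT)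
  have hAN : A1 * A1 * A2 * Nm ≤ N := by
    have h1 : ((A1 * A1 * A2 * Nm : ℕ) : ℝ) ≤ N := by
      have h2 : T ^ (-(ε / 4)) ≤ 1 / 2 := by
        rw [Real.rpow_neg hTp.le, one_div]
        exact inv_anti₀ (by norm_num) hTe4
      calc ((A1 * A1 * A2 * Nm : ℕ) : ℝ) = ((A1 * A1 * A2 : ℕ) : ℝ) * Nm := by push_cast; ring
        _ ≤ (T * T ^ (-(ε / 2))) * (2 * T ^ (ε / 4)) := by gcongr
        _ = T * (2 * (T ^ (-(ε / 2)) * T ^ (ε / 4))) := by ring
        _ = T * (2 * T ^ (-(ε / 4))) := by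
            rw [← Real.rpow_add hTp]
            congr 3
            ring
        _ ≤ T * (2 * (1 / 2)) := by gcongr
        _ = T := by ring
        _ ≤ N := hTN
    exact_mod_cast h1
  -- the Siegel-Walfisz input
  set δ : ℝ := cc / L ^ (A + 38) with hδ
  have hδ0 : 0 ≤ δ := by positivity
  have hsw : ∀ M, Nm ≤ M → M ≤ N → ∀ e : ℕ, 1 ≤ e → ∀ y ≤ M,
      ‖∑ n ∈ Ioc 0 y, cop e aL n * χ n‖ ≤ δ * M + 2 * Real.log e * Real.log M := by
    intro M hM hMN e he y hy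
    have hM1 : 1 ≤ M := hNm1.trans hM
    have hMr : T ^ (ε / 4) ≤ M := hNml.trans (by exact_mod_cast hM)
    have hlM : L / K1 ≤ Real.log M := by
      rw [Real.le_log_iff_exp_le (by exact_mod_cast hM1), ← hK1L, ← hpow]
      exact hMr
    have hlM0 : 0 < Real.log M := by linarith
    have hLM : L ≤ K1 * Real.log M := by
      rw [div_le_iff₀ hK1p] at hlM
      linarith
    have hNsM : Ns ≤ M := by
      have h1 : Real.log (max Ns 1 : ℕ) ≤ Real.log M := by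
        have h2 : Real.log (max Ns 1 : ℕ) ≤ L / K1 := by
          rw [le_div_iff₀ hK1p]
          linarith
        exact h2.trans hlM
      have h3 : ((max Ns 1 : ℕ) : ℝ) ≤ M := by
        rw [Real.log_le_log_iff] at h1
        · exact h1
        · exact_mod_cast lt_of_lt_of_le one_pos (le_max_right Ns 1)
        · exact_mod_cast hM1
      have h4 : max Ns 1 ≤ M := by exact_mod_cast h3
      exact (le_max_left _ _).trans h4
    have hqM : (q : ℝ) ≤ Real.log M ^ ((B + 1 : ℕ) : ℝ) := by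
      rw [Real.rpow_natCast]
      calc (q : ℝ) ≤ L ^ B := hqB
        _ ≤ (K1 * Real.log M) ^ B := pow_le_pow_left₀ hL0.le hLM B
        _ = K1 ^ B * Real.log M ^ B := mul_pow _ _ _
        _ ≤ Real.log M * Real.log M ^ B := by
            refine mul_le_mul_of_nonneg_right ?_ (by positivity)
            refine le_trans ?_ hlM
            rw [le_div_iff₀ hK1p, ← pow_succ]
            exact hLK
        _ = Real.log M ^ (B + 1) := by rw [pow_succ]; ring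
    have h1 := hswc M hNsM q e hq hqM he χ hχ 0 y (Nat.zero_le _) hy
    refine h1.trans ?_
    rw [Real.rpow_natCast]
    have h2 : (M : ℝ) / Real.log M ^ (A + 38) ≤ δ * M := by
      rw [hδ, hcc, div_mul_eq_mul_div, div_le_div_iff₀ (by positivity) (by positivity)]
      calc (M : ℝ) * L ^ (A + 38) ≤ M * (K1 * Real.log M) ^ (A + 38) := by gcongr
        _ = K1 ^ (A + 38) * M * Real.log M ^ (A + 38) := by rw [mul_pow]; ring
    linarith
  -- the coefficient function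
  obtain ⟨l, s1, s2, t, hl, hs1, hs2, ht1, ht2, rfl⟩ := hc
  have hld : DB G0 1 1 l := by
    rcases hl with rfl | rfl
    · exact DB.one.mono hG0 (by norm_num) (by norm_num)
    · exact DB.aL.mono hG0 le_rfl (by norm_num)
  have htd : DB G0 1 1 t := sml_t hG0 ht1
  have hts : ∀ n, A2 < n → t n = 0 := fun n hn => ht2 n ((Nat.floor_lt (by positivity)).1 hn)
  have hc1 : Cl G0 A1 s1 := sml_cl_sm hG0 hs1
  have hc2 : Cl G0 A1 s2 := by
    rcases hs2 with rfl | hs2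
    · exact sml_cl_one hG0 hA11
    · exact sml_cl_sm hG0 hs2
  obtain ⟨S, hS1, hS2, hS3⟩ := dil_list [l, s1, s2, t] d r hd hr
  have hprod : l * s1 * s2 * t = [l, s1, s2, t].prod := by
    simp only [List.prod_cons, List.prod_nil, mul_one, mul_assoc]
  rw [hprod, hS3]
  refine (MX_listSum_le χ N (S.map List.prod)).trans ?_
  set D : ℝ := G0 * (tau d * tau r) with hD
  have hDt : 1 ≤ tau d * tau r := one_le_mul_of_one_le_of_one_le (one_le_tau hd) (one_le_tau hr)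
  have hD1 : 1 ≤ D := one_le_mul_of_one_le_of_one_le hG0 hDt
  have hbound : ∀ x ∈ ((S.map List.prod).map (fun f => MX f χ N)),
      x ≤ (24 * 2 ^ 5 * 3 ^ 37 * 2 + 2 ^ 3 * 3 ^ 35 * (cc + 8)) * D ^ 5 * (N / L ^ A) := by
    intro x hx
    rw [List.mem_map] at hx
    obtain ⟨f, hf, rfl⟩ := hx
    rw [List.mem_map] at hf
    obtain ⟨gs, hgs, rfl⟩ := hf
    obtain ⟨g1, g2, g3, g4, rfl, r1, r2, r3, r4⟩ := sml_four (hS2 gs hgs)
    simp only [List.prod_cons, List.prod_nil, mul_one]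
    set G : ℝ := G0 * (1 + Real.log d) * tau d * tau r with hG
    have hlogd := log_nn d
    have hG1 : 1 ≤ G := by
      rw [hG]
      have h1 := one_le_tau hd
      have h2 := one_le_tau hr
      have h3 : 1 ≤ 1 + Real.log d := by linarith
      calc (1 : ℝ) = 1 * 1 * 1 * 1 := by norm_num
        _ ≤ G0 * (1 + Real.log d) * tau d * tau r := by gcongr
    have hGD : G ≤ 2 * L * D := by
      have e1 : G = (1 + Real.log d) * D := by rw [hG, hD]; ring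
      rw [e1]
      refine mul_le_mul_of_nonneg_right ?_ (by linarith)
      have := log_nn r
      linarith
    have hcore := sml_core (q := q) (N := N) (A1 := A1) (A2 := A2) (Nm := Nm) (G := G) (δ := δ) (R := 8 * L ^ 2)
      (χ := χ) hq hqN hχ hA11 hNm1 hG1 hδ0 (by positivity) (rel_db hld hd hr r1)
      (fun M hM hMN y hy => by
        refine sml_g1 hl hd hr r1 (M := M) (Y := δ * M) (fun e he y hy => hsw M hM hMN e he y hy)
          (by positivity) hL1 hdr ?_ y hy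
        exact (log_mono (hNm1.trans hM) hMN).trans hlN)
      (hc1.rel hd hr r2) (hc2.rel hd hr r3) (rel_db htd hd hr r4) (rel_supp hts hd r4) hAN
    refine hcore.trans ?_
    have hfin := sml_fin (A := A) (B := B) (L := L) (N := N) (T := T) (G := G) (D := D) (δ := δ) (R := 8 * L ^ 2)
      (X1 := 1 / A1) (A3 := ((A1 * A1 * A2 : ℕ) : ℝ)) (sq := √q) (c := cc) hL1 hTN hTp (by linarith) hGD hD1 hδ0
      (by positivity) (le_of_eq (by rw [hδ]; field_simp)) (by positivity) le_rfl (by positivity) ?_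
      (Nat.cast_nonneg _) ?_ (Real.sqrt_nonneg _) ?_ (lN := 1 + Real.log N) (by linarith) (by linarith)
    · refine le_trans (le_of_eq ?_) hfin
      ring
    · -- `X1`
      have hA1p : (0 : ℝ) < A1 := by exact_mod_cast hA11
      rw [one_div, inv_mul_le_iff₀ hA1p]
      have h1 : L ^ (A + B + 42) ≤ T ^ (ε / 4) := by
        have h2 := mul_le_mul_of_nonneg_left hT2' (by positivity : 0 ≤ T ^ (ε / 4))
        rw [← mul_assoc, ← Real.rpow_add hTp] at h2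
        simpa using h2
      linarith
    · calc ((A1 * A1 * A2 : ℕ) : ℝ) * L ^ (A + 40) ≤ T * T ^ (-(ε / 2)) * L ^ (A + 40) :=
            mul_le_mul_of_nonneg_right hA3r (by positivity)
        _ = T * (T ^ (-(ε / 2)) * L ^ (A + 40)) := by ring
        _ ≤ T * 1 := mul_le_mul_of_nonneg_left hT3' hTp.le
        _ = T := mul_one T
    · exact sml_sqrt hq hqB
  have hsum := List.sum_le_card_nsmul _ _ hbound
  refine hsum.trans ?_
  rw [List.length_map, List.length_map, nsmul_eq_mul]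
  have hD0 : 0 ≤ D := by linarith
  have hS4 : (S.length : ℝ) ≤ D ^ 4 := by
    refine hS1.trans ?_
    simp only [List.length_cons, List.length_nil]
    refine pow_le_pow_left₀ (tau_nonneg d) ?_ 4
    have h1 : tau d ≤ tau d * tau r := le_mul_of_one_le_right (tau_nonneg d) (one_le_tau hr)
    exact h1.trans (le_mul_of_one_le_left (by linarith) hG0)
  calc (S.length : ℝ) * ((24 * 2 ^ 5 * 3 ^ 37 * 2 + 2 ^ 3 * 3 ^ 35 * (cc + 8)) * D ^ 5 * (N / L ^ A))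
      ≤ D ^ 4 * ((24 * 2 ^ 5 * 3 ^ 37 * 2 + 2 ^ 3 * 3 ^ 35 * (cc + 8)) * D ^ 5 * (N / L ^ A)) := by
        refine mul_le_mul_of_nonneg_right hS4 (by positivity)
    _ = _ := by rw [hNr]; ring

end SZE
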