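import Pool.Agent.H91.SZE.Cls
import Pool.Agent.H91.SZE.SWc
import Pool.Agent.H91.SZE.Vgh

/-!
# SMLA: small conductors, the estimate for one product of four factors
-/

open Finset H69LB BVL

namespace SZE

theorem cl_split {G : ℝ} {A : ℕ} {f : AF} (h : Cl G A f) (hA : 1 ≤ A) {q N : ℕ} (hq : 1 ≤ q) (hqN : q ≤ N)
    {χ : DirichletCharacter ℂ q} (hχ : χ ∈ pc q) {g : AF} {F : ℝ} {j m : ℕ} (hg : DB F j m g) :
    MX (g * cutG A f) χ N ≤
      12 * F * G ^ 2 * √q * ((N : ℝ) / A) * (1 + Real.log N) ^ (j + 2 ^ m + 2) := by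
  have hF := hg.nonneg
  have hlN := Real.log_natCast_nonneg N
  have hG0 : 0 ≤ G := h.db.nonneg
  rcases h with ⟨h1, h2⟩ | ⟨e, s, h1, h2, h3, h5⟩
  · have e1 : cutG A f = 0 := by
      ext n
      rw [cutG_apply]
      split_ifs with h3
      · rw [h2 n h3]; rfl
      · rfl
    rw [e1, mul_zero, MX_zero]
    positivity
  · rw [h5]
    refine (MX_ty1 hq hqN hA h1 hχ hg (h3 N (hq.trans hqN))).trans ?_
    have hte := tau_nonneg e
    calc F * ((N : ℝ) / A) * (1 + Real.log N) ^ (j + 2 ^ m) * (4 * (tau e * (√q * (1 + Real.log N))) *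
          (G * (1 + Real.log N)))
        ≤ F * ((N : ℝ) / A) * (1 + Real.log N) ^ (j + 2 ^ m) * (4 * (G * (√q * (1 + Real.log N))) *
          (G * (1 + Real.log N))) := by gcongr
      _ = 4 * F * G ^ 2 * √q * ((N : ℝ) / A) * (1 + Real.log N) ^ (j + 2 ^ m + 2) := by
          rw [pow_add (1 + Real.log (N : ℝ)) (j + 2 ^ m) 2]; ring
      _ ≤ _ := by gcongr; norm_num

theorem supp_mul {f g : AF} {A B : ℕ} (hf : ∀ n, A < n → f n = 0) (hg : ∀ n, B < n → g n = 0) :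
    ∀ n, A * B < n → (f * g) n = 0 := by
  intro n hn
  rw [ArithmeticFunction.mul_apply]
  refine sum_eq_zero fun x hx => ?_
  rw [Nat.mem_divisorsAntidiagonal] at hx
  by_cases h1 : A < x.1
  · rw [hf _ h1, zero_mul]
  · by_cases h2 : B < x.2
    · rw [hg _ h2, mul_zero]
    · exfalso
      have h3 : x.1 * x.2 ≤ A * B := Nat.mul_le_mul (by omega) (by omega)
      rw [hx.1] at h3
      omega

theorem supp_cut {f : AF} {A : ℕ} : ∀ n, A < n → cut 0 A f n = 0 := by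
  intro n hn
  rw [cut_apply, if_neg (by omega)]

/-- the last product: a short function times the `Λ`-factor -/
theorem sml_last {q N A3 Nm j m : ℕ} {F δ R : ℝ} {χ : DirichletCharacter ℂ q} {g f : AF} (hN : 1 ≤ N) (hδ : 0 ≤ δ) (hR : 0 ≤ R)
    (hg : ∀ M, Nm ≤ M → M ≤ N → ∀ y ≤ M, ‖SS g χ y‖ ≤ δ * M + R) (hf : DB F j m f)
    (hA : ∀ n, A3 < n → f n = 0) (hAN : A3 * Nm ≤ N) (hA3N : A3 ≤ N) :
    MX (f * g) χ N ≤ F * (1 + Real.log N) ^ (j + 2 ^ m) * (δ * N + R * A3) := by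
  have hF := hf.nonneg
  have hlN := Real.log_natCast_nonneg N
  refine MX_le fun y hy => ?_
  rw [SS_mul]
  have h1 : ∀ a ∈ Icc 1 y, ‖∑ b ∈ Icc 1 (y / a), f a * g b * χ ((a * b : ℕ) : ZMod q)‖ ≤
      if a ≤ A3 then δ * N * (‖f a‖ / a) + R * ‖f a‖ else 0 := by
    intro a ha
    rw [mem_Icc] at ha
    split_ifs with haA
    · have e1 : ∑ b ∈ Icc 1 (y / a), f a * g b * χ ((a * b : ℕ) : ZMod q) = f a * χ (a : ZMod q) * SS g χ (y / a) := by
        unfold SS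
        rw [mul_sum]
        refine sum_congr rfl fun b _ => ?_
        push_cast
        rw [map_mul]
        ring
      rw [e1, norm_mul, norm_mul]
      have e2 : Nm ≤ N / a := by
        rw [Nat.le_div_iff_mul_le (by omega)]
        calc Nm * a ≤ Nm * A3 := Nat.mul_le_mul_left _ haA
          _ ≤ N := by rw [mul_comm]; exact hAN
      have e3 := hg (N / a) e2 (Nat.div_le_self N a) (y / a) (Nat.div_le_div_right hy)
      have e4 : ((N / a : ℕ) : ℝ) ≤ (N : ℝ) / a := Nat.cast_div_le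
      have e5 : ‖SS g χ (y / a)‖ ≤ δ * ((N : ℝ) / a) + R := by
        have := mul_le_mul_of_nonneg_left e4 hδ
        linarith
      calc ‖f a‖ * ‖χ (a : ZMod q)‖ * ‖SS g χ (y / a)‖ ≤ ‖f a‖ * 1 * (δ * ((N : ℝ) / a) + R) := by
            have := norm_chi_le χ a
            gcongr
        _ = _ := by ring
    · rw [hA a (by omega)]
      simp
  refine (norm_sum_le _ _).trans ((sum_le_sum h1).trans ?_)
  rw [← sum_filter]
  have h2 : ∑ a ∈ (Icc 1 y).filter (fun a => a ≤ A3), (δ * N * (‖f a‖ / a) + R * ‖f a‖) ≤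
      ∑ a ∈ Icc 1 A3, (δ * N * (‖f a‖ / a) + R * ‖f a‖) := by
    refine sum_le_sum_of_subset_of_nonneg ?_ fun _ _ _ => by positivity
    intro a ha
    rw [mem_filter, mem_Icc] at ha
    rw [mem_Icc]
    exact ⟨ha.1.1, ha.2⟩
  refine h2.trans ?_
  rw [sum_add_distrib, ← mul_sum, ← mul_sum]
  have h3 := hf.sum_div_le A3
  have h4 := hf.sum_le A3
  have h5 : Real.log A3 ≤ Real.log N := by
    rcases Nat.eq_zero_or_pos A3 with h6 | h6
    · rw [h6, Nat.cast_zero, Real.log_zero]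
      exact hlN
    · exact Real.log_le_log (by exact_mod_cast h6) (by exact_mod_cast hA3N)
  have h6 : (1 + Real.log A3) ^ (j + 2 ^ m) ≤ (1 + Real.log N) ^ (j + 2 ^ m) := by
    have := Real.log_natCast_nonneg A3
    exact pow_le_pow_left₀ (by linarith) (by linarith) _
  have h7 : ∑ n ∈ Icc 1 A3, ‖f n‖ / n ≤ F * (1 + Real.log N) ^ (j + 2 ^ m) :=
    h3.trans (mul_le_mul_of_nonneg_left h6 hF)
  have h8 : ∑ n ∈ Icc 1 A3, ‖f n‖ ≤ F * A3 * (1 + Real.log N) ^ (j + 2 ^ m) :=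
    h4.trans (mul_le_mul_of_nonneg_left h6 (by positivity))
  calc δ * N * ∑ n ∈ Icc 1 A3, ‖f n‖ / n + R * ∑ n ∈ Icc 1 A3, ‖f n‖
      ≤ δ * N * (F * (1 + Real.log N) ^ (j + 2 ^ m)) + R * (F * A3 * (1 + Real.log N) ^ (j + 2 ^ m)) := by
        gcongr
    _ = _ := by ring

/-- one product of four factors -/
theorem sml_core {q N A1 A2 Nm : ℕ} {G δ R : ℝ} {χ : DirichletCharacter ℂ q} {g1 g2 g3 g4 : AF} (hq : 1 ≤ q)
    (hqN : q ≤ N) (hχ : χ ∈ pc q) (hA1 : 1 ≤ A1) (hNm : 1 ≤ Nm) (hG : 1 ≤ G) (hδ : 0 ≤ δ) (hR : 0 ≤ R)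
    (hd1 : DB G 1 1 g1) (hg1 : ∀ M, Nm ≤ M → M ≤ N → ∀ y ≤ M, ‖SS g1 χ y‖ ≤ δ * M + R)
    (h2 : Cl G A1 g2) (h3 : Cl G A1 g3) (h4 : DB G 1 1 g4) (h4s : ∀ n, A2 < n → g4 n = 0)
    (hAN : A1 * A1 * A2 * Nm ≤ N) :
    MX (g1 * (g2 * (g3 * g4))) χ N ≤ 24 * G ^ 5 * √q * ((N : ℝ) / A1) * (1 + Real.log N) ^ 37 +
      G ^ 3 * (1 + Real.log N) ^ 35 * (δ * N + R * (A1 * A1 * A2 : ℕ)) := by
  have hlN := Real.log_natCast_nonneg N
  have hG0 : 0 ≤ G := zero_le_one.trans hG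
  have e1 : g1 * (g2 * (g3 * g4)) = (g1 * g3 * g4) * cutG A1 g2 + ((g1 * cut 0 A1 g2 * g4) * cutG A1 g3 +
      (cut 0 A1 g2 * cut 0 A1 g3 * g4) * g1) := by
    calc g1 * (g2 * (g3 * g4)) = g1 * ((cut 0 A1 g2 + cutG A1 g2) * (g3 * g4)) := by rw [cut_add_cutG]
      _ = g1 * g3 * g4 * cutG A1 g2 + g1 * cut 0 A1 g2 * g4 * (cut 0 A1 g3 + cutG A1 g3) := by
          rw [cut_add_cutG A1 g3]; ring
      _ = _ := by ring
  have d2 := h2.db
  have d3 := h3.db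
  have d2' := d2.cut 0 A1
  have d3' := d3.cut 0 A1
  have D1 : DB (G ^ 3) 3 5 (g1 * g3 * g4) := by
    have := (hd1.mul d3).mul h4
    refine this.mono (le_of_eq (by ring)) (by norm_num) (by norm_num)
  have D2 : DB (G ^ 3) 3 5 (g1 * cut 0 A1 g2 * g4) := by
    have := (hd1.mul d2').mul h4
    refine this.mono (le_of_eq (by ring)) (by norm_num) (by norm_num)
  have D3 : DB (G ^ 3) 3 5 (cut 0 A1 g2 * cut 0 A1 g3 * g4) := by
    have := (d2'.mul d3').mul h4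
    refine this.mono (le_of_eq (by ring)) (by norm_num) (by norm_num)
  have S3 : ∀ n, A1 * A1 * A2 < n → (cut 0 A1 g2 * cut 0 A1 g3 * g4) n = 0 :=
    supp_mul (supp_mul supp_cut supp_cut) h4s
  have m1 := cl_split h2 hA1 hq hqN hχ D1
  have m2 := cl_split h3 hA1 hq hqN hχ D2
  have m3 := sml_last (N := N) (by omega) hδ hR hg1 D3 S3 hAN
    ((Nat.le_mul_of_pos_right _ hNm).trans hAN)
  rw [e1]
  refine (MX_add_le _ _ _ _).trans ?_
  have m4 := MX_add_le ((g1 * cut 0 A1 g2 * g4) * cutG A1 g3) ((cut 0 A1 g2 * cut 0 A1 g3 * g4) * g1) χ N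
  norm_num at m1 m2 m3
  have e2 : 24 * G ^ 5 * √q * ((N : ℝ) / A1) * (1 + Real.log N) ^ 37 =
      12 * G ^ 3 * G ^ 2 * √q * ((N : ℝ) / A1) * (1 + Real.log N) ^ 37 +
      12 * G ^ 3 * G ^ 2 * √q * ((N : ℝ) / A1) * (1 + Real.log N) ^ 37 := by ring
  rw [e2]
  push_cast
  linarith

end SZE
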